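import Pool.Agent.H606R2.AR.Inst

/-!
# A positive solution of the system gives a drawing of the network
-/

namespace Pool.Agent.NPC.ER.AR

noncomputable section

/-- The primitive sixth root of unity. -/
def om : ℂ := ⟨1 / 2, √3 / 2⟩

theorem om_re : om.re = 1 / 2 := rfl
theorem om_im : om.im = √3 / 2 := rfl

theorem fr_om {u : ℂ} (h : u ≠ 0) : Fr u (u * om) := by
  refine ⟨h, √3 / 2, ?_, ?_, ?_⟩
  · rw [div_pow, Real.sq_sqrt (by norm_num)]; norm_num
  · rw [Complex.mul_re, om_re, om_im]; ring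
  · rw [Complex.mul_im, om_re, om_im]; ring

theorem om_sq : om * om = om - 1 := by
  have h : √3 * √3 = 3 := Real.mul_self_sqrt (by norm_num)
  apply Complex.ext
  · simp only [Complex.mul_re, om_re, om_im, Complex.sub_re, Complex.one_re]
    linarith
  · simp only [Complex.mul_im, om_re, om_im, Complex.sub_im, Complex.one_im]
    ring

/-- The point with lattice coordinates `p`. -/
def pt (p : ℝ × ℝ) : ℂ := (p.1 : ℂ) + (p.2 : ℂ) * om

theorem pt_inj {p q : ℝ × ℝ} (h : pt p = pt q) : p = q := by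
  unfold pt at h
  have := (fr_om one_ne_zero).indep' (x := p.1) (y := p.2) (x' := q.1) (y' := q.2) (by
    rw [one_mul, mul_one]
    linear_combination h)
  exact Prod.ext this.1 this.2

theorem lat_main {U : ℂ} (q : ℤ × ℤ) : lat U (U * om) q = U * pt (q.1, q.2) := by
  unfold lat pt
  push_cast
  ring

/-- parameters of the drawing -/
structure Par where
  /-- the system -/
  S : List Con
  /-- the widths of the slots -/
  X : ℕ → ℝ
  /-- the heights of the slots -/
  H : ℕ → ℝ
  /-- the distance of the slots -/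
  L : ℝ
  /-- the distance of the levels -/
  K : ℝ
  X_pos : ∀ f, 0 < X f
  X_lt : ∀ f, 8 * X f < L
  K_lt : ∀ f < 8 * S.length, |H f| + X f < K
  lab : ∀ l f f', (labs S)[f]? = some l → (labs S)[f']? = some l → X f = X f'
  one : ∀ k i, S[k]? = some (Con.one i) → X (8 * k) = X (8 * k + 1) ∧ H (8 * k) = 0 ∧
    H (8 * k + 1) = 0
  add : ∀ k i j l, S[k]? = some (Con.add i j l) → X (8 * k) + X (8 * k + 1) = X (8 * k + 2) ∧
    H (8 * k) = 0 ∧ H (8 * k + 1) = X (8 * k) ∧ H (8 * k + 2) = 0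
  mul : ∀ k i j l, S[k]? = some (Con.mul i j l) →
    X (8 * k + 1) * X (8 * k + 4) = X (8 * k + 5) * X (8 * k) ∧
    X (8 * k + 2) = X (8 * k) ∧ X (8 * k + 3) = X (8 * k + 1) ∧
    X (8 * k + 6) = X (8 * k + 4) ∧ X (8 * k + 7) = X (8 * k + 5) ∧
    H (8 * k) = -X (8 * k) ∧ H (8 * k + 1) = L / 2 ∧ H (8 * k + 2) = -2 * X (8 * k) ∧
    H (8 * k + 3) = X (8 * k + 1) - 3 / 2 * L ∧
    H (8 * k + 4) = 4 * L * X (8 * k + 1) / X (8 * k) - X (8 * k + 4) ∧
    H (8 * k + 5) = 4 * L * X (8 * k + 1) / X (8 * k) + L / 2 ∧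
    H (8 * k + 6) = 4 * L * X (8 * k + 1) / X (8 * k) - 2 * X (8 * k + 4) ∧
    H (8 * k + 7) = 4 * L * X (8 * k + 1) / X (8 * k) + X (8 * k + 5) - 3 / 2 * L

namespace Par

variable (p : Par)

/-- coordinates of the nodes of a slot -/
def tp (f : ℕ) : ℕ → ℝ × ℝ
  | 0 => (p.L * f, -p.K)
  | 1 => (p.L * f + p.X f, -p.K)
  | 2 => (p.L * f, -p.K + p.X f)
  | 3 => (p.L * f, p.H f)
  | 4 => (p.L * f + p.X f, p.H f)
  | 5 => (p.L * f, p.H f + p.X f)
  | 6 => (p.L * f, p.K)
  | 7 => (p.L * f + p.X f, p.K)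
  | 8 => (p.L * f, p.K + p.X f)
  | _ => (p.L * f + p.X f, p.K + p.L - p.X f)

/-- first coordinate of the direction of the slanted lines -/
def dd (k : ℕ) : ℝ := 2 * p.X (8 * k + 1) + 2 * p.X (8 * k)

/-- the height of the second pair -/
def tt (k : ℕ) : ℝ := 4 * p.L * p.X (8 * k + 1) / p.X (8 * k)

/-- the position of the free stars -/
def rho (k : ℕ) : ℝ := min 1 (p.X (8 * k + 4) / p.X (8 * k)) / 3

/-- coordinates of the free nodes of a multiplication gadget -/
def mm (k : ℕ) : ℕ → ℝ × ℝ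
  | 0 => (p.L * (8 * k) + 3 / 2 * p.L, 0)
  | 1 => (p.L * (8 * k) + 3 / 2 * p.L + p.dd k, -2 * p.X (8 * k))
  | 2 => (p.L * (8 * k) + 11 / 2 * p.L, p.tt k)
  | 3 => (p.L * (8 * k) + 11 / 2 * p.L + (2 * p.X (8 * k + 5) + 2 * p.X (8 * k + 4)),
      p.tt k - 2 * p.X (8 * k + 4))
  | 4 => (p.L * (8 * k) + 3 / 2 * p.L + p.rho k * p.dd k, p.rho k * (-2 * p.X (8 * k)))
  | 5 => (p.L * (8 * k) + 3 / 2 * p.L + 2 * p.rho k * p.dd k, 2 * p.rho k * (-2 * p.X (8 * k)))
  | 6 => (p.L * (8 * k) + 11 / 2 * p.L + p.rho k * p.dd k,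
      p.tt k + p.rho k * (-2 * p.X (8 * k)))
  | _ => (p.L * (8 * k) + 11 / 2 * p.L + 2 * p.rho k * p.dd k,
      p.tt k + 2 * p.rho k * (-2 * p.X (8 * k)))

/-- coordinates of the free nodes -/
def mp (f : ℕ) : ℝ × ℝ := match p.S[f / 8]? with
  | some (Con.mul _ _ _) => p.mm (f / 8) (f % 8)
  | _ => (p.L * f + p.L / 2, 0)

/-- coordinates of all nodes -/
def co (v : ℕ) : ℝ × ℝ := if v % 11 = 10 then p.mp (v / 11) else p.tp (v / 11) (v % 11)

/-- the direction of the slanted lines -/
def dv (k : ℕ) : ℂ := pt (p.dd k, -2 * p.X (8 * k))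

/-- the frames -/
def fU (v : ℕ) : ℂ := if v % 11 = 10 ∧ 4 ≤ v / 11 % 8 then
    match p.S[v / 88]? with
    | some (Con.mul _ _ _) => p.dv (v / 88) / ‖p.dv (v / 88)‖
    | _ => 1
  else 1

variable {p}

theorem L_pos : 0 < p.L := by linarith [p.X_lt 0, p.X_pos 0]

theorem co_T {f c : ℕ} (hc : c < 10) : p.co (11 * f + c) = p.tp f c := by
  unfold co
  have e1 : (11 * f + c) % 11 = c := by omega
  have e2 : (11 * f + c) / 11 = f := by omega
  rw [e1, e2, if_neg (by omega)]

theorem co_M {f : ℕ} : p.co (11 * f + 10) = p.mp f := by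
  unfold co
  have e1 : (11 * f + 10) % 11 = 10 := by omega
  have e2 : (11 * f + 10) / 11 = f := by omega
  rw [e1, e2, if_pos rfl]

theorem dv_re (k : ℕ) : 0 < (p.dv k).re := by
  unfold dv pt dd
  simp only [Complex.add_re, Complex.ofReal_re, Complex.mul_re, Complex.ofReal_im, om_re]
  linarith [p.X_pos (8 * k), p.X_pos (8 * k + 1)]

theorem dv_ne (k : ℕ) : p.dv k ≠ 0 := by
  intro h
  have := p.dv_re k
  rw [h] at this
  simp at this

theorem norm_pos' (k : ℕ) : 0 < ‖p.dv k‖ := norm_pos_iff.2 (p.dv_ne k)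

theorem fU_norm (v : ℕ) : ‖p.fU v‖ = 1 := by
  unfold fU
  split_ifs
  · split
    · rw [norm_div, Complex.norm_real, norm_norm, div_self (norm_pos' _).ne']
    · exact norm_one
  · exact norm_one

theorem fU_ne (v : ℕ) : p.fU v ≠ 0 := by
  intro h
  have := p.fU_norm v
  rw [h] at this
  simp at this

theorem fU_T {v : ℕ} (h : v % 11 < 10) : p.fU v = 1 := by
  unfold fU
  rw [if_neg (by omega)]

theorem fU_R {k i j l v : ℕ} (hc : p.S[k]? = some (Con.mul i j l)) (h1 : v / 88 = k)
    (h2 : v % 11 = 10) (h3 : 44 ≤ v % 88) : p.fU v = p.dv k / ‖p.dv k‖ := by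
  unfold fU
  rw [if_pos (by omega), h1, hc]

/-- Direction relation in terms of coordinates, for ordinary nodes. -/
theorem pos_main {v v' k : ℕ} (hv : v % 11 < 10) {s : ℝ} (hs : 0 < s)
    (h1 : (p.co v').1 = (p.co v).1 + s * (dz k).1) (h2 : (p.co v').2 = (p.co v).2 + s * (dz k).2) :
    ∃ s : ℝ, 0 < s ∧ pt (p.co v') - pt (p.co v) = s * lat (p.fU v) (p.fU v * om) (dz k) := by
  refine ⟨s, hs, ?_⟩
  rw [fU_T hv, lat_main]
  unfold pt
  dsimp only
  rw [h1, h2]
  push_cast
  ring

/-- the interval of the first coordinate of an ordinary node -/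
theorem tp_fst (f : ℕ) {c : ℕ} (hc : c < 10) :
    p.L * f ≤ (p.tp f c).1 ∧ (p.tp f c).1 < p.L * f + p.L / 2 := by
  have h1 := p.X_pos f
  have h2 := p.X_lt f
  have h3 := p.L_pos
  interval_cases c <;> simp only [tp] <;> constructor <;> linarith

theorem rho_pos (k : ℕ) : 0 < p.rho k := by
  unfold rho
  have : 0 < p.X (8 * k + 4) / p.X (8 * k) := div_pos (p.X_pos _) (p.X_pos _)
  have := lt_min one_pos this
  linarith

theorem rho_le (k : ℕ) : 3 * p.rho k ≤ 1 ∧ 3 * p.rho k ≤ p.X (8 * k + 4) / p.X (8 * k) := by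
  unfold rho
  have h1 := min_le_left 1 (p.X (8 * k + 4) / p.X (8 * k))
  have h2 := min_le_right 1 (p.X (8 * k + 4) / p.X (8 * k))
  exact ⟨by linarith, by linarith⟩

/-- the second slanted segment -/
theorem second {k i j l : ℕ} (hc : p.S[k]? = some (Con.mul i j l)) :
    2 * p.X (8 * k + 5) + 2 * p.X (8 * k + 4) = p.X (8 * k + 4) / p.X (8 * k) * p.dd k ∧
    -2 * p.X (8 * k + 4) = p.X (8 * k + 4) / p.X (8 * k) * (-2 * p.X (8 * k)) := by
  have h := (p.mul k i j l hc).1
  have h0 := (p.X_pos (8 * k)).ne'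
  unfold dd
  constructor
  · field_simp
    linear_combination -h
  · field_simp

theorem mm_facts {k i j l : ℕ} (hc : p.S[k]? = some (Con.mul i j l)) :
    0 < p.rho k * p.dd k ∧ 2 * (p.rho k * p.dd k) < p.dd k ∧ p.dd k < p.L / 2 ∧
    2 * (p.rho k * p.dd k) < 2 * p.X (8 * k + 5) + 2 * p.X (8 * k + 4) ∧
    2 * p.X (8 * k + 5) + 2 * p.X (8 * k + 4) < p.L / 2 := by
  have h1 := p.rho_pos k
  have h2 := p.rho_le k
  have h3 : 0 < p.dd k := by
    unfold dd
    linarith [p.X_pos (8 * k), p.X_pos (8 * k + 1)]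
  have h4 := (second hc).1
  refine ⟨mul_pos h1 h3, by nlinarith, ?_, ?_, ?_⟩
  · unfold dd
    linarith [p.X_lt (8 * k), p.X_lt (8 * k + 1)]
  · rw [h4]
    nlinarith
  · linarith [p.X_lt (8 * k + 4), p.X_lt (8 * k + 5)]

/-- the interval of the first coordinate of a free node -/
theorem mp_fst (f : ℕ) : ∃ j : ℕ, j / 8 = f / 8 ∧
    p.L * j + p.L / 2 ≤ (p.mp f).1 ∧ (p.mp f).1 < p.L * j + p.L := by
  have hL := p.L_pos
  unfold mp
  split
  · rename_i i j l hc
    obtain ⟨h1, h2, h3, h4, h5⟩ := mm_facts hc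
    have hr : f % 8 < 8 := Nat.mod_lt _ (by norm_num)
    generalize hk : f / 8 = k at *
    generalize f % 8 = r at *
    have e1 : ((8 * k + 1 : ℕ) : ℝ) = 8 * k + 1 := by push_cast; ring
    have e5 : ((8 * k + 5 : ℕ) : ℝ) = 8 * k + 5 := by push_cast; ring
    interval_cases r
    · exact ⟨8 * k + 1, by omega, by rw [e1]; simp only [mm]; linarith, by
        rw [e1]; simp only [mm]; linarith⟩
    · exact ⟨8 * k + 1, by omega, by rw [e1]; simp only [mm]; linarith, by
        rw [e1]; simp only [mm]; linarith⟩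
    · exact ⟨8 * k + 5, by omega, by rw [e5]; simp only [mm]; linarith, by
        rw [e5]; simp only [mm]; linarith⟩
    · exact ⟨8 * k + 5, by omega, by rw [e5]; simp only [mm]; linarith, by
        rw [e5]; simp only [mm]; linarith⟩
    · exact ⟨8 * k + 1, by omega, by rw [e1]; simp only [mm]; linarith, by
        rw [e1]; simp only [mm]; linarith⟩
    · exact ⟨8 * k + 1, by omega, by rw [e1]; simp only [mm]; linarith, by
        rw [e1]; simp only [mm]; linarith⟩
    · exact ⟨8 * k + 5, by omega, by rw [e5]; simp only [mm]; linarith, by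
        rw [e5]; simp only [mm]; linarith⟩
    · exact ⟨8 * k + 5, by omega, by rw [e5]; simp only [mm]; linarith, by
        rw [e5]; simp only [mm]; linarith⟩
  · exact ⟨f, rfl, le_rfl, by dsimp only; linarith⟩

theorem nat_of_interval {L a b : ℝ} (hL : 0 < L) {i j : ℕ} {u : ℝ} (h1 : L * i + a ≤ u)
    (h2 : u < L * i + b) (h3 : L * j + a ≤ u) (h4 : u < L * j + b) (hab : b - a ≤ L) : i = j := by
  rcases lt_trichotomy i j with h | h | h
  · exfalso
    have : (i : ℝ) + 1 ≤ j := by exact_mod_cast h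
    nlinarith
  · exact h
  · exfalso
    have : (j : ℝ) + 1 ≤ i := by exact_mod_cast h
    nlinarith

theorem no_interval {L : ℝ} (hL : 0 < L) {i j : ℕ} {u : ℝ} (h1 : L * i ≤ u)
    (h2 : u < L * i + L / 2) (h3 : L * j + L / 2 ≤ u) (h4 : u < L * j + L) : False := by
  rcases lt_trichotomy i j with h | h | h
  · have : (i : ℝ) + 1 ≤ j := by exact_mod_cast h
    nlinarith
  · subst h
    linarith
  · have : (j : ℝ) + 1 ≤ i := by exact_mod_cast h
    nlinarith

theorem tp_inj {f c c' : ℕ} (hf : f < 8 * p.S.length) (hc : c < 10) (hc' : c' < 10)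
    (h : p.tp f c = p.tp f c') : c = c' := by
  have h1 := p.X_pos f
  have h2 := p.X_lt f
  have h3 := p.K_lt f hf
  have h4 := abs_le.1 (le_of_lt (lt_of_le_of_lt (le_add_of_nonneg_right h1.le) h3))
  have h5 := le_abs_self (p.H f)
  have h6 := neg_abs_le (p.H f)
  have e1 := (Prod.ext_iff.1 h).1
  have e2 := (Prod.ext_iff.1 h).2
  interval_cases c <;> interval_cases c' <;> first
    | rfl
    | (exfalso; simp only [tp] at e1 e2; linarith)

theorem mm_inj {k i j l r r' : ℕ} (hc : p.S[k]? = some (Con.mul i j l)) (hr : r < 8)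
    (hr' : r' < 8) (h : p.mm k r = p.mm k r') : r = r' := by
  obtain ⟨h1, h2, h3, h4, h5⟩ := mm_facts hc
  have hL := p.L_pos
  have e1 := (Prod.ext_iff.1 h).1
  interval_cases r <;> interval_cases r' <;> first
    | rfl
    | (exfalso; simp only [mm] at e1; linarith)

theorem co_inj {v v' : ℕ} (hv : v < 88 * p.S.length) (hv' : v' < 88 * p.S.length)
    (h : p.co v = p.co v') : v = v' := by
  have hL := p.L_pos
  obtain ⟨f, c, hc, rfl⟩ : ∃ f c, c < 11 ∧ v = 11 * f + c :=
    ⟨v / 11, v % 11, Nat.mod_lt _ (by norm_num), by omega⟩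
  obtain ⟨f', c', hc', rfl⟩ : ∃ f c, c < 11 ∧ v' = 11 * f + c :=
    ⟨v' / 11, v' % 11, Nat.mod_lt _ (by norm_num), by omega⟩
  rcases Nat.lt_or_ge c 10 with h1 | h1
  · rcases Nat.lt_or_ge c' 10 with h2 | h2
    · rw [co_T h1, co_T h2] at h
      have i1 := p.tp_fst f h1
      have i2 := p.tp_fst f' h2
      rw [h] at i1
      have : f = f' := nat_of_interval (a := 0) (b := p.L / 2) hL (by linarith [i1.1])
        (by linarith [i1.2]) (by linarith [i2.1]) (by linarith [i2.2]) (by linarith)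
      subst this
      rw [tp_inj (by omega) h1 h2 h]
    · have h3 : c' = 10 := by omega
      subst h3
      rw [co_T h1, co_M] at h
      have i1 := p.tp_fst f h1
      obtain ⟨j, _, j1, j2⟩ := p.mp_fst f'
      rw [h] at i1
      exact (no_interval hL i1.1 i1.2 j1 j2).elim
  · have h3 : c = 10 := by omega
    subst h3
    rcases Nat.lt_or_ge c' 10 with h2 | h2
    · rw [co_T h2, co_M] at h
      have i1 := p.tp_fst f' h2
      obtain ⟨j, _, j1, j2⟩ := p.mp_fst f
      rw [← h] at i1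
      exact (no_interval hL i1.1 i1.2 j1 j2).elim
    · have h3 : c' = 10 := by omega
      subst h3
      rw [co_M, co_M] at h
      obtain ⟨j, j0, j1, j2⟩ := p.mp_fst f
      obtain ⟨j', j0', j1', j2'⟩ := p.mp_fst f'
      rw [h] at j1 j2
      have hj : j = j' := nat_of_interval (a := p.L / 2) (b := p.L) hL j1 j2 j1' j2'
        (by linarith)
      have hk : f / 8 = f' / 8 := by rw [← j0, ← j0', hj]
      unfold mp at h
      rw [hk] at h
      split at h
      · rename_i a b l hc
        have := mm_inj hc (Nat.mod_lt _ (by norm_num)) (Nat.mod_lt _ (by norm_num)) h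
        omega
      · have e1 := (Prod.ext_iff.1 h).1
        dsimp only at e1
        have : (f : ℝ) = f' := by
          have : p.L * ((f : ℝ) - f') = 0 := by linarith
          have := (mul_eq_zero.1 this).resolve_left hL.ne'
          linarith
        have : f = f' := by exact_mod_cast this
        rw [this]

theorem co_B {k r c : ℕ} (hc : c < 10) : p.co (88 * k + (11 * r + c)) = p.tp (8 * k + r) c := by
  have e : 88 * k + (11 * r + c) = 11 * (8 * k + r) + c := by ring
  rw [e, co_T hc]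

theorem co_R {k i j l r : ℕ} (hc : p.S[k]? = some (Con.mul i j l)) (hr : r < 8) :
    p.co (88 * k + (11 * r + 10)) = p.mm k r := by
  have e : 88 * k + (11 * r + 10) = 11 * (8 * k + r) + 10 := by ring
  rw [e, co_M]
  unfold mp
  have e1 : (8 * k + r) / 8 = k := by omega
  have e2 : (8 * k + r) % 8 = r := by omega
  rw [e1, e2, hc]

/-- direction relation for the free stars -/
theorem pos_slant {k i j l v v' κ : ℕ} (hc : p.S[k]? = some (Con.mul i j l)) (h1 : v / 88 = k)
    (h2 : v % 11 = 10) (h3 : 44 ≤ v % 88) {s : ℝ} (hs : 0 < s)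
    (h : pt (p.co v') - pt (p.co v) = s * (p.dv k * pt ((dz κ).1, (dz κ).2))) :
    ∃ s : ℝ, 0 < s ∧ pt (p.co v') - pt (p.co v) = s * lat (p.fU v) (p.fU v * om) (dz κ) := by
  have h0 := p.norm_pos' k
  refine ⟨s * ‖p.dv k‖, mul_pos hs h0, ?_⟩
  rw [fU_R hc h1 h2 h3, lat_main, h]
  have : (‖p.dv k‖ : ℂ) ≠ 0 := by exact_mod_cast h0.ne'
  push_cast
  field_simp

theorem pos_loc {f : ℕ} (hf : f < 8 * p.S.length) : ∀ e₀ ∈ Loc, ∃ s : ℝ, 0 < s ∧
    pt (p.co (sh (11 * f) e₀).2.2.1) - pt (p.co (sh (11 * f) e₀).1) =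
      s * lat (p.fU (sh (11 * f) e₀).1) (p.fU (sh (11 * f) e₀).1 * om)
        (dz (sh (11 * f) e₀).2.1) := by
  have h1 := p.X_pos f
  have h2 := p.X_lt f
  have h3 := p.K_lt f hf
  have h5 := le_abs_self (p.H f)
  have h6 := neg_abs_le (p.H f)
  have key : ∀ (c k c' : ℕ) (s : ℝ), c < 10 → c' < 10 → 0 < s →
      (p.tp f c').1 = (p.tp f c).1 + s * (dz k).1 → (p.tp f c').2 = (p.tp f c).2 + s * (dz k).2 →
      ∃ s : ℝ, 0 < s ∧ pt (p.co (11 * f + c')) - pt (p.co (11 * f + c)) =
        s * lat (p.fU (11 * f + c)) (p.fU (11 * f + c) * om) (dz k) := by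
    intro c k c' s hc hc' hs e1 e2
    refine pos_main (by omega) hs ?_ ?_
    · rw [co_T hc, co_T hc', e1]
    · rw [co_T hc, co_T hc', e2]
  intro e₀ h₀
  simp only [Loc, List.mem_cons, List.not_mem_nil, or_false] at h₀
  simp only [sh]
  rcases h₀ with rfl | rfl | rfl | rfl | rfl | rfl | rfl | rfl | rfl | rfl | rfl | rfl | rfl | rfl
  · exact key 0 0 1 (p.X f) (by norm_num) (by norm_num) h1 (by simp [tp, dz]) (by simp [tp, dz])
  · exact key 0 1 2 (p.X f) (by norm_num) (by norm_num) h1 (by simp [tp, dz]) (by simp [tp, dz])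
  · exact key 1 2 2 (p.X f) (by norm_num) (by norm_num) h1 (by simp [tp, dz]) (by simp [tp, dz])
  · exact key 3 0 4 (p.X f) (by norm_num) (by norm_num) h1 (by simp [tp, dz]) (by simp [tp, dz])
  · exact key 3 1 5 (p.X f) (by norm_num) (by norm_num) h1 (by simp [tp, dz]) (by simp [tp, dz])
  · exact key 4 2 5 (p.X f) (by norm_num) (by norm_num) h1 (by simp [tp, dz]) (by simp [tp, dz])
  · exact key 6 0 7 (p.X f) (by norm_num) (by norm_num) h1 (by simp [tp, dz]) (by simp [tp, dz])
  · exact key 6 1 8 (p.X f) (by norm_num) (by norm_num) h1 (by simp [tp, dz]) (by simp [tp, dz])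
  · exact key 7 2 8 (p.X f) (by norm_num) (by norm_num) h1 (by simp [tp, dz]) (by simp [tp, dz])
  · exact key 2 1 3 (p.H f + p.K - p.X f) (by norm_num) (by norm_num) (by linarith)
      (by simp [tp, dz]) (by simp [tp, dz])
  · exact key 1 1 4 (p.H f + p.K) (by norm_num) (by norm_num) (by linarith)
      (by simp [tp, dz]) (by simp [tp, dz])
  · exact key 5 1 6 (p.K - p.H f - p.X f) (by norm_num) (by norm_num) (by linarith)
      (by simp [tp, dz]) (by simp [tp, dz])
  · exact key 4 1 7 (p.K - p.H f) (by norm_num) (by norm_num) (by linarith)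
      (by simp [tp, dz]) (by simp [tp, dz])
  · exact key 7 1 9 (p.L - p.X f) (by norm_num) (by norm_num) (by linarith)
      (by simp [tp, dz]) (by simp [tp, dz]; ring)

theorem pos_al {f : ℕ} : ∀ e ∈ al f, ∃ s : ℝ, 0 < s ∧ pt (p.co e.2.2.1) - pt (p.co e.1) =
    s * lat (p.fU e.1) (p.fU e.1 * om) (dz e.2.1) := by
  have h1 := p.X_pos f
  have h2 := p.X_lt f
  intro e he
  simp only [al, List.mem_cons, List.not_mem_nil, or_false] at he
  rcases he with rfl | rfl
  · refine pos_main (s := p.L - p.X f) (by omega) (by linarith) ?_ ?_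
    · dsimp only
      rw [co_T (by norm_num), co_T (by norm_num)]
      simp only [tp, dz]; push_cast; ring
    · dsimp only
      rw [co_T (by norm_num), co_T (by norm_num)]
      simp only [tp, dz]; push_cast; ring
  · refine pos_main (s := p.L - p.X f) (by omega) (by linarith) ?_ ?_
    · dsimp only
      rw [co_T (by norm_num), co_T (by norm_num)]
      simp only [tp, dz]; push_cast; ring
    · dsimp only
      rw [co_T (by norm_num), co_T (by norm_num)]
      simp only [tp, dz]; push_cast; ring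

theorem pos_eq {f f' : ℕ} (hff : f < f') (hX : p.X f = p.X f') : ∀ e ∈ eqI f f',
    ∃ s : ℝ, 0 < s ∧ pt (p.co e.2.2.1) - pt (p.co e.1) =
    s * lat (p.fU e.1) (p.fU e.1 * om) (dz e.2.1) := by
  have h1 := p.X_pos f
  have h2 := p.X_lt f
  have hL := p.L_pos
  have h3 : (f : ℝ) + 1 ≤ f' := by exact_mod_cast hff
  have h4 : p.L ≤ p.L * (f' - f) := by nlinarith
  intro e he
  simp only [eqI, List.mem_cons, List.not_mem_nil, or_false] at he
  rcases he with rfl | rfl
  · refine pos_main (s := p.L * (f' - f) - p.X f) (by omega) (by linarith) ?_ ?_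
    · dsimp only
      rw [co_T (by norm_num), ← add_zero (11 * f'), co_T (by norm_num)]
      simp only [tp, dz]; push_cast; ring
    · dsimp only
      rw [co_T (by norm_num), ← add_zero (11 * f'), co_T (by norm_num)]
      simp only [tp, dz]; push_cast; ring
  · refine pos_main (s := p.L * (f' - f)) (by omega) (by linarith) ?_ ?_
    · dsimp only
      rw [co_T (by norm_num), co_T (by norm_num)]
      simp only [tp, dz]; push_cast; ring
    · dsimp only
      rw [co_T (by norm_num), co_T (by norm_num)]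
      simp only [tp, dz, hX]; push_cast; ring

theorem pos_gad {k : ℕ} {c : Con} (hc : p.S[k]? = some c) : ∀ e₀ ∈ gad c, ∃ s : ℝ, 0 < s ∧
    pt (p.co (sh (88 * k) e₀).2.2.1) - pt (p.co (sh (88 * k) e₀).1) =
      s * lat (p.fU (sh (88 * k) e₀).1) (p.fU (sh (88 * k) e₀).1 * om)
        (dz (sh (88 * k) e₀).2.1) := by
  have hL := p.L_pos
  have hX := p.X_pos
  have hXl := p.X_lt
  intro e₀ h₀
  have c0 : ((8 * k : ℕ) : ℝ) = 8 * k := by push_cast; ring
  have c1 : ((8 * k + 1 : ℕ) : ℝ) = 8 * k + 1 := by push_cast; ring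
  have c2 : ((8 * k + 2 : ℕ) : ℝ) = 8 * k + 2 := by push_cast; ring
  have c3 : ((8 * k + 3 : ℕ) : ℝ) = 8 * k + 3 := by push_cast; ring
  have c4 : ((8 * k + 4 : ℕ) : ℝ) = 8 * k + 4 := by push_cast; ring
  have c5 : ((8 * k + 5 : ℕ) : ℝ) = 8 * k + 5 := by push_cast; ring
  have c6 : ((8 * k + 6 : ℕ) : ℝ) = 8 * k + 6 := by push_cast; ring
  have c7 : ((8 * k + 7 : ℕ) : ℝ) = 8 * k + 7 := by push_cast; ring
  have t4 : p.co (88 * k + 4) = p.tp (8 * k) 4 := p.co_B (r := 0) (c := 4) (by norm_num)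
  have t5 : p.co (88 * k + 5) = p.tp (8 * k) 5 := p.co_B (r := 0) (c := 5) (by norm_num)
  have t14 : p.co (88 * k + 14) = p.tp (8 * k + 1) 3 := p.co_B (r := 1) (c := 3) (by norm_num)
  have t15 : p.co (88 * k + 15) = p.tp (8 * k + 1) 4 := p.co_B (r := 1) (c := 4) (by norm_num)
  have t16 : p.co (88 * k + 16) = p.tp (8 * k + 1) 5 := p.co_B (r := 1) (c := 5) (by norm_num)
  have t25 : p.co (88 * k + 25) = p.tp (8 * k + 2) 3 := p.co_B (r := 2) (c := 3) (by norm_num)
  have t27 : p.co (88 * k + 27) = p.tp (8 * k + 2) 5 := p.co_B (r := 2) (c := 5) (by norm_num)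
  have t36 : p.co (88 * k + 36) = p.tp (8 * k + 3) 3 := p.co_B (r := 3) (c := 3) (by norm_num)
  have t38 : p.co (88 * k + 38) = p.tp (8 * k + 3) 5 := p.co_B (r := 3) (c := 5) (by norm_num)
  have t48 : p.co (88 * k + 48) = p.tp (8 * k + 4) 4 := p.co_B (r := 4) (c := 4) (by norm_num)
  have t49 : p.co (88 * k + 49) = p.tp (8 * k + 4) 5 := p.co_B (r := 4) (c := 5) (by norm_num)
  have t58 : p.co (88 * k + 58) = p.tp (8 * k + 5) 3 := p.co_B (r := 5) (c := 3) (by norm_num)
  have t59 : p.co (88 * k + 59) = p.tp (8 * k + 5) 4 := p.co_B (r := 5) (c := 4) (by norm_num)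
  have t69 : p.co (88 * k + 69) = p.tp (8 * k + 6) 3 := p.co_B (r := 6) (c := 3) (by norm_num)
  have t71 : p.co (88 * k + 71) = p.tp (8 * k + 6) 5 := p.co_B (r := 6) (c := 5) (by norm_num)
  have t80 : p.co (88 * k + 80) = p.tp (8 * k + 7) 3 := p.co_B (r := 7) (c := 3) (by norm_num)
  have t82 : p.co (88 * k + 82) = p.tp (8 * k + 7) 5 := p.co_B (r := 7) (c := 5) (by norm_num)
  cases c with
  | one i =>
    obtain ⟨o1, o2, o3⟩ := p.one k i hc
    simp only [gad, List.mem_cons, List.not_mem_nil, or_false] at h₀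
    simp only [sh]
    rcases h₀ with rfl | rfl
    · refine pos_main (s := p.L - p.X (8 * k)) (by omega) (by linarith [hX (8 * k), hXl (8 * k)])
        ?_ ?_ <;> dsimp only <;> rw [t4, t14] <;> simp only [tp, dz, o1, o2, o3, c0, c1] <;>
        push_cast <;> ring
    · refine pos_main (s := p.L) (by omega) hL ?_ ?_ <;> dsimp only <;> rw [t5, t16] <;>
        simp only [tp, dz, o1, o2, o3, c0, c1] <;> push_cast <;> ring
  | add i j l =>
    obtain ⟨o1, o2, o3, o4⟩ := p.add k i j l hc
    simp only [gad, List.mem_cons, List.not_mem_nil, or_false] at h₀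
    simp only [sh]
    rcases h₀ with rfl | rfl | rfl
    · refine pos_main (s := 2 * p.L - p.X (8 * k)) (by omega)
        (by linarith [hX (8 * k), hXl (8 * k)])
        ?_ ?_ <;> dsimp only <;> rw [t4, t25] <;> simp only [tp, dz, o2, o3, o4, c0, c2] <;>
        push_cast <;> ring
    · refine pos_main (s := p.L) (by omega) hL ?_ ?_ <;> dsimp only <;> rw [t5, t14] <;>
        simp only [tp, dz, o2, o3, o4, c0, c1] <;> push_cast <;> ring
    · refine pos_main (s := p.L) (by omega) hL ?_ ?_ <;> dsimp only <;> rw [t16, t27] <;>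
        simp only [tp, dz, ← o1, o2, o3, o4, c1, c2] <;> push_cast <;> ring
  | mul i j l =>
    obtain ⟨o0, o2, o3, o6, o7, h0, h1, h2, h3, h4, h5, h6, h7⟩ := p.mul k i j l hc
    have hT : 4 * p.L * p.X (8 * k + 1) / p.X (8 * k) = p.tt k := rfl
    rw [hT] at h4 h5 h6 h7
    obtain ⟨m1, m2, m3, m4, m5⟩ := mm_facts hc
    have hd : p.dd k = 2 * p.X (8 * k + 1) + 2 * p.X (8 * k) := rfl
    have r10 : p.co (88 * k + 10) = p.mm k 0 := p.co_R (r := 0) hc (by norm_num)
    have r21 : p.co (88 * k + 21) = p.mm k 1 := p.co_R (r := 1) hc (by norm_num)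
    have r32 : p.co (88 * k + 32) = p.mm k 2 := p.co_R (r := 2) hc (by norm_num)
    have r43 : p.co (88 * k + 43) = p.mm k 3 := p.co_R (r := 3) hc (by norm_num)
    have r54 : p.co (88 * k + 54) = p.mm k 4 := p.co_R (r := 4) hc (by norm_num)
    have r65 : p.co (88 * k + 65) = p.mm k 5 := p.co_R (r := 5) hc (by norm_num)
    have r76 : p.co (88 * k + 76) = p.mm k 6 := p.co_R (r := 6) hc (by norm_num)
    have r87 : p.co (88 * k + 87) = p.mm k 7 := p.co_R (r := 7) hc (by norm_num)
    obtain ⟨se1, se2⟩ := p.second hc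
    have rp := p.rho_pos k
    have rl := p.rho_le k
    simp only [gad, List.mem_cons, List.not_mem_nil, or_false] at h₀
    simp only [sh]
    rcases h₀ with rfl | rfl | rfl | rfl | rfl | rfl | rfl | rfl | rfl | rfl | rfl | rfl | rfl |
      rfl | rfl | rfl | rfl | rfl | rfl | rfl
    · refine pos_main (s := 2 * p.L - p.X (8 * k)) (by omega)
        (by linarith [hX (8 * k), hXl (8 * k)])
        ?_ ?_ <;> dsimp only <;> rw [t4, t27] <;> simp only [tp, dz, o2, h0, h2, c0, c2] <;>
        push_cast <;> ring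
    · refine pos_main (s := 2 * p.L - p.X (8 * k + 1)) (by omega)
        (by linarith [hX (8 * k + 1), hXl (8 * k + 1)])
        ?_ ?_ <;> dsimp only <;> rw [t15, t36] <;> simp only [tp, dz, o3, h1, h3, c1, c3] <;>
        push_cast <;> ring
    · refine pos_main (s := 3 / 2 * p.L) (by omega) (by linarith)
        ?_ ?_ <;> dsimp only <;> rw [t5, r10] <;> simp only [tp, mm, dz, h0, c0] <;>
        push_cast <;> ring
    · refine pos_main (s := 1 / 2 * p.L) (by omega) (by linarith)
        ?_ ?_ <;> dsimp only <;> rw [t14, r10] <;> simp only [tp, mm, dz, h1, c1] <;>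
        push_cast <;> ring
    · refine pos_main (s := 1 / 2 * p.L - p.dd k) (by omega) (by linarith)
        ?_ ?_ <;> dsimp only <;> rw [t25, r21] <;> simp only [tp, mm, dz, h2, c2] <;>
        push_cast <;> ring
    · refine pos_main (s := 3 / 2 * p.L - p.dd k) (by omega) (by linarith)
        ?_ ?_ <;> dsimp only <;> rw [t38, r21] <;> simp only [tp, mm, dz, h3, o3, c3, hd] <;>
        push_cast <;> ring
    · refine pos_slant hc (by omega) (by omega) (by omega) rp ?_
      rw [r54, r10]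
      simp only [mm, pt, dz, dv]
      push_cast
      ring
    · refine pos_slant (s := 1 - 2 * p.rho k) hc (by omega) (by omega) (by omega) (by linarith) ?_
      rw [r65, r21]
      simp only [mm, pt, dz, dv]
      push_cast
      ring
    · refine pos_slant hc (by omega) (by omega) (by omega) rp ?_
      rw [r54, r65]
      simp only [mm, pt, dz, dv]
      push_cast
      ring
    · refine pos_main (s := 2 * p.L - p.X (8 * k + 4)) (by omega)
        (by linarith [hX (8 * k + 4), hXl (8 * k + 4)])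
        ?_ ?_ <;> dsimp only <;> rw [t48, t71] <;> simp only [tp, dz, o6, h4, h6, c4, c6] <;>
        push_cast <;> ring
    · refine pos_main (s := 2 * p.L - p.X (8 * k + 5)) (by omega)
        (by linarith [hX (8 * k + 5), hXl (8 * k + 5)])
        ?_ ?_ <;> dsimp only <;> rw [t59, t80] <;> simp only [tp, dz, o7, h5, h7, c5, c7] <;>
        push_cast <;> ring
    · refine pos_main (s := 3 / 2 * p.L) (by omega) (by linarith)
        ?_ ?_ <;> dsimp only <;> rw [t49, r32] <;> simp only [tp, mm, dz, h4, c4] <;>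
        push_cast <;> ring
    · refine pos_main (s := 1 / 2 * p.L) (by omega) (by linarith)
        ?_ ?_ <;> dsimp only <;> rw [t58, r32] <;> simp only [tp, mm, dz, h5, c5] <;>
        push_cast <;> ring
    · refine pos_main (s := 1 / 2 * p.L - (2 * p.X (8 * k + 5) + 2 * p.X (8 * k + 4)))
        (by omega) (by linarith)
        ?_ ?_ <;> dsimp only <;> rw [t69, r43] <;> simp only [tp, mm, dz, h6, c6] <;>
        push_cast <;> ring
    · refine pos_main (s := 3 / 2 * p.L - (2 * p.X (8 * k + 5) + 2 * p.X (8 * k + 4)))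
        (by omega) (by linarith)
        ?_ ?_ <;> dsimp only <;> rw [t82, r43] <;> simp only [tp, mm, dz, h7, o7, c7] <;>
        push_cast <;> ring
    · refine pos_slant hc (by omega) (by omega) (by omega) rp ?_
      rw [r76, r32]
      simp only [mm, pt, dz, dv]
      push_cast
      ring
    · refine pos_slant (s := p.X (8 * k + 4) / p.X (8 * k) - 2 * p.rho k) hc (by omega) (by omega)
        (by omega) (by linarith) ?_
      rw [r87, r43]
      have g1 : p.mm k 3 = (p.L * (8 * k) + 11 / 2 * p.L +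
          p.X (8 * k + 4) / p.X (8 * k) * p.dd k,
          p.tt k + p.X (8 * k + 4) / p.X (8 * k) * (-2 * p.X (8 * k))) := by
        refine Prod.ext ?_ ?_
        · simp only [mm]
          rw [se1]
        · simp only [mm]
          rw [← se2]
          ring
      rw [g1]
      simp only [mm, pt, dz, dv]
      push_cast
      ring
    · refine pos_slant hc (by omega) (by omega) (by omega) rp ?_
      rw [r76, r87]
      simp only [mm, pt, dz, dv]
      push_cast
      ring
    · have hx0 := hX (8 * k)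
      refine pos_slant (s := 2 * p.L / p.X (8 * k)) hc (by omega) (by omega) (by omega)
        (by positivity) ?_
      rw [r54, r76]
      have hne : (p.X (8 * k) : ℂ) ≠ 0 := by exact_mod_cast hx0.ne'
      simp only [mm, pt, dz, dv, tt, dd]
      push_cast
      field_simp
      linear_combination (8 * p.L * p.X (8 * k)) * om_sq
    · have hx0 := hX (8 * k)
      refine pos_slant (s := 2 * p.L / p.X (8 * k)) hc (by omega) (by omega) (by omega)
        (by positivity) ?_
      rw [r65, r87]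
      have hne : (p.X (8 * k) : ℂ) ≠ 0 := by exact_mod_cast hx0.ne'
      simp only [mm, pt, dz, dv, tt, dd]
      push_cast
      field_simp
      linear_combination (8 * p.L * p.X (8 * k)) * om_sq

theorem frame_items : ∀ e ∈ items p.S, e.2.2.2 = true → p.fU e.2.2.1 = p.fU e.1 := by
  intro e he hm
  rcases mem_items.1 he with ⟨f, hf, e₀, he₀, rfl⟩ | ⟨f, hf, he⟩ | ⟨l, f, f', h1, h2, h3, _, he⟩ |
    ⟨k, c, hc, e₀, he₀, rfl⟩
  · obtain ⟨o1, o2, o3, o4, o5⟩ := loc_ok e₀ he₀
    simp only [sh]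
    rw [fU_T (by omega), fU_T (by omega)]
  · simp only [al, List.mem_cons, List.not_mem_nil, or_false] at he
    rcases he with rfl | rfl <;> dsimp only <;> rw [fU_T (by omega), fU_T (by omega)]
  · simp only [eqI, List.mem_cons, List.not_mem_nil, or_false] at he
    rcases he with rfl | rfl <;> dsimp only <;> rw [fU_T (by omega), fU_T (by omega)]
  · have key : e₀.2.2.2 = true → (e₀.1 % 11 < 10 ∧ e₀.2.2.1 % 11 < 10) ∨
        ((∃ i j l, c = Con.mul i j l) ∧ (e₀.1 % 11 = 10 ∧ 44 ≤ e₀.1 ∧ e₀.1 < 88) ∧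
        (e₀.2.2.1 % 11 = 10 ∧ 44 ≤ e₀.2.2.1 ∧ e₀.2.2.1 < 88)) := by
      intro hm'
      cases c with
      | one i =>
        left
        have : ∀ e ∈ gad (Con.one i), e.1 % 11 < 10 ∧ e.2.2.1 % 11 < 10 := by
          simp only [gad]; decide
        exact this _ he₀
      | add i j l =>
        left
        have : ∀ e ∈ gad (Con.add i j l), e.1 % 11 < 10 ∧ e.2.2.1 % 11 < 10 := by
          simp only [gad]; decide
        exact this _ he₀
      | mul i j l =>
        have : ∀ e ∈ gad (Con.mul i j l), e.2.2.2 = true →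
            (e.1 % 11 < 10 ∧ e.2.2.1 % 11 < 10) ∨ ((e.1 % 11 = 10 ∧ 44 ≤ e.1 ∧ e.1 < 88) ∧
            (e.2.2.1 % 11 = 10 ∧ 44 ≤ e.2.2.1 ∧ e.2.2.1 < 88)) := by
          simp only [gad]; decide
        rcases this _ he₀ hm' with h | h
        · exact Or.inl h
        · exact Or.inr ⟨⟨i, j, l, rfl⟩, h⟩
    simp only [sh]
    rcases key hm with ⟨h1, h2⟩ | ⟨⟨i, j, l, rfl⟩, ⟨h1, h2, h3⟩, h4, h5, h6⟩
    · rw [fU_T (by omega), fU_T (by omega)]
    · rw [fU_R hc (by omega) (by omega) (by omega), fU_R hc (by omega) (by omega) (by omega)]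

theorem mere_items : ∀ e ∈ items p.S, ∀ e' ∈ items p.S, e.2.2.2 = false → e'.2.2.2 = false →
    e.2.2.1 = e'.2.2.1 → edgeOf e ≠ edgeOf e' →
    Cd (lat (p.fU e.1) (p.fU e.1 * om) (dz e.2.1))
      (lat (p.fU e'.1) (p.fU e'.1 * om) (dz e'.2.1)) := by
  -- rays come from multiplication gadgets
  have hray : ∀ e ∈ items p.S, e.2.2.2 = false → ∃ k i j l, p.S[k]? = some (Con.mul i j l) ∧
      ∃ e₀ ∈ gad (Con.mul i j l), e₀.2.2.2 = false ∧ e = sh (88 * k) e₀ := by
    intro e he hm
    rcases mem_items.1 he with ⟨f, hf, e₀, he₀, rfl⟩ | ⟨f, hf, he⟩ |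
      ⟨l, f, f', h1, h2, h3, _, he⟩ | ⟨k, c, hc, e₀, he₀, rfl⟩
    · have := (loc_ok e₀ he₀).2.2.2.1
      simp only [sh] at hm
      rw [this] at hm
      simp at hm
    · simp only [al, List.mem_cons, List.not_mem_nil, or_false] at he
      rcases he with rfl | rfl <;> simp at hm
    · simp only [eqI, List.mem_cons, List.not_mem_nil, or_false] at he
      rcases he with rfl | rfl <;> simp at hm
    · cases c with
      | one i =>
        have : ∀ e ∈ gad (Con.one i), e.2.2.2 = true := by simp only [gad]; decide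
        simp only [sh] at hm
        rw [this _ he₀] at hm
        simp at hm
      | add i j l =>
        have : ∀ e ∈ gad (Con.add i j l), e.2.2.2 = true := by simp only [gad]; decide
        simp only [sh] at hm
        rw [this _ he₀] at hm
        simp at hm
      | mul i j l => exact ⟨k, i, j, l, hc, e₀, he₀, hm, rfl⟩
  intro e he e' he' hm hm' ht hne
  obtain ⟨k, i, j, l, hc, e₀, h₀, hm₀, rfl⟩ := hray e he hm
  obtain ⟨k', i', j', l', hc', e₀', h₀', hm₀', rfl⟩ := hray e' he' hm'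
  have b1 := (gad_ok _ e₀ h₀).2.2.1
  have b2 := (gad_ok _ e₀' h₀').2.2.1
  simp only [sh] at ht
  have hk : k = k' := by omega
  subst hk
  have ht' : e₀.2.2.1 = e₀'.2.2.1 := by omega
  clear he he' hm hm' ht b1 b2
  -- the list of rays
  have hlist : ∀ a b c : ℕ, ∀ e ∈ gad (Con.mul a b c), e.2.2.2 = false →
      e ∈ ([(5, 0, 10, false), (14, 5, 10, false), (54, 3, 10, false), (25, 3, 21, false),
        (38, 2, 21, false), (65, 0, 21, false), (49, 0, 32, false), (58, 5, 32, false),
        (76, 3, 32, false), (69, 3, 43, false), (82, 2, 43, false), (87, 0, 43, false)] :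
        List Item) := by
    intro a b c
    simp only [gad]
    decide
  have l1 := hlist _ _ _ _ h₀ hm₀
  have l2 := hlist _ _ _ _ h₀' hm₀'
  -- the vectors
  set ψ : ℂ := p.dv k / ‖p.dv k‖ with hψ
  have vT : ∀ a κ, a % 11 < 10 → lat (p.fU (88 * k + a)) (p.fU (88 * k + a) * om) (dz κ) =
      lat 1 (1 * om) (dz κ) := by
    intro a κ ha
    rw [fU_T (by omega)]
  have vR : ∀ a κ, a < 88 → a % 11 = 10 → 44 ≤ a →
      lat (p.fU (88 * k + a)) (p.fU (88 * k + a) * om) (dz κ) = lat ψ (ψ * om) (dz κ) := by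
    intro a κ h1 h2 h3
    rw [fU_R hc (by omega) (by omega) (by omega)]
  -- inner products with the slanted direction
  have hn := p.norm_pos' k
  have x0 := p.X_pos (8 * k)
  have x1 := p.X_pos (8 * k + 1)
  have h3 : √3 * √3 = 3 := Real.mul_self_sqrt (by norm_num)
  have i0 : 0 ≤ ip 1 ψ := by
    have : ip 1 ψ = (2 * p.X (8 * k + 1) + p.X (8 * k)) / ‖p.dv k‖ := by
      rw [hψ]
      unfold ip
      rw [Complex.div_ofReal_re, Complex.div_ofReal_im]
      simp only [dv, pt, dd, Complex.add_re, Complex.ofReal_re, Complex.mul_re, Complex.ofReal_im,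
        om_re, Complex.one_re, Complex.one_im]
      ring
    rw [this]
    positivity
  have i5 : 0 ≤ ip (1 - om) ψ := by
    have : ip (1 - om) ψ = (p.X (8 * k + 1) + 2 * p.X (8 * k)) / ‖p.dv k‖ := by
      rw [hψ]
      unfold ip
      rw [Complex.div_ofReal_re, Complex.div_ofReal_im]
      generalize ‖p.dv k‖ = n
      simp only [dv, pt, dd, Complex.add_re, Complex.ofReal_re, Complex.mul_re, Complex.ofReal_im,
        om_re, om_im, Complex.one_re, Complex.one_im, Complex.sub_re, Complex.sub_im,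
        Complex.add_im, Complex.mul_im]
      linear_combination (1 / 2 * p.X (8 * k) / n) * h3
    rw [this]
    positivity
  have f1 : Fr 1 (1 * om) := fr_om one_ne_zero
  have q0 : lat 1 (1 * om) (dz 0) = 1 := by simp [lat, dz]
  have q5 : lat 1 (1 * om) (dz 5) = 1 - om := by simp [lat, dz]; ring
  have q3 : lat 1 (1 * om) (dz 3) = -1 := by simp [lat, dz]
  have q2 : lat 1 (1 * om) (dz 2) = -(1 - om) := by simp [lat, dz]; ring
  have q6 : lat ψ (ψ * om) (dz 0) = ψ := by simp [lat, dz]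
  have q7 : lat ψ (ψ * om) (dz 3) = -ψ := by simp [lat, dz]
  have ipn1 : ∀ z w : ℂ, ip z (-w) = -ip z w := by intro z w; unfold ip; simp; ring
  have ipn2 : ∀ z w : ℂ, ip (-z) w = -ip z w := by intro z w; unfold ip; simp; ring
  have C05 : Cd (lat 1 (1 * om) (dz 0)) (lat 1 (1 * om) (dz 5)) :=
    cd_dz f1 (by norm_num) (by norm_num) (by norm_num)
  have C32 : Cd (lat 1 (1 * om) (dz 3)) (lat 1 (1 * om) (dz 2)) :=
    cd_dz f1 (by norm_num) (by norm_num) (by norm_num)
  have C0 : Cd (lat 1 (1 * om) (dz 0)) (lat ψ (ψ * om) (dz 3)) := by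
    rw [q0, q7]
    exact cd_of_ip_nonpos (by rw [ipn1]; linarith)
  have C5 : Cd (lat 1 (1 * om) (dz 5)) (lat ψ (ψ * om) (dz 3)) := by
    rw [q5, q7]
    exact cd_of_ip_nonpos (by rw [ipn1]; linarith)
  have C3 : Cd (lat 1 (1 * om) (dz 3)) (lat ψ (ψ * om) (dz 0)) := by
    rw [q3, q6]
    exact cd_of_ip_nonpos (by rw [ipn2]; linarith)
  have C2 : Cd (lat 1 (1 * om) (dz 2)) (lat ψ (ψ * om) (dz 0)) := by
    rw [q2, q6]
    exact cd_of_ip_nonpos (by rw [ipn2]; linarith)
  have v5 := vT 5 0 (by norm_num)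
  have v14 := vT 14 5 (by norm_num)
  have v25 := vT 25 3 (by norm_num)
  have v38 := vT 38 2 (by norm_num)
  have v49 := vT 49 0 (by norm_num)
  have v58 := vT 58 5 (by norm_num)
  have v69 := vT 69 3 (by norm_num)
  have v82 := vT 82 2 (by norm_num)
  have v54 := vR 54 3 (by norm_num) (by norm_num) (by norm_num)
  have v65 := vR 65 0 (by norm_num) (by norm_num) (by norm_num)
  have v76 := vR 76 3 (by norm_num) (by norm_num) (by norm_num)
  have v87 := vR 87 0 (by norm_num) (by norm_num) (by norm_num)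
  simp only [List.mem_cons, List.not_mem_nil, or_false] at l1 l2
  simp only [sh]
  clear h₀ h₀' hm₀ hm₀' hlist
  rcases l1 with rfl | rfl | rfl | rfl | rfl | rfl | rfl | rfl | rfl | rfl | rfl | rfl <;>
  rcases l2 with rfl | rfl | rfl | rfl | rfl | rfl | rfl | rfl | rfl | rfl | rfl | rfl <;>
  first
    | exact absurd ht' (by decide)
    | exact absurd rfl hne
    | (simp only [v5, v14, v25, v38, v49, v58, v69, v82, v54, v65, v76, v87]
       first
        | exact C05 | exact C32 | exact C0 | exact C5 | exact C3 | exact C2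
        | exact C05.symm | exact C32.symm | exact C0.symm | exact C5.symm | exact C3.symm
        | exact C2.symm)

theorem pos_all : Pos (88 * p.S.length) (items p.S) (fun v => pt (p.co v)) p.fU
    (fun v => p.fU v * om) := by
  refine ⟨fun v hv v' hv' h => co_inj hv hv' (pt_inj h), fU_norm, fun v => fr_om (p.fU_ne v), ?_,
    ?_, mere_items⟩
  · intro e he
    rcases mem_items.1 he with ⟨f, hf, e₀, he₀, rfl⟩ | ⟨f, hf, he⟩ |
      ⟨l, f, f', h1, h2, h3, _, he⟩ | ⟨k, c, hc, e₀, he₀, rfl⟩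
    · exact pos_loc hf e₀ he₀
    · exact pos_al e he
    · exact pos_eq h3 (p.lab l f f' h1 h2) e he
    · exact pos_gad hc e₀ he₀
  · intro e he hm
    have := frame_items e he hm
    exact ⟨this, by rw [this]⟩

end Par

/-- the value of a label -/
def vl (v : ℕ → ℝ) (l : ℕ) : ℝ := if l = 0 then 1 else v (l - 1)

/-- the widths of the slots -/
def Xw (v : ℕ → ℝ) (S : List Con) (f : ℕ) : ℝ := vl v ((labs S).getD f 0)

theorem Xw_get {v : ℕ → ℝ} {S : List Con} {f l : ℕ} (h : (labs S)[f]? = some l) :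
    Xw v S f = vl v l := by
  unfold Xw
  rw [List.getD_eq_getElem?_getD, h]
  rfl

/-- the heights of the slots -/
def Hw (X : ℕ → ℝ) (S : List Con) (L : ℝ) (f : ℕ) : ℝ :=
  match S[f / 8]? with
  | some (Con.add _ _ _) => if f % 8 = 1 then X (f - 1) else 0
  | some (Con.mul _ _ _) => match f % 8 with
    | 0 => -X (8 * (f / 8))
    | 1 => L / 2
    | 2 => -2 * X (8 * (f / 8))
    | 3 => X (8 * (f / 8) + 1) - 3 / 2 * L
    | 4 => 4 * L * X (8 * (f / 8) + 1) / X (8 * (f / 8)) - X (8 * (f / 8) + 4)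
    | 5 => 4 * L * X (8 * (f / 8) + 1) / X (8 * (f / 8)) + L / 2
    | 6 => 4 * L * X (8 * (f / 8) + 1) / X (8 * (f / 8)) - 2 * X (8 * (f / 8) + 4)
    | _ => 4 * L * X (8 * (f / 8) + 1) / X (8 * (f / 8)) + X (8 * (f / 8) + 5) - 3 / 2 * L
  | _ => 0

theorem exists_par {S : List Con} {v : ℕ → ℝ} (hv : ∀ i, 0 < v i) (hS : SysHolds v S) :
    ∃ p : Par, p.S = S := by
  have hvl : ∀ l, 0 < vl v l := by
    intro l
    unfold vl
    split_ifs
    · exact one_pos
    · exact hv _
  have hXpos : ∀ f, 0 < Xw v S f := fun f => hvl _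
  obtain ⟨L, hL⟩ : ∃ L : ℝ, ∀ f, 8 * Xw v S f < L := by
    refine ⟨8 * (∑ f ∈ Finset.range (8 * S.length), Xw v S f) + 9, fun f => ?_⟩
    by_cases hf : f < 8 * S.length
    · have := Finset.single_le_sum (f := Xw v S) (fun i _ => (hXpos i).le)
        (Finset.mem_range.2 hf)
      linarith
    · have h1 : Xw v S f = 1 := by
        unfold Xw
        rw [List.getD_eq_default _ _ (by rw [labs_length]; omega)]
        rfl
      have h2 : 0 ≤ ∑ f ∈ Finset.range (8 * S.length), Xw v S f :=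
        Finset.sum_nonneg fun i _ => (hXpos i).le
      rw [h1]
      linarith
  set X := Xw v S with hX
  set H := Hw X S L with hH
  obtain ⟨K, hK⟩ : ∃ K : ℝ, ∀ f < 8 * S.length, |H f| + X f < K := by
    refine ⟨(∑ f ∈ Finset.range (8 * S.length), (|H f| + X f)) + 1, fun f hf => ?_⟩
    have := Finset.single_le_sum (f := fun f => |H f| + X f)
      (fun i _ => add_nonneg (abs_nonneg _) (hXpos i).le) (Finset.mem_range.2 hf)
    linarith
  have hget : ∀ k c r l, S[k]? = some c → r < 8 → (slots c)[r]? = some l →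
      X (8 * k + r) = vl v l := by
    intro k c r l hc hr hl
    exact Xw_get (by rw [labs_get S k c r hc hr, hl])
  have hdiv : ∀ k r, r < 8 → (8 * k + r) / 8 = k ∧ (8 * k + r) % 8 = r := by
    intro k r hr
    omega
  refine ⟨⟨S, X, H, L, K, hXpos, hL, hK, ?_, ?_, ?_, ?_⟩, rfl⟩
  · intro l f f' h1 h2
    rw [hX, Xw_get h1, Xw_get h2]
  · intro k i hc
    have x0 := hget k _ 0 (i + 1) hc (by norm_num) rfl
    have x1 := hget k _ 1 0 hc (by norm_num) rfl
    have hi := hS _ (List.mem_iff_getElem?.2 ⟨k, hc⟩)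
    simp only [Con.Holds] at hi
    rw [add_zero] at x0
    have d0 := hdiv k 0 (by norm_num)
    have d1 := hdiv k 1 (by norm_num)
    rw [add_zero] at d0
    refine ⟨?_, ?_, ?_⟩
    · rw [x0, x1]
      simp [vl, hi]
    · rw [hH]
      unfold Hw
      rw [d0.1, hc]
    · rw [hH]
      unfold Hw
      rw [d1.1, hc]
  · intro k i j l hc
    have x0 := hget k _ 0 (i + 1) hc (by norm_num) rfl
    have x1 := hget k _ 1 (j + 1) hc (by norm_num) rfl
    have x2 := hget k _ 2 (l + 1) hc (by norm_num) rfl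
    have hi := hS _ (List.mem_iff_getElem?.2 ⟨k, hc⟩)
    simp only [Con.Holds] at hi
    rw [add_zero] at x0
    have d0 := hdiv k 0 (by norm_num)
    have d1 := hdiv k 1 (by norm_num)
    have d2 := hdiv k 2 (by norm_num)
    rw [add_zero] at d0
    refine ⟨?_, ?_, ?_, ?_⟩
    · rw [x0, x1, x2]
      simp [vl, hi]
    · rw [hH]
      unfold Hw
      rw [d0.1, hc, d0.2]
      simp
    · rw [hH]
      unfold Hw
      rw [d1.1, hc, d1.2]
      simp
    · rw [hH]
      unfold Hw
      rw [d2.1, hc, d2.2]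
      simp
  · intro k i j l hc
    have x0 := hget k _ 0 (i + 1) hc (by norm_num) rfl
    have x1 := hget k _ 1 0 hc (by norm_num) rfl
    have x2 := hget k _ 2 (i + 1) hc (by norm_num) rfl
    have x3 := hget k _ 3 0 hc (by norm_num) rfl
    have x4 := hget k _ 4 (l + 1) hc (by norm_num) rfl
    have x5 := hget k _ 5 (j + 1) hc (by norm_num) rfl
    have x6 := hget k _ 6 (l + 1) hc (by norm_num) rfl
    have x7 := hget k _ 7 (j + 1) hc (by norm_num) rfl
    have hi := hS _ (List.mem_iff_getElem?.2 ⟨k, hc⟩)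
    simp only [Con.Holds] at hi
    rw [add_zero] at x0
    have hw : ∀ r < 8, H (8 * k + r) = match r with
        | 0 => -X (8 * k)
        | 1 => L / 2
        | 2 => -2 * X (8 * k)
        | 3 => X (8 * k + 1) - 3 / 2 * L
        | 4 => 4 * L * X (8 * k + 1) / X (8 * k) - X (8 * k + 4)
        | 5 => 4 * L * X (8 * k + 1) / X (8 * k) + L / 2
        | 6 => 4 * L * X (8 * k + 1) / X (8 * k) - 2 * X (8 * k + 4)
        | _ => 4 * L * X (8 * k + 1) / X (8 * k) + X (8 * k + 5) - 3 / 2 * L := by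
      intro r hr
      obtain ⟨d1, d2⟩ := hdiv k r hr
      rw [hH]
      unfold Hw
      rw [d1, hc, d2]
    refine ⟨?_, ?_, ?_, ?_, ?_, hw 0 (by norm_num), hw 1 (by norm_num), hw 2 (by norm_num),
      hw 3 (by norm_num), hw 4 (by norm_num), hw 5 (by norm_num), hw 6 (by norm_num),
      hw 7 (by norm_num)⟩
    · rw [x0, x1, x4, x5]
      simp [vl]
      rw [← hi]
      ring
    · rw [x0, x2]
    · rw [x1, x3]
    · rw [x4, x6]
    · rw [x5, x7]

/-- A positive solution of the system gives a drawing of its graph. -/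
theorem good_of_pos {S : List Con} {v : ℕ → ℝ} (hv : ∀ i, 0 < v i) (hS : SysHolds v S) :
    ∃ z : ℕ → ℂ, Good (netE (stars S) (items S)) (13 * (88 * S.length)) z := by
  obtain ⟨p, rfl⟩ := exists_par hv hS
  exact net_draw (wf_items p.S) (uniq_items p.S) Par.pos_all

end

end Pool.Agent.NPC.ER.AR
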