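import Mathlib

/-!
# Straight-line drawings with large angular resolution
-/

namespace Pool.Agent.NPC.ER.AR

open EuclideanGeometry

/-- The Euclidean plane. -/
abbrev Plane : Type := EuclideanSpace ℝ (Fin 2)

/-- A code of a finite graph: the number of vertices and a list of edges. -/
abbrev GCode : Type := ℕ × List (ℕ × ℕ)

/-- The finite simple graph coded by `(n, E)`: its vertices are `0, …, n - 1`, and two distinct
vertices are adjacent if and only if they form (in one of the two orders) a member of `E`. -/
def graphOf (G : GCode) : SimpleGraph (Fin G.1) where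
  Adj u v := u ≠ v ∧ (((u : ℕ), (v : ℕ)) ∈ G.2 ∨ ((v : ℕ), (u : ℕ)) ∈ G.2)
  symm := ⟨fun _ _ h => ⟨h.1.symm, h.2.symm⟩⟩
  loopless := ⟨fun _ h => h.1 rfl⟩

/-- The angular resolution of a straight-line drawing `p` of the graph `G`: the infimum of the
angles formed at a common endpoint by two edges incident to the same vertex; it is `⊤` if no vertex
has two incident edges. -/
noncomputable def angRes {V : Type*} (G : SimpleGraph V) (p : V → Plane) : EReal :=
  ⨅ (v : V) (u : V) (w : V) (_ : G.Adj v u) (_ : G.Adj v w) (_ : u ≠ w),
    ((∠ (p u) (p v) (p w) : ℝ) : EReal)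

/-- The graph `G` has a straight-line drawing (the vertices are placed at distinct points) whose
angular resolution is at least `α`. -/
def HasDrawing {V : Type*} (α : ℝ) (G : SimpleGraph V) : Prop :=
  ∃ p : V → Plane, Function.Injective p ∧ (α : EReal) ≤ angRes G p

/-- The decision problem `AR(α)`. -/
def AR (α : ℝ) (G : GCode) : Prop := HasDrawing α (graphOf G)

end Pool.Agent.NPC.ER.AR
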