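import Pool.Agent.H606R2.AR.Star
import Pool.Agent.H606R2.AR.Defs

/-!
# Drawings in the plane and in the complex numbers
-/

namespace Pool.Agent.NPC.ER.AR

open Real

/-- A point of the plane as a complex number. -/
def toC (x : Plane) : ℂ := ⟨x 0, x 1⟩

theorem toC_sub (x y : Plane) : toC (x - y) = toC x - toC y := rfl

theorem ip_toC (x y : Plane) : ip (toC x) (toC y) = inner ℝ x y := by
  unfold ip toC
  rw [PiLp.inner_apply, Fin.sum_univ_two]
  simp
  ring

theorem norm_toC (x : Plane) : ‖toC x‖ = ‖x‖ := by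
  have h1 := norm_sq_eq (toC x)
  rw [ip_toC, real_inner_self_eq_norm_sq] at h1
  exact (pow_left_inj₀ (norm_nonneg _) (norm_nonneg _) two_ne_zero).1 h1

theorem angle_iff (x y : Plane) :
    π / 3 ≤ InnerProductGeometry.angle x y ↔ Cd (toC x) (toC y) := by
  unfold Cd
  rw [ip_toC, norm_toC, norm_toC]
  by_cases hx : x = 0
  · subst hx
    simp
    linarith [pi_pos]
  by_cases hy : y = 0
  · subst hy
    simp
    linarith [pi_pos]
  have hp : 0 < ‖x‖ * ‖y‖ := mul_pos (norm_pos_iff.2 hx) (norm_pos_iff.2 hy)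
  have h0 := InnerProductGeometry.angle_nonneg x y
  have h1 := InnerProductGeometry.angle_le_pi x y
  have h2 := strictAntiOn_cos.le_iff_ge (a := InnerProductGeometry.angle x y) (b := π / 3)
    ⟨h0, h1⟩ ⟨by positivity, by linarith [pi_pos]⟩
  rw [← h2, InnerProductGeometry.cos_angle, cos_pi_div_three, div_le_iff₀ hp]
  constructor <;> intro h <;> linarith

/-- The edges of the coded graph. -/
def clean (G : GCode) : List (ℕ × ℕ) := G.2.filter fun e => e.1 < G.1 ∧ e.2 < G.1 ∧ e.1 ≠ e.2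

theorem mem_clean {G : GCode} {e : ℕ × ℕ} :
    e ∈ clean G ↔ e ∈ G.2 ∧ e.1 < G.1 ∧ e.2 < G.1 ∧ e.1 ≠ e.2 := by
  unfold clean
  rw [List.mem_filter]
  simp

theorem adj_clean {G : GCode} {u v : ℕ} : AdjE (clean G) u v ↔
    ∃ (hu : u < G.1) (hv : v < G.1), (graphOf G).Adj ⟨u, hu⟩ ⟨v, hv⟩ := by
  unfold AdjE
  rw [mem_clean, mem_clean]
  simp only [graphOf]
  constructor
  · rintro (⟨h1, h2, h3, h4⟩ | ⟨h1, h2, h3, h4⟩)
    · exact ⟨h2, h3, by simpa [Fin.ext_iff] using h4, Or.inl h1⟩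
    · exact ⟨h3, h2, by simpa [Fin.ext_iff, eq_comm] using h4, Or.inr h1⟩
  · rintro ⟨hu, hv, h1, h2 | h2⟩
    · exact Or.inl ⟨h2, hu, hv, by simpa [Fin.ext_iff] using h1⟩
    · exact Or.inr ⟨h2, hv, hu, by simpa [Fin.ext_iff, eq_comm] using h1⟩

theorem le_angRes {V : Type*} {α : ℝ} {G : SimpleGraph V} {p : V → Plane} :
    (α : EReal) ≤ angRes G p ↔ ∀ v u w, G.Adj v u → G.Adj v w → u ≠ w →
      α ≤ EuclideanGeometry.angle (p u) (p v) (p w) := by
  unfold angRes
  simp only [le_iInf_iff, EReal.coe_le_coe_iff]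

theorem ar_iff (G : GCode) : AR (π / 3) G ↔ ∃ z, Good (clean G) G.1 z := by
  unfold AR HasDrawing
  simp only [le_angRes]
  constructor
  · rintro ⟨p, hp, h⟩
    classical
    set z : ℕ → ℂ := fun v => if hv : v < G.1 then toC (p ⟨v, hv⟩) else 0 with hz
    have hzv : ∀ v (hv : v < G.1), z v = toC (p ⟨v, hv⟩) := fun v hv => by
      simp only [hz]
      rw [dif_pos hv]
    refine ⟨z, ?_, ?_⟩
    · intro u hu v hv huv
      rw [hzv u hu, hzv v hv] at huv
      have h1 : p ⟨u, hu⟩ - p ⟨v, hv⟩ = 0 := by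
        rw [← norm_eq_zero, ← norm_toC, toC_sub, huv, sub_self, norm_zero]
      have h2 := hp (sub_eq_zero.1 h1)
      exact Fin.mk.inj_iff.1 h2
    · intro v u w hvu hvw huw
      obtain ⟨hv, hu, h1⟩ := adj_clean.1 hvu
      obtain ⟨_, hw, h2⟩ := adj_clean.1 hvw
      have h3 := h ⟨v, hv⟩ ⟨u, hu⟩ ⟨w, hw⟩ h1 h2 (by simpa [Fin.ext_iff] using huw)
      unfold EuclideanGeometry.angle at h3
      rw [angle_iff] at h3
      rw [hzv v hv, hzv u hu, hzv w hw]
      exact h3
  · rintro ⟨z, hz⟩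
    refine ⟨fun v => !₂[(z v).re, (z v).im], ?_, ?_⟩
    · intro u v huv
      have h0 := congrFun (congrArg (fun x : Plane => x.ofLp) huv) 0
      have h1 := congrFun (congrArg (fun x : Plane => x.ofLp) huv) 1
      simp at h0 h1
      have := hz.inj u u.2 v v.2 (Complex.ext h0 h1)
      exact Fin.ext this
    · intro v u w h1 h2 h3
      have h4 := hz.ang v u w (adj_clean.2 ⟨v.2, u.2, h1⟩) (adj_clean.2 ⟨v.2, w.2, h2⟩)
        (by simpa [Fin.ext_iff] using h3)
      unfold EuclideanGeometry.angle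
      rw [angle_iff]
      have e : ∀ a c : Fin G.1, toC (!₂[(z a).re, (z a).im] -ᵥ !₂[(z c).re, (z c).im]) =
          z a - z c := by
        intro a c
        apply Complex.ext <;> simp [toC]
      dsimp only
      rw [e, e]
      exact h4

end Pool.Agent.NPC.ER.AR
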