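import Mathlib

/-!
# Geometry of angles of at least sixty degrees
-/

namespace Pool.Agent.NPC.ER.AR

/-- The real inner product of two complex numbers. -/
def ip (z w : ℂ) : ℝ := z.re * w.re + z.im * w.im

/-- The cross product of two complex numbers. -/
def cr (z w : ℂ) : ℝ := z.re * w.im - z.im * w.re

/-- The angle between `z` and `w` is at least sixty degrees. -/
def Cd (z w : ℂ) : Prop := 2 * ip z w ≤ ‖z‖ * ‖w‖

theorem Cd.symm {z w : ℂ} (h : Cd z w) : Cd w z := by
  unfold Cd ip at *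
  linarith [mul_comm ‖z‖ ‖w‖, mul_comm z.re w.re, mul_comm z.im w.im]

theorem norm_sq_eq (z : ℂ) : ‖z‖ ^ 2 = ip z z := by
  rw [Complex.sq_norm, Complex.normSq_apply]
  rfl

theorem cd_of_ip_nonpos {z w : ℂ} (h : ip z w ≤ 0) : Cd z w := by
  unfold Cd
  have := mul_nonneg (norm_nonneg z) (norm_nonneg w)
  linarith

/-- `(0, P, R)` is an equilateral triangle. -/
def Fr (P R : ℂ) : Prop :=
  P ≠ 0 ∧ ∃ e : ℝ, e ^ 2 = 3 / 4 ∧ R.re = P.re / 2 - e * P.im ∧ R.im = P.im / 2 + e * P.re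

theorem ip_self_pos {P : ℂ} (h : P ≠ 0) : 0 < ip P P := by
  rw [← norm_sq_eq]
  exact pow_pos (norm_pos_iff.2 h) 2

namespace Fr

variable {P R : ℂ}

theorem pp (h : Fr P R) : 0 < ip P P := ip_self_pos h.1

theorem rr (h : Fr P R) : ip R R = ip P P := by
  obtain ⟨_, e, he, h1, h2⟩ := h
  unfold ip
  rw [h1, h2]
  linear_combination (P.re ^ 2 + P.im ^ 2) * he

theorem pr (h : Fr P R) : ip P R = ip P P / 2 := by
  obtain ⟨_, e, he, h1, h2⟩ := h
  unfold ip
  rw [h1, h2]
  ring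

theorem crossne (h : Fr P R) : cr P R ≠ 0 := by
  have hp := h.pp
  obtain ⟨_, e, he, h1, h2⟩ := h
  have hc : cr P R = e * ip P P := by
    unfold cr ip
    rw [h1, h2]
    ring
  rw [hc]
  have he0 : e ≠ 0 := by
    rintro rfl
    norm_num at he
  exact mul_ne_zero he0 hp.ne'

/-- Independence. -/
theorem indep (h : Fr P R) {x y : ℝ} (hxy : (x : ℂ) * P + y * R = 0) : x = 0 ∧ y = 0 := by
  have hc := h.crossne
  have h1 := congrArg Complex.re hxy
  have h2 := congrArg Complex.im hxy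
  simp at h1 h2
  have hx : x * cr P R = 0 := by
    unfold cr
    linear_combination R.im * h1 - R.re * h2
  have hy : y * cr P R = 0 := by
    unfold cr
    linear_combination P.re * h2 - P.im * h1
  exact ⟨(mul_eq_zero.1 hx).resolve_right hc, (mul_eq_zero.1 hy).resolve_right hc⟩

theorem indep' (h : Fr P R) {x y x' y' : ℝ} (hxy : (x : ℂ) * P + y * R = x' * P + y' * R) :
    x = x' ∧ y = y' := by
  have := h.indep (x := x - x') (y := y - y') (by push_cast; linear_combination hxy)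
  exact ⟨by linarith [this.1], by linarith [this.2]⟩

/-- Coordinates. -/
theorem decomp (h : Fr P R) (z : ℂ) : ∃ x y : ℝ, z = x * P + y * R := by
  have hc := h.crossne
  refine ⟨cr z R / cr P R, cr P z / cr P R, ?_⟩
  apply Complex.ext
  · simp
    field_simp
    unfold cr
    ring
  · simp
    field_simp
    unfold cr
    ring

theorem two (h : Fr P R) {R' : ℂ} (h' : Fr P R') : R' = R ∨ R' = P - R := by
  obtain ⟨_, e, he, h1, h2⟩ := h
  obtain ⟨_, e', he', h1', h2'⟩ := h'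
  have : (e' - e) * (e' + e) = 0 := by linear_combination he' - he
  rcases mul_eq_zero.1 this with h3 | h3
  · left
    have h4 : e' = e := by linarith
    apply Complex.ext
    · rw [h1', h1, h4]
    · rw [h2', h2, h4]
  · right
    have h4 : e' = -e := by linarith
    apply Complex.ext
    · rw [Complex.sub_re, h1', h1, h4]; ring
    · rw [Complex.sub_im, h2', h2, h4]; ring

theorem rne (h : Fr P R) : R ≠ 0 := by
  intro h0
  have := h.rr
  rw [h0] at this
  have h2 := h.pp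
  simp [ip] at this
  simp [ip] at h2
  linarith

theorem rot (h : Fr P R) : Fr R (R - P) := by
  have hr := h.rne
  obtain ⟨h0, e, he, h1, h2⟩ := h
  refine ⟨hr, e, he, ?_, ?_⟩
  · rw [Complex.sub_re, h1, h2]
    linear_combination P.re * he
  · rw [Complex.sub_im, h1, h2]
    linear_combination P.im * he

theorem mirror (h : Fr P R) : Fr P (P - R) := by
  obtain ⟨h0, e, he, h1, h2⟩ := h
  refine ⟨h0, -e, by rw [neg_sq]; exact he, ?_, ?_⟩
  · rw [Complex.sub_re, h1]; ring
  · rw [Complex.sub_im, h2]; ring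

theorem swap (h : Fr P R) : Fr R P := by
  have := h.rot.mirror
  rwa [sub_sub_cancel] at this

theorem smul (h : Fr P R) {s : ℝ} (hs : s ≠ 0) : Fr (s * P) (s * R) := by
  obtain ⟨h0, e, he, h1, h2⟩ := h
  refine ⟨mul_ne_zero (by exact_mod_cast hs) h0, e, he, ?_, ?_⟩
  · simp [h1]; ring
  · simp [h2]; ring

end Fr

/-- An equilateral triangle. -/
theorem fr_of_triangle {z w : ℂ} (hz : z ≠ 0) (hw : w ≠ 0) (hzw : z ≠ w) (h1 : Cd z w)
    (h2 : Cd (0 - z) (w - z)) (h3 : Cd (0 - w) (z - w)) : Fr z w := by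
  unfold Cd at h1 h2 h3
  have ea : ‖(0 : ℂ) - z‖ = ‖z‖ := by simp
  have eb : ‖(0 : ℂ) - w‖ = ‖w‖ := by simp
  have ec : ‖w - z‖ = ‖z - w‖ := norm_sub_rev _ _
  rw [ea, ec] at h2
  rw [eb] at h3
  have ha := norm_sq_eq z
  have hb := norm_sq_eq w
  have hc := norm_sq_eq (z - w)
  have ha0 : 0 < ‖z‖ := norm_pos_iff.2 hz
  have hb0 : 0 < ‖w‖ := norm_pos_iff.2 hw
  have hc0 : 0 < ‖z - w‖ := norm_pos_iff.2 (sub_ne_zero.2 hzw)
  set a := ‖z‖
  set b := ‖w‖
  set c := ‖z - w‖
  have i2 : ip (0 - z) (w - z) = a ^ 2 - ip z w := by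
    rw [ha]
    unfold ip
    simp
    ring
  have i3 : ip (0 - w) (z - w) = b ^ 2 - ip z w := by
    rw [hb]
    unfold ip
    simp
    ring
  have i4 : c ^ 2 = a ^ 2 + b ^ 2 - 2 * ip z w := by
    rw [hc, ha, hb]
    unfold ip
    simp
    ring
  rw [i2] at h2
  rw [i3] at h3
  have hs : (a - b) ^ 2 + (b - c) ^ 2 + (a - c) ^ 2 ≤ 0 := by nlinarith
  have hab : a = b := by nlinarith [sq_nonneg (a - b), sq_nonneg (b - c), sq_nonneg (a - c)]
  have hbc : b = c := by nlinarith [sq_nonneg (a - b), sq_nonneg (b - c), sq_nonneg (a - c)]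
  have hi : ip z w = a ^ 2 / 2 := by
    rw [← hbc, ← hab] at i4
    linarith
  have hA : z.re * z.re + z.im * z.im = a ^ 2 := by rw [ha]; rfl
  have hB : w.re * w.re + w.im * w.im = a ^ 2 := by rw [hab, hb]; rfl
  have hI : z.re * w.re + z.im * w.im = a ^ 2 / 2 := hi
  have ha2 : a ^ 2 ≠ 0 := by positivity
  refine ⟨hz, cr z w / a ^ 2, ?_, ?_, ?_⟩
  · rw [div_pow, div_eq_iff (by positivity)]
    unfold cr
    have : (z.re * w.im - z.im * w.re) ^ 2 = (z.re * z.re + z.im * z.im) *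
        (w.re * w.re + w.im * w.im) - (z.re * w.re + z.im * w.im) ^ 2 := by ring
    rw [this, hA, hB, hI]
    ring
  · field_simp
    unfold cr
    linear_combination (2 * z.re) * hI - 2 * w.re * hA
  · field_simp
    unfold cr
    linear_combination (2 * z.im) * hI - 2 * w.im * hA

/-- The six directions of a frame. -/
def D (P R : ℂ) : ℕ → ℂ
  | 0 => P
  | 1 => R
  | 2 => R - P
  | 3 => -P
  | 4 => -R
  | _ => P - R

/-- The port lemma. -/
theorem port_lemma {P R z : ℂ} (h : Fr P R) (hz : z ≠ 0) (h1 : Cd z R) (h2 : Cd z (R - P))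
    (h3 : Cd z (-P)) (h4 : Cd z (-R)) (h5 : Cd z (P - R)) : ∃ t : ℝ, 0 < t ∧ z = t * P := by
  obtain ⟨x, y, rfl⟩ := h.decomp z
  have hp := h.pp
  have hrr := h.rr
  have hpr := h.pr
  have hP : ‖P‖ ^ 2 = ip P P := norm_sq_eq P
  have hR : ‖R‖ = ‖P‖ := by
    have := norm_sq_eq R
    rw [hrr, ← hP] at this
    exact (pow_left_inj₀ (norm_nonneg _) (norm_nonneg _) two_ne_zero).1 this
  have hRP : ‖R - P‖ = ‖P‖ := by
    have h1 := norm_sq_eq (R - P)
    have h2 : ip (R - P) (R - P) = ip P P := by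
      have : ip (R - P) (R - P) = ip R R - 2 * ip P R + ip P P := by
        unfold ip; simp; ring
      rw [this, hrr, hpr]; ring
    rw [h2, ← hP] at h1
    exact (pow_left_inj₀ (norm_nonneg _) (norm_nonneg _) two_ne_zero).1 h1
  have hPR : ‖P - R‖ = ‖P‖ := by rw [norm_sub_rev]; exact hRP
  unfold Cd at h1 h2 h3 h4 h5
  rw [hR] at h1
  rw [hRP] at h2
  rw [norm_neg] at h3
  rw [norm_neg, hR] at h4
  rw [hPR] at h5
  have i1 : ip (x * P + y * R) R = (x / 2 + y) * ip P P := by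
    have : ip (x * P + y * R) R = x * ip P R + y * ip R R := by
      unfold ip; simp; ring
    rw [this, hrr, hpr]; ring
  have i0 : ip (x * P + y * R) P = (x + y / 2) * ip P P := by
    have : ip (x * P + y * R) P = x * ip P P + y * ip P R := by
      unfold ip; simp; ring
    rw [this, hpr]; ring
  have i2 : ip (x * P + y * R) (R - P) = (y / 2 - x / 2) * ip P P := by
    have : ip (x * P + y * R) (R - P) = ip (x * P + y * R) R - ip (x * P + y * R) P := by
      unfold ip; simp; ring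
    rw [this, i0, i1]; ring
  have i3 : ip (x * P + y * R) (-P) = -(x + y / 2) * ip P P := by
    have : ip (x * P + y * R) (-P) = -ip (x * P + y * R) P := by
      unfold ip; simp; ring
    rw [this, i0]; ring
  have i4 : ip (x * P + y * R) (-R) = -(x / 2 + y) * ip P P := by
    have : ip (x * P + y * R) (-R) = -ip (x * P + y * R) R := by
      unfold ip; simp; ring
    rw [this, i1]; ring
  have i5 : ip (x * P + y * R) (P - R) = (x / 2 - y / 2) * ip P P := by
    have : ip (x * P + y * R) (P - R) = ip (x * P + y * R) P - ip (x * P + y * R) R := by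
      unfold ip; simp; ring
    rw [this, i0, i1]; ring
  have hn : ‖(x : ℂ) * P + y * R‖ ^ 2 = (x ^ 2 + x * y + y ^ 2) * ip P P := by
    rw [norm_sq_eq]
    have : ip (x * P + y * R) (x * P + y * R) = x * ip (x * P + y * R) P +
        y * ip (x * P + y * R) R := by
      unfold ip; simp; ring
    rw [this, i0, i1]; ring
  rw [i1] at h1
  rw [i2] at h2
  rw [i3] at h3
  rw [i4] at h4
  rw [i5] at h5
  have hn0 : 0 < ‖(x : ℂ) * P + y * R‖ := norm_pos_iff.2 hz
  have hP0 : 0 < ‖P‖ := norm_pos_iff.2 h.1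
  rw [← hP] at h1 h2 h3 h4 h5 hn
  obtain ⟨n, hn1, hn2⟩ : ∃ n : ℝ, 0 < n ∧ ‖(x : ℂ) * P + y * R‖ = n * ‖P‖ :=
    ⟨‖(x : ℂ) * P + y * R‖ / ‖P‖, div_pos hn0 hP0, by field_simp⟩
  rw [hn2] at h1 h2 h3 h4 h5 hn
  have hPP : 0 < ‖P‖ ^ 2 := by positivity
  have g1 : x + 2 * y ≤ n := by
    have : (x + 2 * y) * ‖P‖ ^ 2 ≤ n * ‖P‖ ^ 2 := by nlinarith
    exact le_of_mul_le_mul_right this hPP
  have g2 : y - x ≤ n := by
    have : (y - x) * ‖P‖ ^ 2 ≤ n * ‖P‖ ^ 2 := by nlinarith
    exact le_of_mul_le_mul_right this hPP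
  have g3 : -(2 * x + y) ≤ n := by
    have : -(2 * x + y) * ‖P‖ ^ 2 ≤ n * ‖P‖ ^ 2 := by nlinarith
    exact le_of_mul_le_mul_right this hPP
  have g4 : -(x + 2 * y) ≤ n := by
    have : -(x + 2 * y) * ‖P‖ ^ 2 ≤ n * ‖P‖ ^ 2 := by nlinarith
    exact le_of_mul_le_mul_right this hPP
  have g5 : x - y ≤ n := by
    have : (x - y) * ‖P‖ ^ 2 ≤ n * ‖P‖ ^ 2 := by nlinarith
    exact le_of_mul_le_mul_right this hPP
  have gn : n ^ 2 = x ^ 2 + x * y + y ^ 2 := by
    have : n ^ 2 * ‖P‖ ^ 2 = (x ^ 2 + x * y + y ^ 2) * ‖P‖ ^ 2 := by rw [← hn]; ring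
    exact mul_right_cancel₀ hPP.ne' this
  have k1 : y * (x + y) ≤ 0 := by nlinarith
  have k2 : 0 ≤ x * y := by nlinarith
  have hy : y = 0 := by nlinarith [sq_nonneg y]
  subst hy
  refine ⟨x, ?_, by simp⟩
  by_contra hx
  push Not at hx
  have : n = -x := by
    have : (n - (-x)) * (n + (-x)) = 0 := by linear_combination gn
    rcases mul_eq_zero.1 this with h | h
    · linarith
    · linarith
  linarith

end Pool.Agent.NPC.ER.AR
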