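import Pool.Agent.H606R2.AR.Net
import Pool.Agent.H606R2.Faith.Pos

/-!
# The network of a system of constraints
-/

namespace Pool.Agent.NPC.ER.AR

/-- The labels of the eight slots of a constraint: the label `0` stands for the unit, the label
`i + 1` for the variable `i`. -/
def slots : Con → List ℕ
  | Con.one i => [i + 1, 0, 0, 0, 0, 0, 0, 0]
  | Con.add i j l => [i + 1, j + 1, l + 1, 0, 0, 0, 0, 0]
  | Con.mul i j l => [i + 1, 0, i + 1, 0, l + 1, j + 1, l + 1, j + 1]

/-- The labels of all slots. -/
def labs (S : List Con) : List ℕ := S.flatMap slots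

/-- Shifting an item. -/
def sh (n : ℕ) (e : Item) : Item := (n + e.1, e.2.1, n + e.2.2.1, e.2.2.2)

/-- The items inside a slot. -/
def Loc : List Item :=
  [(0, 0, 1, true), (0, 1, 2, true), (1, 2, 2, true), (3, 0, 4, true), (3, 1, 5, true),
   (4, 2, 5, true), (6, 0, 7, true), (6, 1, 8, true), (7, 2, 8, true), (2, 1, 3, true),
   (1, 1, 4, true), (5, 1, 6, true), (4, 1, 7, true), (7, 1, 9, true)]

/-- The items aligning a slot and the next one. -/
def al (f : ℕ) : List Item :=
  [(11 * f + 7, 0, 11 * (f + 1) + 6, true), (11 * (f + 1) + 6, 2, 11 * f + 9, true)]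

/-- The items expressing the equality of two slots. -/
def eqI (f f' : ℕ) : List Item :=
  [(11 * f + 1, 0, 11 * f', true), (11 * f + 2, 0, 11 * f' + 2, true)]

/-- `q` is the next slot after `p` with the same label. -/
def Nxt (L : List ℕ) (p q : ℕ × ℕ) : Prop :=
  p.1 = q.1 ∧ p.2 < q.2 ∧ (L.zipIdx.filter fun r => r.1 = p.1 ∧ p.2 < r.2 ∧ r.2 < q.2).length = 0

instance (L : List ℕ) (p q : ℕ × ℕ) : Decidable (Nxt L p q) := by unfold Nxt; infer_instance

/-- The items expressing the equality of slots with the same label. -/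
def eqs (L : List ℕ) : List Item :=
  L.zipIdx.flatMap fun p => L.zipIdx.flatMap fun q => if Nxt L p q then eqI p.2 q.2 else []

/-- The items of the gadget of a constraint. -/
def gad : Con → List Item
  | Con.one _ => [(4, 0, 14, true), (5, 0, 16, true)]
  | Con.add _ _ _ => [(4, 0, 25, true), (5, 0, 14, true), (16, 0, 27, true)]
  | Con.mul _ _ _ =>
    [(4, 0, 27, true), (15, 5, 36, true), (5, 0, 10, false), (14, 5, 10, false),
     (25, 3, 21, false), (38, 2, 21, false), (54, 3, 10, false), (65, 0, 21, false),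
     (54, 0, 65, true),
     (48, 0, 71, true), (59, 5, 80, true), (49, 0, 32, false), (58, 5, 32, false),
     (69, 3, 43, false), (82, 2, 43, false), (76, 3, 32, false), (87, 0, 43, false),
     (76, 0, 87, true), (54, 1, 76, true), (65, 1, 87, true)]

/-- The items of the network. -/
def items (S : List Con) : List Item :=
  ((List.range (8 * S.length)).flatMap fun f => Loc.map (sh (11 * f))) ++
  (((List.range (8 * S.length - 1)).flatMap al) ++ (eqs (labs S) ++
  (S.zipIdx.flatMap fun p => (gad p.1).map (sh (88 * p.2)))))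

/-- The stars of the network. -/
def stars (S : List Con) : List ℕ :=
  ((List.range (8 * S.length)).flatMap fun f => (List.range 10).map fun c => 11 * f + c) ++
  ((List.range S.length).flatMap fun k => [88 * k + 54, 88 * k + 65, 88 * k + 76, 88 * k + 87])

theorem mem_stars {S : List Con} {v : ℕ} :
    v ∈ stars S ↔ v < 88 * S.length ∧ (v % 11 < 10 ∨ 44 ≤ v % 88) := by
  unfold stars
  simp only [List.mem_append, List.mem_flatMap, List.mem_map, List.mem_range, List.mem_cons,
    List.not_mem_nil, or_false]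
  constructor
  · rintro (⟨f, hf, c, hc, rfl⟩ | ⟨k, hk, rfl | rfl | rfl | rfl⟩) <;> omega
  · rintro ⟨h1, h2 | h2⟩
    · exact Or.inl ⟨v / 11, by omega, v % 11, h2, by omega⟩
    · by_cases h3 : v % 11 < 10
      · exact Or.inl ⟨v / 11, by omega, v % 11, h3, by omega⟩
      · refine Or.inr ⟨v / 88, by omega, ?_⟩
        omega

theorem labs_length : ∀ S : List Con, (labs S).length = 8 * S.length
  | [] => rfl
  | c :: S => by
    have := labs_length S
    unfold labs at this ⊢
    rw [List.flatMap_cons, List.length_append, this, List.length_cons]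
    cases c <;> simp [slots] <;> ring

theorem labs_get : ∀ (S : List Con) (k : ℕ) (c : Con) (r : ℕ), S[k]? = some c → r < 8 →
    (labs S)[8 * k + r]? = (slots c)[r]?
  | [], k, c, r, h, _ => by simp at h
  | d :: S, 0, c, r, h, hr => by
    simp only [List.getElem?_cons_zero, Option.some.injEq] at h
    subst h
    unfold labs
    rw [List.flatMap_cons, mul_zero, zero_add, List.getElem?_append_left]
    cases d <;> simp [slots] <;> omega
  | d :: S, k + 1, c, r, h, hr => by
    have ih := labs_get S k c r (by simpa using h) hr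
    unfold labs at ih ⊢
    rw [List.flatMap_cons, List.getElem?_append_right]
    · rw [← ih]
      congr 1
      cases d <;> simp [slots] <;> omega
    · cases d <;> simp [slots] <;> omega

/-- membership in the list of items -/
theorem mem_items {S : List Con} {e : Item} : e ∈ items S ↔
    (∃ f < 8 * S.length, ∃ e₀ ∈ Loc, e = sh (11 * f) e₀) ∨
    (∃ f, f + 1 < 8 * S.length ∧ e ∈ al f) ∨
    (∃ l f f', (labs S)[f]? = some l ∧ (labs S)[f']? = some l ∧ f < f' ∧
      (∀ g, f < g → g < f' → (labs S)[g]? ≠ some l) ∧ e ∈ eqI f f') ∨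
    (∃ k c, S[k]? = some c ∧ ∃ e₀ ∈ gad c, e = sh (88 * k) e₀) := by
  unfold items
  rw [List.mem_append, List.mem_append, List.mem_append]
  refine or_congr ?_ (or_congr ?_ (or_congr ?_ ?_))
  · simp only [List.mem_flatMap, List.mem_range, List.mem_map]
    constructor
    · rintro ⟨f, hf, e₀, he, rfl⟩
      exact ⟨f, hf, e₀, he, rfl⟩
    · rintro ⟨f, hf, e₀, he, rfl⟩
      exact ⟨f, hf, e₀, he, rfl⟩
  · simp only [List.mem_flatMap, List.mem_range]
    constructor
    · rintro ⟨f, hf, he⟩
      exact ⟨f, by omega, he⟩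
    · rintro ⟨f, hf, he⟩
      exact ⟨f, by omega, he⟩
  · unfold eqs
    simp only [List.mem_flatMap]
    constructor
    · rintro ⟨⟨l, f⟩, h1, ⟨l', f'⟩, h2, h3⟩
      rw [List.mem_zipIdx_iff_getElem?] at h1 h2
      split_ifs at h3 with h4
      · obtain ⟨h5, h6, h7⟩ := h4
        dsimp only at h1 h2 h3 h5 h6 h7
        subst h5
        refine ⟨l, f, f', h1, h2, h6, fun g hg hg' h8 => ?_, h3⟩
        rw [List.length_eq_zero_iff, List.filter_eq_nil_iff] at h7
        exact h7 (l, g) (List.mem_zipIdx_iff_getElem?.2 h8) (by simp [hg, hg'])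
      · simp at h3
    · rintro ⟨l, f, f', h1, h2, h3, h4, h5⟩
      refine ⟨(l, f), List.mem_zipIdx_iff_getElem?.2 h1, (l, f'),
        List.mem_zipIdx_iff_getElem?.2 h2, ?_⟩
      rw [if_pos]
      · exact h5
      · refine ⟨rfl, h3, ?_⟩
        rw [List.length_eq_zero_iff, List.filter_eq_nil_iff]
        rintro ⟨l', g⟩ hg h6
        rw [List.mem_zipIdx_iff_getElem?] at hg
        simp only [decide_eq_true_eq] at h6 hg
        obtain ⟨h7, h8, h9⟩ := h6
        subst h7
        exact h4 g h8 h9 hg
  · simp only [List.mem_flatMap, List.mem_map]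
    constructor
    · rintro ⟨⟨c, k⟩, h1, e₀, he, rfl⟩
      rw [List.mem_zipIdx_iff_getElem?] at h1
      exact ⟨k, c, h1, e₀, he, rfl⟩
    · rintro ⟨k, c, h1, e₀, he, rfl⟩
      exact ⟨(c, k), List.mem_zipIdx_iff_getElem?.2 h1, e₀, he, rfl⟩

theorem lt_of_get {S : List Con} {k : ℕ} {c : Con} (h : S[k]? = some c) : k < S.length :=
  (List.getElem?_eq_some_iff.1 h).1

theorem lt_of_labs {S : List Con} {f l : ℕ} (h : (labs S)[f]? = some l) : f < 8 * S.length := by
  rw [← labs_length]
  exact (List.getElem?_eq_some_iff.1 h).1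

theorem loc_ok : ∀ e ∈ Loc, e.1 < 10 ∧ e.2.1 < 6 ∧ e.2.2.1 < 10 ∧ e.2.2.2 = true ∧
    e.1 ≠ e.2.2.1 := by decide

/-- nodes of a block which are stars -/
def isSt (v : ℕ) : Prop := v < 88 ∧ (v % 11 < 10 ∨ 44 ≤ v)

instance (v : ℕ) : Decidable (isSt v) := by unfold isSt; infer_instance

theorem gad_ok (c : Con) : ∀ e ∈ gad c, isSt e.1 ∧ e.2.1 < 6 ∧ e.2.2.1 < 88 ∧
    (e.2.2.2 = true → isSt e.2.2.1) ∧ (e.2.2.2 = false → ¬ isSt e.2.2.1) ∧ e.1 ≠ e.2.2.1 := by
  cases c with
  | one i => simp only [gad]; decide
  | add i j l => simp only [gad]; decide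
  | mul i j l => simp only [gad]; decide

theorem wf_items (S : List Con) : WF (88 * S.length) (stars S) (items S) := by
  have key : ∀ e ∈ items S, e.1 ∈ stars S ∧ e.2.1 < 6 ∧ e.2.2.1 < 88 * S.length ∧
      (e.2.2.2 = true → e.2.2.1 ∈ stars S) ∧ (e.2.2.2 = false → e.2.2.1 ∉ stars S) ∧
      e.1 ≠ e.2.2.1 := by
    intro e he
    simp only [mem_stars]
    rcases mem_items.1 he with ⟨f, hf, e₀, he₀, rfl⟩ | ⟨f, hf, he⟩ | ⟨l, f, f', h1, h2, h3, _, he⟩ |
      ⟨k, c, hc, e₀, he₀, rfl⟩
    · obtain ⟨o1, o2, o3, o4, o5⟩ := loc_ok e₀ he₀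
      simp only [sh, o4, true_implies, Bool.true_eq_false, false_implies, true_and]
      refine ⟨?_, o2, ?_, ?_, ?_⟩ <;> omega
    · simp only [al, List.mem_cons, List.not_mem_nil, or_false] at he
      rcases he with rfl | rfl <;>
        simp only [true_implies, Bool.true_eq_false, false_implies, true_and] <;>
        refine ⟨?_, ?_, ?_, ?_, ?_⟩ <;> omega
    · have := lt_of_labs h1
      have := lt_of_labs h2
      simp only [eqI, List.mem_cons, List.not_mem_nil, or_false] at he
      rcases he with rfl | rfl <;>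
        simp only [true_implies, Bool.true_eq_false, false_implies, true_and] <;>
        refine ⟨?_, ?_, ?_, ?_, ?_⟩ <;> omega
    · have hk := lt_of_get hc
      obtain ⟨o1, o2, o3, o4, o5, o6⟩ := gad_ok c e₀ he₀
      unfold isSt at o1 o4 o5
      simp only [sh]
      refine ⟨by omega, o2, by omega, fun h => ?_, fun h => ?_, by omega⟩
      · have := o4 h
        omega
      · have := o5 h
        omega
  exact ⟨fun v hv => (mem_stars.1 hv).1, fun e he => (key e he).1, fun e he => (key e he).2.1,
    fun e he => (key e he).2.2.1, fun e he => (key e he).2.2.2.1,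
    fun e he => (key e he).2.2.2.2.1, fun e he => (key e he).2.2.2.2.2⟩

/-! ### Every port is used at most once -/

theorem edgeOf_sh (n : ℕ) (e : Item) :
    edgeOf (sh n e) = (13 * n + (edgeOf e).1, 13 * n + (edgeOf e).2) := by
  simp only [edgeOf, sh]
  refine Prod.ext ?_ ?_ <;> dsimp only <;> ring

/-- the four classes of ports -/
def clsOf (x : ℕ) : ℕ :=
  if x % 143 ∈ Loc.map (fun e => (edgeOf e).1) ++ Loc.map (fun e => (edgeOf e).2) then 0
  else if x % 143 ∈ [92, 82, 81, 123] then 1
  else if x % 143 ∈ [14, 27, 4, 30] then 2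
  else 3

theorem cls_loc : ∀ e ∈ Loc, clsOf (edgeOf e).1 = 0 ∧ clsOf (edgeOf e).2 = 0 ∧
    (edgeOf e).1 < 143 ∧ (edgeOf e).2 < 143 := by decide

theorem uniq_loc : ∀ e ∈ Loc, ∀ e' ∈ Loc, ((edgeOf e).1 = (edgeOf e').1 →
    (edgeOf e).2 = (edgeOf e').2) ∧ (edgeOf e).1 ≠ (edgeOf e').2 ∧
    ((edgeOf e).2 = (edgeOf e').2 → (edgeOf e).1 = (edgeOf e').1) := by decide

theorem cls_gad (c : Con) : ∀ e ∈ gad c, clsOf (edgeOf e).1 = 3 ∧
    (e.2.2.2 = true → clsOf (edgeOf e).2 = 3) ∧
    (edgeOf e).1 < 1144 ∧ (edgeOf e).2 < 1144 := by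
  cases c with
  | one i => simp only [gad]; decide
  | add i j l => simp only [gad]; decide
  | mul i j l => simp only [gad]; decide

theorem uniq_gad (c : Con) : ∀ e ∈ gad c, ∀ e' ∈ gad c, ((edgeOf e).1 = (edgeOf e').1 →
    (edgeOf e).2 = (edgeOf e').2) ∧ (e'.2.2.2 = true → (edgeOf e).1 ≠ (edgeOf e').2) ∧
    (e.2.2.2 = true → e'.2.2.2 = true → (edgeOf e).2 = (edgeOf e').2 →
      (edgeOf e).1 = (edgeOf e').1) := by
  cases c with
  | one i => simp only [gad]; decide
  | add i j l => simp only [gad]; decide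
  | mul i j l => simp only [gad]; decide

theorem cls_mod {x y : ℕ} (h : x % 143 = y % 143) : clsOf x = clsOf y := by
  unfold clsOf
  rw [h]

theorem mem_al {f : ℕ} {e : Item} (h : e ∈ al f) :
    edgeOf e = (143 * f + 92, 143 * (f + 1) + 82) ∨
    edgeOf e = (143 * (f + 1) + 81, 143 * f + 123) := by
  simp only [al, List.mem_cons, List.not_mem_nil, or_false] at h
  rcases h with rfl | rfl
  · left
    simp only [edgeOf, if_true]
    refine Prod.ext ?_ ?_ <;> dsimp only <;> omega
  · right
    simp only [edgeOf, if_true]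
    refine Prod.ext ?_ ?_ <;> dsimp only <;> omega

theorem mem_eqI {f f' : ℕ} {e : Item} (h : e ∈ eqI f f') :
    edgeOf e = (143 * f + 14, 143 * f' + 4) ∨ edgeOf e = (143 * f + 27, 143 * f' + 30) := by
  simp only [eqI, List.mem_cons, List.not_mem_nil, or_false] at h
  rcases h with rfl | rfl
  · left
    simp only [edgeOf, if_true]
    refine Prod.ext ?_ ?_ <;> dsimp only <;> omega
  · right
    simp only [edgeOf, if_true]
    refine Prod.ext ?_ ?_ <;> dsimp only <;> omega

/-- The class of an item. -/
inductive Kind (S : List Con) (e : Item) : ℕ → Prop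
  | loc (f : ℕ) (e₀ : Item) (h₀ : e₀ ∈ Loc) (h : e = sh (11 * f) e₀) : Kind S e 0
  | al (f : ℕ) (h : e ∈ al f) : Kind S e 1
  | eq (l f f' : ℕ) (h1 : (labs S)[f]? = some l) (h2 : (labs S)[f']? = some l) (h3 : f < f')
      (h4 : ∀ g, f < g → g < f' → (labs S)[g]? ≠ some l) (h : e ∈ eqI f f') : Kind S e 2
  | gad (k : ℕ) (c : Con) (h1 : S[k]? = some c) (e₀ : Item) (h₀ : e₀ ∈ gad c)
      (h : e = sh (88 * k) e₀) : Kind S e 3

theorem exists_kind {S : List Con} {e : Item} (he : e ∈ items S) : ∃ n, Kind S e n ∧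
    clsOf (edgeOf e).1 = n ∧ (e.2.2.2 = true → clsOf (edgeOf e).2 = n) := by
  rcases mem_items.1 he with ⟨f, hf, e₀, he₀, rfl⟩ | ⟨f, hf, he⟩ | ⟨l, f, f', h1, h2, h3, h4, he⟩ |
    ⟨k, c, hc, e₀, he₀, rfl⟩
  · obtain ⟨c1, c2, c3, c4⟩ := cls_loc e₀ he₀
    refine ⟨0, Kind.loc f e₀ he₀ rfl, ?_, fun _ => ?_⟩
    · rw [← c1]
      apply cls_mod
      rw [edgeOf_sh]
      dsimp only
      omega
    · rw [← c2]
      apply cls_mod
      rw [edgeOf_sh]
      dsimp only
      omega
  · refine ⟨1, Kind.al f he, ?_, fun _ => ?_⟩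
    · rcases mem_al he with h | h <;> rw [h] <;> dsimp only
      · rw [cls_mod (y := 92) (by omega)]; decide
      · rw [cls_mod (y := 81) (by omega)]; decide
    · rcases mem_al he with h | h <;> rw [h] <;> dsimp only
      · rw [cls_mod (y := 82) (by omega)]; decide
      · rw [cls_mod (y := 123) (by omega)]; decide
  · refine ⟨2, Kind.eq l f f' h1 h2 h3 h4 he, ?_, fun _ => ?_⟩
    · rcases mem_eqI he with h | h <;> rw [h] <;> dsimp only
      · rw [cls_mod (y := 14) (by omega)]; decide
      · rw [cls_mod (y := 27) (by omega)]; decide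
    · rcases mem_eqI he with h | h <;> rw [h] <;> dsimp only
      · rw [cls_mod (y := 4) (by omega)]; decide
      · rw [cls_mod (y := 30) (by omega)]; decide
  · obtain ⟨c1, c2, c3, c4⟩ := cls_gad c e₀ he₀
    refine ⟨3, Kind.gad k c hc e₀ he₀ rfl, ?_, fun h => ?_⟩
    · rw [← c1]
      apply cls_mod
      rw [edgeOf_sh]
      dsimp only
      omega
    · rw [← c2 h]
      apply cls_mod
      rw [edgeOf_sh]
      dsimp only
      omega

theorem uniq_items (S : List Con) : Uniq (items S) := by
  have key : ∀ e ∈ items S, ∀ e' ∈ items S, ((edgeOf e).1 = (edgeOf e').1 →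
      (edgeOf e).2 = (edgeOf e').2) ∧ (e'.2.2.2 = true → (edgeOf e).1 ≠ (edgeOf e').2) ∧
      (e.2.2.2 = true → e'.2.2.2 = true → (edgeOf e).2 = (edgeOf e').2 →
        (edgeOf e).1 = (edgeOf e').1) := by
    intro e he e' he'
    obtain ⟨n, hk, c1, c2⟩ := exists_kind he
    obtain ⟨n', hk', c1', c2'⟩ := exists_kind he'
    by_cases hn : n = n'
    · subst hn
      cases hk with
      | loc f e₀ h₀ h =>
        cases hk' with
        | loc f' e₀' h₀' h' =>
          subst h h'
          have := uniq_loc e₀ h₀ e₀' h₀'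
          obtain ⟨_, _, o1, o2⟩ := cls_loc e₀ h₀
          obtain ⟨_, _, o1', o2'⟩ := cls_loc e₀' h₀'
          rw [edgeOf_sh, edgeOf_sh]
          dsimp only
          refine ⟨fun h => ?_, fun _ h => ?_, fun _ _ h => ?_⟩
          · have hf : f = f' := by omega
            subst hf
            have := this.1 (by omega)
            omega
          · have hf : f = f' := by omega
            subst hf
            exact this.2.1 (by omega)
          · have hf : f = f' := by omega
            subst hf
            have := this.2.2 (by omega)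
            omega
      | al f h =>
        cases hk' with
        | al f' h' =>
          rcases mem_al h with e1 | e1 <;> rcases mem_al h' with e2 | e2 <;> rw [e1, e2] <;>
            dsimp only <;> refine ⟨?_, ?_, ?_⟩ <;> intros <;> omega
      | eq l f f' h1 h2 h3 h4 h =>
        cases hk' with
        | eq l₂ f₂ f₂' i1 i2 i3 i4 i =>
          have hff : f = f₂ → f' = f₂' := by
            intro hf
            subst hf
            rw [h1] at i1
            have hl := Option.some.inj i1
            subst hl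
            rcases lt_trichotomy f' f₂' with h5 | h5 | h5
            · exact absurd h2 (i4 f' h3 h5)
            · exact h5
            · exact absurd i2 (h4 f₂' i3 h5)
          have hff' : f' = f₂' → f = f₂ := by
            intro hf
            subst hf
            rw [h2] at i2
            have hl := Option.some.inj i2
            subst hl
            rcases lt_trichotomy f f₂ with h5 | h5 | h5
            · exact absurd i1 (h4 f₂ h5 i3)
            · exact h5
            · exact absurd h1 (i4 f h5 h3)
          rcases mem_eqI h with e1 | e1 <;> rcases mem_eqI i with e2 | e2 <;> rw [e1, e2] <;>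
            dsimp only <;> refine ⟨?_, ?_, ?_⟩ <;> intros <;> omega
      | gad k c h1 e₀ h₀ h =>
        cases hk' with
        | gad k' c' h1' e₀' h₀' h' =>
          subst h h'
          obtain ⟨_, _, o1, o2⟩ := cls_gad c e₀ h₀
          obtain ⟨_, _, o1', o2'⟩ := cls_gad c' e₀' h₀'
          rw [edgeOf_sh, edgeOf_sh]
          dsimp only
          have hcc : k = k' → c = c' := by
            intro hk
            subst hk
            rw [h1] at h1'
            exact Option.some.inj h1'
          refine ⟨fun h => ?_, fun hm h => ?_, fun hm hm' h => ?_⟩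
          · have hkk : k = k' := by omega
            have hc := hcc hkk
            subst hkk hc
            have := (uniq_gad c e₀ h₀ e₀' h₀').1 (by omega)
            omega
          · have hkk : k = k' := by omega
            have hc := hcc hkk
            subst hkk hc
            exact (uniq_gad c e₀ h₀ e₀' h₀').2.1 hm (by omega)
          · have hkk : k = k' := by omega
            have hc := hcc hkk
            subst hkk hc
            have := (uniq_gad c e₀ h₀ e₀' h₀').2.2 hm hm' (by omega)
            omega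
    · refine ⟨fun h => ?_, fun hm h => ?_, fun hm hm' h => ?_⟩
      · exact absurd (by rw [← c1, ← c1', h]) hn
      · exact absurd (by rw [← c1, ← c2' hm, h]) hn
      · exact absurd (by rw [← c2 hm, ← c2' hm', h]) hn
  exact ⟨fun e he e' he' => (key e he e' he').1, fun e he e' he' => (key e he e' he').2.1,
    fun e he e' he' => (key e he e' he').2.2⟩

end Pool.Agent.NPC.ER.AR
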