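import Pool.Agent.H606R2.AR.Equiv
import Pool.Agent.H670R2.ERMem
import Pool.Agent.ER.Dec

/-!
# Membership in `∃ℝ`
-/

namespace Pool.Agent.NPC.ER.AR

open Pool.Agent.NPC.H670R2 (ff tt conj holds_ff holds_tt holds_conj poly_conj poly_tvar poly_tadd
  poly_tmul poly_tneg poly_eq poly_not poly_and poly_or poly_le not_etr_ff)

/-- The point with coordinates `x (2 v), x (2 v + 1)`. -/
def vx (x : ℕ → ℝ) (v : ℕ) : ℂ := ⟨x (2 * v), x (2 * v + 1)⟩

/-- difference of variables -/
def subT (n m : ℕ) : Tm := Tm.add (Tm.var n) (Tm.neg (Tm.var m))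

/-- the inner product of two differences -/
def ipT (u v w t : ℕ) : Tm :=
  Tm.add (Tm.mul (subT (2 * u) (2 * v)) (subT (2 * w) (2 * t)))
    (Tm.mul (subT (2 * u + 1) (2 * v + 1)) (subT (2 * w + 1) (2 * t + 1)))

theorem eval_ipT (x : ℕ → ℝ) (u v w t : ℕ) :
    (ipT u v w t).eval x = ip (vx x u - vx x v) (vx x w - vx x t) := by
  simp only [ipT, subT, Tm.eval, ip, vx, Complex.sub_re, Complex.sub_im]
  ring

/-- the angle at `v` between `u` and `w` is at least sixty degrees -/
def angF (v u w : ℕ) : Fm :=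
  Fm.or (Fm.le (ipT u v w v) Tm.zero)
    (Fm.le (Tm.mul (Tm.add (ipT u v w v) (ipT u v w v)) (Tm.add (ipT u v w v) (ipT u v w v)))
      (Tm.mul (ipT u v u v) (ipT w v w v)))

theorem holds_angF (x : ℕ → ℝ) (v u w : ℕ) :
    (angF v u w).Holds x ↔ Cd (vx x u - vx x v) (vx x w - vx x v) := by
  simp only [angF, Fm.Holds, Tm.eval, eval_ipT]
  unfold Cd
  rw [← norm_sq_eq, ← norm_sq_eq]
  have h1 := norm_nonneg (vx x u - vx x v)
  have h2 := norm_nonneg (vx x w - vx x v)
  generalize ip (vx x u - vx x v) (vx x w - vx x v) = i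
  generalize ‖vx x u - vx x v‖ = a at *
  generalize ‖vx x w - vx x v‖ = b at *
  have h3 := mul_nonneg h1 h2
  constructor
  · rintro (h | h)
    · linarith
    · by_contra h4
      push Not at h4
      nlinarith
  · intro h
    by_cases h4 : i ≤ 0
    · exact Or.inl h4
    · push Not at h4
      right
      nlinarith

/-- two points are distinct -/
def neF (u v : ℕ) : Fm :=
  Fm.not (Fm.and (Fm.eq (Tm.var (2 * u)) (Tm.var (2 * v)))
    (Fm.eq (Tm.var (2 * u + 1)) (Tm.var (2 * v + 1))))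

theorem holds_neF (x : ℕ → ℝ) (u v : ℕ) : (neF u v).Holds x ↔ vx x u ≠ vx x v := by
  simp only [neF, Fm.Holds, Tm.eval, vx, ne_eq, Complex.mk.injEq]

/-- the vertices of the edges -/
def verts (E : List (ℕ × ℕ)) : List ℕ := E.flatMap fun e => [e.1, e.2]

/-- the directed edges -/
def darts (E : List (ℕ × ℕ)) : List (ℕ × ℕ) := E.flatMap fun e => [(e.1, e.2), (e.2, e.1)]

/-- The list of conditions. -/
def conds (E : List (ℕ × ℕ)) : List Fm :=
  ((verts E).flatMap fun u => (verts E).map fun v => if u = v then tt else neF u v) ++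
  ((darts E).flatMap fun e => (darts E).map fun f =>
    if e.1 = f.1 ∧ e.2 ≠ f.2 then angF e.1 e.2 f.2 else tt)

theorem mem_verts {E : List (ℕ × ℕ)} {v : ℕ} : v ∈ verts E ↔ ∃ u, AdjE E v u := by
  unfold verts AdjE
  rw [List.mem_flatMap]
  constructor
  · rintro ⟨⟨a, b⟩, he, h⟩
    simp only [List.mem_cons, List.not_mem_nil, or_false] at h
    rcases h with rfl | rfl
    · exact ⟨_, Or.inl he⟩
    · exact ⟨_, Or.inr he⟩
  · rintro ⟨u, h | h⟩
    · exact ⟨_, h, by simp⟩
    · exact ⟨_, h, by simp⟩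

theorem mem_darts {E : List (ℕ × ℕ)} {u v : ℕ} : (u, v) ∈ darts E ↔ AdjE E u v := by
  unfold darts AdjE
  rw [List.mem_flatMap]
  constructor
  · rintro ⟨⟨a, b⟩, he, h⟩
    simp only [List.mem_cons, List.not_mem_nil, or_false, Prod.mk.injEq] at h
    rcases h with ⟨rfl, rfl⟩ | ⟨rfl, rfl⟩
    · exact Or.inl he
    · exact Or.inr he
  · rintro (h | h)
    · exact ⟨_, h, by simp⟩
    · exact ⟨_, h, by simp⟩

theorem conds_iff {E : List (ℕ × ℕ)} (x : ℕ → ℝ) : (∀ φ ∈ conds E, φ.Holds x) ↔
    (∀ u ∈ verts E, ∀ v ∈ verts E, u ≠ v → vx x u ≠ vx x v) ∧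
    (∀ v u w, AdjE E v u → AdjE E v w → u ≠ w → Cd (vx x u - vx x v) (vx x w - vx x v)) := by
  unfold conds
  constructor
  · intro h
    refine ⟨fun u hu v hv huv => ?_, fun v u w h1 h2 h3 => ?_⟩
    · have := h (if u = v then tt else neF u v) (List.mem_append.2 (Or.inl
        (List.mem_flatMap.2 ⟨u, hu, List.mem_map.2 ⟨v, hv, rfl⟩⟩)))
      rw [if_neg huv, holds_neF] at this
      exact this
    · have := h (if (v, u).1 = (v, w).1 ∧ (v, u).2 ≠ (v, w).2 then
        angF (v, u).1 (v, u).2 (v, w).2 else tt) (List.mem_append.2 (Or.inr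
        (List.mem_flatMap.2 ⟨(v, u), mem_darts.2 h1, List.mem_map.2 ⟨(v, w), mem_darts.2 h2,
          rfl⟩⟩)))
      rw [if_pos ⟨rfl, h3⟩, holds_angF] at this
      exact this
  · rintro ⟨h1, h2⟩ φ hφ
    rw [List.mem_append, List.mem_flatMap, List.mem_flatMap] at hφ
    rcases hφ with ⟨u, hu, hφ⟩ | ⟨⟨v, u⟩, hu, hφ⟩
    · obtain ⟨v, hv, rfl⟩ := List.mem_map.1 hφ
      split_ifs with h
      · exact holds_tt x
      · rw [holds_neF]
        exact h1 u hu v hv h
    · obtain ⟨⟨v', w⟩, hw, rfl⟩ := List.mem_map.1 hφ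
      split_ifs with h
      · obtain ⟨h3, h4⟩ := h
        dsimp only at h3 h4 ⊢
        subst h3
        rw [holds_angF]
        exact h2 v u w (mem_darts.1 hu) (mem_darts.1 hw) h4
      · exact holds_tt x

/-- The existential sentence of a graph. -/
def form (G : GCode) : Fm := conj (conds (clean G))

theorem form_correct (G : GCode) : AR (Real.pi / 3) G ↔ ETR (form G) := by
  rw [ar_iff]
  unfold form ETR
  simp only [holds_conj, conds_iff]
  set E := clean G with hE
  have hlt : ∀ v ∈ verts E, v < G.1 := by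
    intro v hv
    obtain ⟨u, hu⟩ := mem_verts.1 hv
    exact (adj_clean.1 hu).1
  constructor
  · rintro ⟨z, hz⟩
    refine ⟨fun n => if n % 2 = 0 then (z (n / 2)).re else (z (n / 2)).im, ?_⟩
    have hv : ∀ v, vx (fun n => if n % 2 = 0 then (z (n / 2)).re else (z (n / 2)).im) v = z v := by
      intro v
      unfold vx
      have e1 : 2 * v % 2 = 0 := by omega
      have e2 : (2 * v + 1) % 2 = 1 := by omega
      have e3 : 2 * v / 2 = v := by omega
      have e4 : (2 * v + 1) / 2 = v := by omega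
      simp only [e1, e2, e3, e4]
      apply Complex.ext <;> simp
    refine ⟨fun u hu v hv' huv => ?_, fun v u w h1 h2 h3 => ?_⟩
    · rw [hv, hv]
      exact fun h => huv (hz.inj u (hlt u hu) v (hlt v hv') h)
    · rw [hv, hv, hv]
      exact hz.ang v u w h1 h2 h3
  · rintro ⟨x, h1, h2⟩
    classical
    obtain ⟨T, hT⟩ : ∃ T : ℝ, ∀ v ∈ verts E, (vx x v).re < T := by
      refine ⟨((verts E).map fun v => |(vx x v).re|).sum + 1, fun v hv => ?_⟩
      have h3 : |(vx x v).re| ∈ (verts E).map fun v => |(vx x v).re| :=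
        List.mem_map.2 ⟨v, hv, rfl⟩
      have h4 := List.single_le_sum (l := (verts E).map fun v => |(vx x v).re|) (by
        intro a ha
        obtain ⟨i, _, rfl⟩ := List.mem_map.1 ha
        exact abs_nonneg _) _ h3
      have h5 := le_abs_self (vx x v).re
      linarith
    refine ⟨fun v => if v ∈ verts E then vx x v else ⟨T + v, 0⟩, ?_, ?_⟩
    · intro u _ v _ huv
      by_cases hu : u ∈ verts E
      · by_cases hv : v ∈ verts E
        · rw [if_pos hu, if_pos hv] at huv
          by_contra hne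
          exact h1 u hu v hv hne huv
        · rw [if_pos hu, if_neg hv] at huv
          exfalso
          have := hT u hu
          rw [huv] at this
          dsimp only at this
          have h0 : (0 : ℝ) ≤ v := Nat.cast_nonneg v
          linarith
      · by_cases hv : v ∈ verts E
        · rw [if_neg hu, if_pos hv] at huv
          exfalso
          have := hT v hv
          rw [← huv] at this
          dsimp only at this
          have h0 : (0 : ℝ) ≤ u := Nat.cast_nonneg u
          linarith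
        · rw [if_neg hu, if_neg hv] at huv
          have := congrArg Complex.re huv
          dsimp only at this
          exact_mod_cast (add_left_cancel this)
    · intro v u w hvu hvw huw
      have m1 : v ∈ verts E := mem_verts.2 ⟨u, hvu⟩
      have m2 : u ∈ verts E := mem_verts.2 ⟨v, hvu.symm⟩
      have m3 : w ∈ verts E := mem_verts.2 ⟨v, hvw.symm⟩
      rw [if_pos m1, if_pos m2, if_pos m3]
      exact h2 v u w hvu hvw huw

/-! ### Polynomial time -/

variable {α : Type} [TEnc α]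

theorem poly_two {n : α → ℕ} (hn : Poly n) : Poly (fun a => 2 * n a) :=
  Poly.mul (Poly.const 2) hn

theorem poly_subT {n m : α → ℕ} (hn : Poly n) (hm : Poly m) : Poly (fun a => subT (n a) (m a)) :=
  poly_tadd (poly_tvar hn) (poly_tneg (poly_tvar hm))

theorem poly_ipT {u v w t : α → ℕ} (hu : Poly u) (hv : Poly v) (hw : Poly w) (ht : Poly t) :
    Poly (fun a => ipT (u a) (v a) (w a) (t a)) :=
  poly_tadd (poly_tmul (poly_subT (poly_two hu) (poly_two hv))
    (poly_subT (poly_two hw) (poly_two ht)))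
    (poly_tmul (poly_subT (Poly.succ (poly_two hu)) (Poly.succ (poly_two hv)))
    (poly_subT (Poly.succ (poly_two hw)) (Poly.succ (poly_two ht))))

theorem poly_angF {v u w : α → ℕ} (hv : Poly v) (hu : Poly u) (hw : Poly w) :
    Poly (fun a => angF (v a) (u a) (w a)) := by
  have h1 := poly_ipT hu hv hw hv
  have h2 := poly_ipT hu hv hu hv
  have h3 := poly_ipT hw hv hw hv
  exact poly_or (poly_le h1 (Poly.const _)) (poly_le (poly_tmul (poly_tadd h1 h1)
    (poly_tadd h1 h1)) (poly_tmul h2 h3))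

theorem poly_neF {u v : α → ℕ} (hu : Poly u) (hv : Poly v) : Poly (fun a => neF (u a) (v a)) :=
  poly_not (poly_and (poly_eq (poly_tvar (poly_two hu)) (poly_tvar (poly_two hv)))
    (poly_eq (poly_tvar (Poly.succ (poly_two hu))) (poly_tvar (Poly.succ (poly_two hv)))))

theorem poly_verts {E : α → List (ℕ × ℕ)} (hE : Poly E) : Poly (fun a => verts (E a)) :=
  Poly.flatMap (F := fun _ (e : ℕ × ℕ) => [e.1, e.2]) hE
    (Poly.cons (Poly.fst (Poly.snd Poly.id)) (Poly.cons (Poly.snd (Poly.snd Poly.id))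
      (Poly.const _)))

theorem poly_darts {E : α → List (ℕ × ℕ)} (hE : Poly E) : Poly (fun a => darts (E a)) :=
  Poly.flatMap (F := fun _ (e : ℕ × ℕ) => [(e.1, e.2), (e.2, e.1)]) hE
    (Poly.cons (Poly.pair (Poly.fst (Poly.snd Poly.id)) (Poly.snd (Poly.snd Poly.id)))
      (Poly.cons (Poly.pair (Poly.snd (Poly.snd Poly.id)) (Poly.fst (Poly.snd Poly.id)))
      (Poly.const _)))

theorem poly_conds {E : α → List (ℕ × ℕ)} (hE : Poly E) : Poly (fun a => conds (E a)) := by
  refine Poly.append ?_ ?_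
  · refine Poly.flatMap (F := fun a (u : ℕ) => (verts (E a)).map fun v =>
      if u = v then tt else neF u v) (poly_verts hE) ?_
    refine Poly.map (F := fun (p : α × ℕ) (v : ℕ) => if p.2 = v then tt else
      neF p.2 v) (poly_verts (hE.comp (Poly.fst Poly.id))) ?_
    exact Poly.ite (Poly.decide_eq (Poly.snd (Poly.fst Poly.id)) (Poly.snd Poly.id))
      (Poly.const _) (poly_neF (Poly.snd (Poly.fst Poly.id)) (Poly.snd Poly.id))
  · refine Poly.flatMap (F := fun a (e : ℕ × ℕ) => (darts (E a)).map fun f =>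
      if e.1 = f.1 ∧ e.2 ≠ f.2 then angF e.1 e.2 f.2 else tt) (poly_darts hE) ?_
    refine Poly.map (F := fun (p : α × ℕ × ℕ) (f : ℕ × ℕ) =>
      if p.2.1 = f.1 ∧ p.2.2 ≠ f.2 then angF p.2.1 p.2.2 f.2 else tt)
      (poly_darts (hE.comp (Poly.fst Poly.id))) ?_
    have e1 : Poly (fun q : (α × ℕ × ℕ) × ℕ × ℕ => q.1.2.1) :=
      Poly.fst (Poly.snd (Poly.fst Poly.id))
    have e2 : Poly (fun q : (α × ℕ × ℕ) × ℕ × ℕ => q.1.2.2) :=
      Poly.snd (Poly.snd (Poly.fst Poly.id))
    have f1 : Poly (fun q : (α × ℕ × ℕ) × ℕ × ℕ => q.2.1) := Poly.fst (Poly.snd Poly.id)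
    have f2 : Poly (fun q : (α × ℕ × ℕ) × ℕ × ℕ => q.2.2) := Poly.snd (Poly.snd Poly.id)
    exact Poly.ite (Poly.decide_and (Poly.decide_eq e1 f1) (Poly.decide_not (Poly.decide_eq e2 f2)))
      (poly_angF e1 e2 f2) (Poly.const _)

theorem poly_clean : Poly clean := by
  refine Poly.filter (p := fun (G : GCode) (e : ℕ × ℕ) =>
    decide (e.1 < G.1 ∧ e.2 < G.1 ∧ e.1 ≠ e.2)) (Poly.snd Poly.id) ?_
  have g : Poly (fun p : GCode × ℕ × ℕ => p.1.1) := Poly.fst (Poly.fst Poly.id)
  have a : Poly (fun p : GCode × ℕ × ℕ => p.2.1) := Poly.fst (Poly.snd Poly.id)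
  have b : Poly (fun p : GCode × ℕ × ℕ => p.2.2) := Poly.snd (Poly.snd Poly.id)
  exact Poly.decide_and (Poly.decide_lt a g) (Poly.decide_and (Poly.decide_lt b g)
    (Poly.decide_not (Poly.decide_eq a b)))

theorem poly_form : Poly form := poly_conj (poly_conds poly_clean)

/-- `AR(π/3)` belongs to `∃ℝ`. -/
theorem ar_mem : InER (lang (AR (Real.pi / 3))) := InER.of_poly poly_form form_correct

end Pool.Agent.NPC.ER.AR
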