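import Pool.Agent.H606R2.AR.Inst

/-!
# A drawing of the network gives a solution of the system
-/

namespace Pool.Agent.NPC.ER.AR

variable {b P R : ℕ → ℂ}

/-- `v'` is seen from `v` in the direction `k` of the frame of `v`. -/
def Ry (b P R : ℕ → ℂ) (v k v' : ℕ) : Prop :=
  ∃ s : ℝ, 0 < s ∧ b v' - b v = s * lat (P v) (R v) (dz k)

/-- `v` and `v'` see each other in the direction `k` of both frames. -/
def Lk (b P R : ℕ → ℂ) (v k v' : ℕ) : Prop :=
  Ry b P R v k v' ∧ ∃ s : ℝ, 0 < s ∧ lat (P v') (R v') (dz k) = s * lat (P v) (R v) (dz k)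

/-- The frames of `v` and `v'` are aligned. -/
def Al (P R : ℕ → ℂ) (v v' : ℕ) : Prop := ∃ s : ℝ, 0 < s ∧ P v' = s * P v ∧ R v' = s * R v

theorem Al.symm {v v' : ℕ} (h : Al P R v v') : Al P R v' v := by
  obtain ⟨s, hs, h1, h2⟩ := h
  have hs' : (s : ℂ) ≠ 0 := by exact_mod_cast hs.ne'
  refine ⟨s⁻¹, inv_pos.2 hs, ?_, ?_⟩
  · rw [h1]; push_cast; field_simp
  · rw [h2]; push_cast; field_simp

theorem Al.trans {v v' v'' : ℕ} (h : Al P R v v') (h' : Al P R v' v'') : Al P R v v'' := by
  obtain ⟨s, hs, h1, h2⟩ := h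
  obtain ⟨t, ht, h3, h4⟩ := h'
  refine ⟨t * s, mul_pos ht hs, ?_, ?_⟩
  · rw [h3, h1]; push_cast; ring
  · rw [h4, h2]; push_cast; ring

theorem Al.refl (v : ℕ) : Al P R v v := ⟨1, one_pos, by simp, by simp⟩

theorem lat_al {v v' : ℕ} {s : ℝ} (h1 : P v' = s * P v) (h2 : R v' = s * R v) (q : ℤ × ℤ) :
    lat (P v') (R v') q = s * lat (P v) (R v) q := by
  unfold lat
  rw [h1, h2]
  ring

/-- A triangle of links. -/
theorem tri_al {c a d : ℕ} (fc : Fr (P c) (R c)) (fa : Fr (P a) (R a)) (fd : Fr (P d) (R d))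
    (h1 : Lk b P R c 0 a) (h2 : Lk b P R c 1 d) (h3 : Lk b P R a 2 d) :
    Al P R c a ∧ Al P R c d ∧ ∃ w : ℝ, 0 < w ∧ b a - b c = w * P c ∧ b d - b c = w * R c := by
  obtain ⟨⟨s1, hs1, e1⟩, t1, ht1, g1⟩ := h1
  obtain ⟨⟨s2, hs2, e2⟩, t2, ht2, g2⟩ := h2
  obtain ⟨⟨s3, hs3, e3⟩, t3, ht3, g3⟩ := h3
  simp only [lat, dz] at e1 e2 e3 g1 g2 g3
  push_cast at e1 e2 e3 g1 g2 g3
  have g1' : P a = t1 * P c := by linear_combination g1
  have g2' : R d = t2 * R c := by linear_combination g2
  have ht1' : (t1 : ℂ) ≠ 0 := by exact_mod_cast ht1.ne'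
  -- the frame of `a`
  have fa' : Fr (P a) ((t1 : ℂ) * R c) := by
    rw [g1']
    exact fc.smul ht1.ne'
  have ra : R a = t1 * R c := by
    rcases fa'.two fa with h | h
    · exact h
    · exfalso
      have : ((s1 : ℝ) : ℂ) * P c + ((-(s2 + s3 * t1) : ℝ) : ℂ) * R c = 0 := by
        rw [g1'] at h
        rw [g1', h] at e3
        push_cast
        linear_combination e2 - e1 - e3
      exact hs1.ne' (fc.indep this).1
  have e3' : b d - b a = s3 * t1 * (R c - P c) := by
    rw [e3, g1', ra]; ring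
  have hw : s1 = s3 * t1 ∧ s2 = s3 * t1 := by
    have : ((s1 - s3 * t1 : ℝ) : ℂ) * P c + ((s3 * t1 - s2 : ℝ) : ℂ) * R c = 0 := by
      push_cast
      linear_combination e2 - e1 - e3'
    have := fc.indep this
    exact ⟨by linarith [this.1], by linarith [this.2]⟩
  -- the frame of `d`
  have fd' : Fr (R d) ((t2 : ℂ) * P c) := by
    rw [g2']
    exact fc.swap.smul ht2.ne'
  have pd : P d = t2 * P c := by
    rcases fd'.two fd.swap with h | h
    · exact h
    · exfalso
      have : ((t2 + t3 * t1 : ℝ) : ℂ) * P c + ((-(t3 * t1) : ℝ) : ℂ) * R c = 0 := by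
        rw [g2'] at h
        rw [g2', h, g1', ra] at g3
        push_cast
        linear_combination g3
      have := (fc.indep this).1
      have h5 : 0 < t3 * t1 := mul_pos ht3 ht1
      linarith
  refine ⟨⟨t1, ht1, g1', ra⟩, ⟨t2, ht2, pd, g2'⟩, s1, hs1, ?_, ?_⟩
  · linear_combination e1
  · rw [hw.1, ← hw.2]
    linear_combination e2

/-- Two triangles on the same pair of columns. -/
theorem col_al {c a d c' a' d' : ℕ} (fc : Fr (P c) (R c)) (fc' : Fr (P c') (R c'))
    (hca : Al P R c a) (hcd : Al P R c d)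
    (hw : ∃ w : ℝ, 0 < w ∧ b a - b c = w * P c ∧ b d - b c = w * R c)
    (hw' : ∃ w : ℝ, 0 < w ∧ b a' - b c' = w * P c' ∧ b d' - b c' = w * R c')
    (h1 : Lk b P R d 1 c') (h2 : Lk b P R a 1 a') :
    Al P R c c' ∧ b a' - b c' = b a - b c := by
  obtain ⟨w, hw0, w1, w2⟩ := hw
  obtain ⟨w', hw0', w1', w2'⟩ := hw'
  obtain ⟨⟨s1, hs1, e1⟩, t1, ht1, g1⟩ := h1
  obtain ⟨⟨s2, hs2, e2⟩, _⟩ := h2
  obtain ⟨u, hu, u1, u2⟩ := hca
  obtain ⟨v, hv, v1, v2⟩ := hcd
  simp only [lat, dz] at e1 e2 g1
  push_cast at e1 e2 g1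
  rw [v2] at g1 e1
  rw [u2] at e2
  have g1' : R c' = ((t1 * v : ℝ) : ℂ) * R c := by push_cast; linear_combination g1
  have hT : 0 < t1 * v := mul_pos ht1 hv
  have fc2 : Fr (R c') (((t1 * v : ℝ) : ℂ) * P c) := by
    rw [g1']
    exact fc.swap.smul hT.ne'
  rcases fc2.two fc'.swap with h | h
  · refine ⟨⟨t1 * v, hT, h, g1'⟩, ?_⟩
    have : ((w' * (t1 * v) - w : ℝ) : ℂ) * P c + ((w + s1 * v - s2 * u : ℝ) : ℂ) * R c = 0 := by
      rw [h] at w1'
      push_cast at w1' ⊢
      linear_combination w1 + e2 - w2 - e1 - w1'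
    have h5 := (fc.indep this).1
    rw [w1', w1, h]
    have h6 : w' * (t1 * v) = w := by linarith
    rw [← mul_assoc, ← h6]
    push_cast
    ring
  · exfalso
    have : ((-(w' * (t1 * v)) - w : ℝ) : ℂ) * P c +
        ((w + s1 * v + w' * (t1 * v) - s2 * u : ℝ) : ℂ) * R c = 0 := by
      rw [h, g1'] at w1'
      push_cast at w1' ⊢
      linear_combination w1 + e2 - w2 - e1 - w1'
    have h5 := (fc.indep this).1
    have h6 : 0 < w' * (t1 * v) := mul_pos hw0' hT
    linarith

/-- A parallelogram of links. -/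
theorem par_al {r r2 r' r2' : ℕ} (f1 : Fr (P r) (R r)) (f2 : Fr (P r2) (R r2))
    (f3 : Fr (P r') (R r')) (h1 : Lk b P R r 0 r2) (h2 : Lk b P R r 1 r')
    (h3 : Lk b P R r2 1 r2') (h4 : Lk b P R r' 0 r2') : ∃ s : ℝ, 0 < s ∧ P r' = s * P r := by
  obtain ⟨⟨α, hα, e1⟩, a, ha, g1⟩ := h1
  obtain ⟨⟨β, hβ, e2⟩, c, hc, g2⟩ := h2
  obtain ⟨⟨γ, hγ, e3⟩, _⟩ := h3
  obtain ⟨⟨δ, hδ, e4⟩, _⟩ := h4
  simp only [lat, dz] at e1 e2 e3 e4 g1 g2
  push_cast at e1 e2 e3 e4 g1 g2
  have g1' : P r2 = a * P r := by linear_combination g1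
  have g2' : R r' = c * R r := by linear_combination g2
  have k1 : Fr (R r') ((c : ℂ) * P r) := by
    rw [g2']
    exact f1.swap.smul hc.ne'
  rcases k1.two f3.swap with h | h
  · exact ⟨c, hc, h⟩
  · exfalso
    have k2 : Fr (P r2) ((a : ℂ) * R r) := by
      rw [g1']
      exact f1.smul ha.ne'
    have hcd := mul_pos hδ hc
    rcases k2.two f2 with h' | h'
    · have : ((α + δ * c : ℝ) : ℂ) * P r + ((γ * a - β - δ * c : ℝ) : ℂ) * R r = 0 := by
        rw [h'] at e3
        rw [h, g2'] at e4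
        push_cast
        linear_combination e2 + e4 - e1 - e3
      have := (f1.indep this).1
      linarith
    · have : ((α + γ * a + δ * c : ℝ) : ℂ) * P r + ((-(γ * a) - β - δ * c : ℝ) : ℂ) * R r = 0 := by
        rw [h', g1'] at e3
        rw [h, g2'] at e4
        push_cast
        linear_combination e2 + e4 - e1 - e3
      have := (f1.indep this).1
      have := mul_pos hγ ha
      linarith

/-- The line of a pair of stars. -/
theorem ray_line {r r2 p q : ℕ} (h1 : Lk b P R r 0 r2) (h2 : Ry b P R r 3 p)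
    (h3 : Ry b P R r2 0 q) : ∃ s : ℝ, 0 < s ∧ b q - b p = s * P r := by
  obtain ⟨⟨α, hα, e1⟩, a, ha, g1⟩ := h1
  obtain ⟨β, hβ, e2⟩ := h2
  obtain ⟨γ, hγ, e3⟩ := h3
  simp only [lat, dz] at e1 e2 e3 g1
  push_cast at e1 e2 e3 g1
  have g1' : P r2 = a * P r := by linear_combination g1
  rw [g1'] at e3
  refine ⟨α + β + γ * a, by positivity, ?_⟩
  push_cast
  linear_combination e1 - e2 + e3

theorem net_solution {S : List Con} (hS : 0 < S.length)
    (hf : ∀ v ∈ stars S, Fr (P v) (R v))
    (hi : ∀ e ∈ items S, Ry b P R e.1 e.2.1 e.2.2.1 ∧ (e.2.2.2 = true →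
      Lk b P R e.1 e.2.1 e.2.2.1)) :
    ∃ w : ℕ → ℝ, (∀ f < 8 * S.length, 0 < w f) ∧
      (∀ (l f f' : ℕ), (labs S)[f]? = some l → (labs S)[f']? = some l → w f = w f') ∧
      ∀ (k : ℕ) (c : Con), S[k]? = some c → match c with
        | Con.one _ => w (8 * k) = w (8 * k + 1)
        | Con.add _ _ _ => w (8 * k) + w (8 * k + 1) = w (8 * k + 2)
        | Con.mul _ _ _ => (w (8 * k + 1) + w (8 * k + 3)) * (w (8 * k + 4) + w (8 * k + 6)) =
            (w (8 * k + 5) + w (8 * k + 7)) * (w (8 * k) + w (8 * k + 2)) := by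
  -- frames
  have hfr : ∀ f < 8 * S.length, ∀ c < 10, Fr (P (11 * f + c)) (R (11 * f + c)) := by
    intro f h c hc
    exact hf _ (mem_stars.2 (by omega))
  -- links inside a slot
  have hloc : ∀ f < 8 * S.length, ∀ c k c', (c, k, c', true) ∈ Loc →
      Lk b P R (11 * f + c) k (11 * f + c') := by
    intro f h c k c' hm
    exact (hi (sh (11 * f) (c, k, c', true))
      (mem_items.2 (Or.inl ⟨f, h, _, hm, rfl⟩))).2 rfl
  -- the triangles
  have htri : ∀ f < 8 * S.length, ∀ g < 3, Al P R (11 * f + 3 * g) (11 * f + (3 * g + 1)) ∧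
      Al P R (11 * f + 3 * g) (11 * f + (3 * g + 2)) ∧ ∃ w : ℝ, 0 < w ∧
        b (11 * f + (3 * g + 1)) - b (11 * f + 3 * g) = w * P (11 * f + 3 * g) ∧
        b (11 * f + (3 * g + 2)) - b (11 * f + 3 * g) = w * R (11 * f + 3 * g) := by
    intro f h g hg
    interval_cases g
    · exact tri_al (hfr f h 0 (by norm_num)) (hfr f h 1 (by norm_num)) (hfr f h 2 (by norm_num))
        (hloc f h 0 0 1 (by decide)) (hloc f h 0 1 2 (by decide)) (hloc f h 1 2 2 (by decide))
    · exact tri_al (hfr f h 3 (by norm_num)) (hfr f h 4 (by norm_num)) (hfr f h 5 (by norm_num))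
        (hloc f h 3 0 4 (by decide)) (hloc f h 3 1 5 (by decide)) (hloc f h 4 2 5 (by decide))
    · exact tri_al (hfr f h 6 (by norm_num)) (hfr f h 7 (by norm_num)) (hfr f h 8 (by norm_num))
        (hloc f h 6 0 7 (by decide)) (hloc f h 6 1 8 (by decide)) (hloc f h 7 2 8 (by decide))
  -- the columns
  have hcol : ∀ f < 8 * S.length, ∀ g < 2,
      Al P R (11 * f + 3 * g) (11 * f + 3 * (g + 1)) ∧
      b (11 * f + (3 * (g + 1) + 1)) - b (11 * f + 3 * (g + 1)) =
        b (11 * f + (3 * g + 1)) - b (11 * f + 3 * g) := by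
    intro f h g hg
    have t1 := htri f h g (by omega)
    have t2 := htri f h (g + 1) (by omega)
    interval_cases g
    · exact col_al (hfr f h 0 (by norm_num)) (hfr f h 3 (by norm_num)) t1.1 t1.2.1 t1.2.2 t2.2.2
        (hloc f h 2 1 3 (by decide)) (hloc f h 1 1 4 (by decide))
    · exact col_al (hfr f h 3 (by norm_num)) (hfr f h 6 (by norm_num)) t1.1 t1.2.1 t1.2.2 t2.2.2
        (hloc f h 5 1 6 (by decide)) (hloc f h 4 1 7 (by decide))
  -- all frames are aligned
  have hal2 : ∀ f < 8 * S.length, Al P R 6 (11 * f + 6) := by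
    intro f
    induction f with
    | zero => intro _; exact Al.refl 6
    | succ f ih =>
      intro h
      have h' : f < 8 * S.length := by omega
      have a1 := ih h'
      have a2 := (htri f h' 2 (by norm_num)).1
      have i1 := (hi (11 * f + 7, 0, 11 * (f + 1) + 6, true) (mem_items.2 (Or.inr (Or.inl
        ⟨f, h, by simp [al]⟩)))).2 rfl
      have i2 := (hi (11 * (f + 1) + 6, 2, 11 * f + 9, true) (mem_items.2 (Or.inr (Or.inl
        ⟨f, h, by simp [al]⟩)))).2 rfl
      have i3 := hloc f h' 7 1 9 (by decide)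
      have := (tri_al (hfr f h' 7 (by norm_num)) (hfr (f + 1) h 6 (by norm_num))
        (hfr f h' 9 (by norm_num)) i1 i3 i2).1
      exact (a1.trans a2).trans this
  have hal : ∀ f < 8 * S.length, ∀ c < 9, Al P R 6 (11 * f + c) := by
    intro f h c hc
    have a2 := hal2 f h
    have c0 := hcol f h 0 (by norm_num)
    have c1 := hcol f h 1 (by norm_num)
    have a1 : Al P R 6 (11 * f + 3) := a2.trans c1.1.symm
    have a0 : Al P R 6 (11 * f + 0) := a1.trans c0.1.symm
    have t0 := htri f h 0 (by norm_num)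
    have t1 := htri f h 1 (by norm_num)
    have t2 := htri f h 2 (by norm_num)
    interval_cases c
    · exact a0
    · exact a0.trans t0.1
    · exact a0.trans t0.2.1
    · exact a1
    · exact a1.trans t1.1
    · exact a1.trans t1.2.1
    · exact a2
    · exact a2.trans t2.1
    · exact a2.trans t2.2.1
  have f0 : Fr (P 6) (R 6) := by simpa using hfr 0 (by omega) 6 (by norm_num)
  -- coordinates
  choose x y hxy using fun v => f0.decomp (b v)
  have hray : ∀ v k v', Al P R 6 v → Ry b P R v k v' → ∃ s : ℝ, 0 < s ∧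
      x v' - x v = s * (dz k).1 ∧ y v' - y v = s * (dz k).2 := by
    rintro v k v' ⟨t, ht, t1, t2⟩ ⟨s, hs, e⟩
    refine ⟨s * t, mul_pos hs ht, ?_⟩
    rw [lat_al t1 t2, hxy v, hxy v'] at e
    unfold lat at e
    have := f0.indep (x := x v' - x v - s * t * (dz k).1) (y := y v' - y v - s * t * (dz k).2) (by
      push_cast
      linear_combination e)
    exact ⟨by linarith [this.1], by linarith [this.2]⟩
  -- the width of a slot
  have hwid : ∀ f, ∃ w : ℝ, f < 8 * S.length → 0 < w ∧ ∀ g < 3,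
      x (11 * f + (3 * g + 1)) = x (11 * f + 3 * g) + w ∧
      y (11 * f + (3 * g + 1)) = y (11 * f + 3 * g) ∧
      x (11 * f + (3 * g + 2)) = x (11 * f + 3 * g) ∧
      y (11 * f + (3 * g + 2)) = y (11 * f + 3 * g) + w := by
    intro f
    by_cases h : f < 8 * S.length
    · have hg : ∀ g < 3, ∃ w : ℝ, 0 < w ∧
          b (11 * f + (3 * g + 1)) - b (11 * f + 3 * g) = w * P 6 ∧
          b (11 * f + (3 * g + 2)) - b (11 * f + 3 * g) = w * R 6 := by
        intro g hg
        obtain ⟨_, _, w, hw, w1, w2⟩ := htri f h g hg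
        obtain ⟨t, ht, t1, t2⟩ := hal f h (3 * g) (by omega)
        refine ⟨w * t, mul_pos hw ht, ?_, ?_⟩
        · rw [w1, t1]; push_cast; ring
        · rw [w2, t2]; push_cast; ring
      obtain ⟨w0, hw0, u0, v0⟩ := hg 0 (by norm_num)
      obtain ⟨w1, hw1, u1, v1⟩ := hg 1 (by norm_num)
      obtain ⟨w2, hw2, u2, v2⟩ := hg 2 (by norm_num)
      have c0 := (hcol f h 0 (by norm_num)).2
      have c1 := (hcol f h 1 (by norm_num)).2
      have e01 : w1 = w0 := by
        have : ((w1 - w0 : ℝ) : ℂ) * P 6 + ((0 : ℝ) : ℂ) * R 6 = 0 := by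
          push_cast
          linear_combination c0 - u1 + u0
        linarith [(f0.indep this).1]
      have e12 : w2 = w1 := by
        have : ((w2 - w1 : ℝ) : ℂ) * P 6 + ((0 : ℝ) : ℂ) * R 6 = 0 := by
          push_cast
          linear_combination c1 - u2 + u1
        linarith [(f0.indep this).1]
      refine ⟨w0, fun _ => ⟨hw0, fun g hg' => ?_⟩⟩
      have hall : b (11 * f + (3 * g + 1)) - b (11 * f + 3 * g) = w0 * P 6 ∧
          b (11 * f + (3 * g + 2)) - b (11 * f + 3 * g) = w0 * R 6 := by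
        interval_cases g
        · exact ⟨u0, v0⟩
        · rw [e01] at u1 v1; exact ⟨u1, v1⟩
        · rw [e12, e01] at u2 v2; exact ⟨u2, v2⟩
      obtain ⟨h1, h2⟩ := hall
      have q1 := hxy (11 * f + 3 * g)
      have q2 := hxy (11 * f + (3 * g + 1))
      have q3 := hxy (11 * f + (3 * g + 2))
      have i1 := f0.indep (x := x (11 * f + (3 * g + 1)) - x (11 * f + 3 * g) - w0)
        (y := y (11 * f + (3 * g + 1)) - y (11 * f + 3 * g)) (by
        push_cast
        linear_combination h1 - q2 + q1)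
      have i2 := f0.indep (x := x (11 * f + (3 * g + 2)) - x (11 * f + 3 * g))
        (y := y (11 * f + (3 * g + 2)) - y (11 * f + 3 * g) - w0) (by
        push_cast
        linear_combination h2 - q3 + q1)
      exact ⟨by linarith [i1.1], by linarith [i1.2], by linarith [i2.1], by linarith [i2.2]⟩
    · exact ⟨0, fun h' => absurd h' h⟩
  choose w hw using hwid
  refine ⟨w, fun f h => (hw f h).1, ?_, ?_⟩
  · -- equal labels
    have step : ∀ (l f f' : ℕ), (labs S)[f]? = some l → (labs S)[f']? = some l → f < f' →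
        (∀ g, f < g → g < f' → (labs S)[g]? ≠ some l) → w f = w f' := by
      intro l f f' h1 h2 h3 h4
      have k1 := lt_of_labs h1
      have k2 := lt_of_labs h2
      have i1 := (hi (11 * f + 1, 0, 11 * f', true) (mem_items.2 (Or.inr (Or.inr (Or.inl
        ⟨l, f, f', h1, h2, h3, h4, by simp [eqI]⟩))))).1
      have i2 := (hi (11 * f + 2, 0, 11 * f' + 2, true) (mem_items.2 (Or.inr (Or.inr (Or.inl
        ⟨l, f, f', h1, h2, h3, h4, by simp [eqI]⟩))))).1
      obtain ⟨s1, _, _, e1⟩ := hray _ _ _ (hal f k1 1 (by norm_num)) i1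
      obtain ⟨s2, _, _, e2⟩ := hray _ _ _ (hal f k1 2 (by norm_num)) i2
      have q1 := (hw f k1).2 0 (by norm_num)
      have q2 := (hw f' k2).2 0 (by norm_num)
      simp only [dz, mul_zero, zero_add, add_zero, Int.cast_zero] at e1 e2 q1 q2
      linarith [q1.2.1, q1.2.2.2, q2.2.2.2]
    have lt_case : ∀ (n l f f' : ℕ), f' - f = n → (labs S)[f]? = some l →
        (labs S)[f']? = some l → f < f' → w f = w f' := by
      intro n
      induction n using Nat.strong_induction_on with
      | _ n ih =>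
        intro l f f' hn h1 h2 h3
        by_cases h4 : ∀ g, f < g → g < f' → (labs S)[g]? ≠ some l
        · exact step l f f' h1 h2 h3 h4
        · push Not at h4
          obtain ⟨g, g1, g2, g3⟩ := h4
          exact (ih (g - f) (by omega) l f g rfl h1 g3 g1).trans
            (ih (f' - g) (by omega) l g f' rfl g3 h2 g2)
    intro l f f' h1 h2
    rcases lt_trichotomy f f' with h | h | h
    · exact lt_case _ l f f' rfl h1 h2 h
    · rw [h]
    · exact (lt_case _ l f' f rfl h2 h1 h).symm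
  · -- the gadgets
    intro k c hc
    have hk := lt_of_get hc
    have hg : ∀ e₀ ∈ gad c, Ry b P R (88 * k + e₀.1) e₀.2.1 (88 * k + e₀.2.2.1) ∧
        (e₀.2.2.2 = true → Lk b P R (88 * k + e₀.1) e₀.2.1 (88 * k + e₀.2.2.1)) := by
      intro e₀ h₀
      exact hi (sh (88 * k) e₀) (mem_items.2 (Or.inr (Or.inr (Or.inr ⟨k, c, hc, e₀, h₀, rfl⟩))))
    -- aligned nodes of the block
    have hab : ∀ r < 8, ∀ c < 9, Al P R 6 (88 * k + (11 * r + c)) := by
      intro r hr c' hc'
      have := hal (8 * k + r) (by omega) c' hc'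
      have e : 11 * (8 * k + r) + c' = 88 * k + (11 * r + c') := by ring
      rwa [e] at this
    have hwb : ∀ r < 8, x (88 * k + (11 * r + 4)) = x (88 * k + (11 * r + 3)) + w (8 * k + r) ∧
        y (88 * k + (11 * r + 4)) = y (88 * k + (11 * r + 3)) ∧
        x (88 * k + (11 * r + 5)) = x (88 * k + (11 * r + 3)) ∧
        y (88 * k + (11 * r + 5)) = y (88 * k + (11 * r + 3)) + w (8 * k + r) := by
      intro r hr
      have := (hw (8 * k + r) (by omega)).2 1 (by norm_num)
      have e1 : 11 * (8 * k + r) + (3 * 1 + 1) = 88 * k + (11 * r + 4) := by ring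
      have e2 : 11 * (8 * k + r) + 3 * 1 = 88 * k + (11 * r + 3) := by ring
      have e3 : 11 * (8 * k + r) + (3 * 1 + 2) = 88 * k + (11 * r + 5) := by ring
      rwa [e1, e2, e3] at this
    have hR : ∀ r < 8, ∀ c' < 9, ∀ k' v' m, (11 * r + c', k', v', m) ∈ gad c → ∃ s : ℝ, 0 < s ∧
        x (88 * k + v') - x (88 * k + (11 * r + c')) = s * (dz k').1 ∧
        y (88 * k + v') - y (88 * k + (11 * r + c')) = s * (dz k').2 := by
      intro r hr c' hc' k' v' m hm
      exact hray _ _ _ (hab r hr c' hc') (hg _ hm).1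
    cases c with
    | one i =>
      obtain ⟨s1, _, _, e1⟩ := hR 0 (by norm_num) 4 (by norm_num) 0 14 true (by simp [gad])
      obtain ⟨s2, _, _, e2⟩ := hR 0 (by norm_num) 5 (by norm_num) 0 16 true (by simp [gad])
      have w0 := hwb 0 (by norm_num)
      have w1 := hwb 1 (by norm_num)
      simp only [dz, mul_zero, zero_add, add_zero, Int.cast_zero, mul_one, Nat.reduceAdd]
        at e1 e2 w0 w1
      dsimp only
      linarith [w0.2.1, w0.2.2.2, w1.2.2.2]
    | add i j l =>
      obtain ⟨s1, _, _, e1⟩ := hR 0 (by norm_num) 4 (by norm_num) 0 25 true (by simp [gad])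
      obtain ⟨s2, _, _, e2⟩ := hR 0 (by norm_num) 5 (by norm_num) 0 14 true (by simp [gad])
      obtain ⟨s3, _, _, e3⟩ := hR 1 (by norm_num) 5 (by norm_num) 0 27 true (by simp [gad])
      have w0 := hwb 0 (by norm_num)
      have w1 := hwb 1 (by norm_num)
      have w2 := hwb 2 (by norm_num)
      simp only [dz, mul_zero, zero_add, add_zero, Int.cast_zero, mul_one, Nat.reduceAdd,
        Nat.reduceMul] at e1 e2 e3 w0 w1 w2
      dsimp only
      linarith [w0.2.1, w0.2.2.2, w1.2.2.2, w2.2.2.2]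
    | mul i j l =>
      -- first half
      obtain ⟨s1, _, a1, b1⟩ := hR 0 (by norm_num) 4 (by norm_num) 0 27 true (by simp [gad])
      obtain ⟨s2, _, a2, b2⟩ := hR 1 (by norm_num) 4 (by norm_num) 5 36 true (by simp [gad])
      obtain ⟨s3, _, a3, b3⟩ := hR 0 (by norm_num) 5 (by norm_num) 0 10 false (by simp [gad])
      obtain ⟨s4, _, a4, b4⟩ := hR 1 (by norm_num) 3 (by norm_num) 5 10 false (by simp [gad])
      obtain ⟨s5, _, a5, b5⟩ := hR 2 (by norm_num) 3 (by norm_num) 3 21 false (by simp [gad])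
      obtain ⟨s6, _, a6, b6⟩ := hR 3 (by norm_num) 5 (by norm_num) 2 21 false (by simp [gad])
      have w0 := hwb 0 (by norm_num)
      have w1 := hwb 1 (by norm_num)
      have w2 := hwb 2 (by norm_num)
      have w3 := hwb 3 (by norm_num)
      simp only [dz, mul_zero, zero_add, add_zero, Int.cast_zero, mul_one, Nat.reduceAdd,
        Nat.reduceMul, Int.cast_one, Int.cast_neg, mul_neg] at a1 b1 a2 b2 a3 b3 a4 b4 a5 b5 a6 b6
      simp only [add_zero, Nat.reduceAdd, Nat.reduceMul, mul_zero, zero_add] at w0 w1 w2 w3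
      have y1 : y (88 * k + 21) - y (88 * k + 10) = -(w (8 * k) + w (8 * k + 2)) := by
        linarith [w0.2.1, w0.2.2.2, w2.2.2.2]
      have u1 : (x (88 * k + 21) + y (88 * k + 21)) - (x (88 * k + 10) + y (88 * k + 10)) =
          w (8 * k + 1) + w (8 * k + 3) := by
        linarith [w1.1, w1.2.1, w3.2.2.1, w3.2.2.2]
      -- second half
      obtain ⟨s1', _, a1', b1'⟩ := hR 4 (by norm_num) 4 (by norm_num) 0 71 true (by simp [gad])
      obtain ⟨s2', _, a2', b2'⟩ := hR 5 (by norm_num) 4 (by norm_num) 5 80 true (by simp [gad])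
      obtain ⟨s3', _, a3', b3'⟩ := hR 4 (by norm_num) 5 (by norm_num) 0 32 false (by simp [gad])
      obtain ⟨s4', _, a4', b4'⟩ := hR 5 (by norm_num) 3 (by norm_num) 5 32 false (by simp [gad])
      obtain ⟨s5', _, a5', b5'⟩ := hR 6 (by norm_num) 3 (by norm_num) 3 43 false (by simp [gad])
      obtain ⟨s6', _, a6', b6'⟩ := hR 7 (by norm_num) 5 (by norm_num) 2 43 false (by simp [gad])
      have w4 := hwb 4 (by norm_num)
      have w5 := hwb 5 (by norm_num)
      have w6 := hwb 6 (by norm_num)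
      have w7 := hwb 7 (by norm_num)
      simp only [dz, mul_zero, zero_add, add_zero, Int.cast_zero, mul_one, Nat.reduceAdd,
        Nat.reduceMul, Int.cast_one, Int.cast_neg, mul_neg] at a1' b1' a2' b2' a3' b3'
      simp only [dz, mul_zero, zero_add, add_zero, Int.cast_zero, mul_one, Nat.reduceAdd,
        Nat.reduceMul, Int.cast_one, Int.cast_neg, mul_neg] at a4' b4' a5' b5' a6' b6'
      simp only [add_zero, Nat.reduceAdd, Nat.reduceMul, mul_zero, zero_add] at w4 w5 w6 w7
      have y2 : y (88 * k + 43) - y (88 * k + 32) = -(w (8 * k + 4) + w (8 * k + 6)) := by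
        linarith [w4.2.1, w4.2.2.2, w6.2.2.2]
      have u2 : (x (88 * k + 43) + y (88 * k + 43)) - (x (88 * k + 32) + y (88 * k + 32)) =
          w (8 * k + 5) + w (8 * k + 7) := by
        linarith [w5.1, w5.2.1, w7.2.2.1, w7.2.2.2]
      -- the two lines are parallel
      have hst : ∀ v < 88, 44 ≤ v → Fr (P (88 * k + v)) (R (88 * k + v)) := fun v h1 h2 =>
        hf _ (mem_stars.2 (by omega))
      have l1 := (hg (54, 0, 65, true) (by simp [gad])).2 rfl
      have l2 := (hg (76, 0, 87, true) (by simp [gad])).2 rfl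
      have l3 := (hg (54, 1, 76, true) (by simp [gad])).2 rfl
      have l4 := (hg (65, 1, 87, true) (by simp [gad])).2 rfl
      obtain ⟨t, ht, ht'⟩ := par_al (hst 54 (by norm_num) (by norm_num))
        (hst 65 (by norm_num) (by norm_num)) (hst 76 (by norm_num) (by norm_num)) l1 l3 l4 l2
      obtain ⟨α, hα, hα'⟩ := ray_line l1 (hg (54, 3, 10, false) (by simp [gad])).1
        (hg (65, 0, 21, false) (by simp [gad])).1
      obtain ⟨β, hβ, hβ'⟩ := ray_line l2 (hg (76, 3, 32, false) (by simp [gad])).1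
        (hg (87, 0, 43, false) (by simp [gad])).1
      dsimp only at hα' hβ' ht'
      rw [ht'] at hβ'
      obtain ⟨gx, gy, hgg⟩ := f0.decomp (P (88 * k + 54))
      rw [hgg, hxy (88 * k + 21), hxy (88 * k + 10)] at hα'
      rw [hgg, hxy (88 * k + 43), hxy (88 * k + 32)] at hβ'
      have q1 := f0.indep (x := x (88 * k + 21) - x (88 * k + 10) - α * gx)
        (y := y (88 * k + 21) - y (88 * k + 10) - α * gy) (by
        push_cast
        linear_combination hα')
      have q2 := f0.indep (x := x (88 * k + 43) - x (88 * k + 32) - β * t * gx)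
        (y := y (88 * k + 43) - y (88 * k + 32) - β * t * gy) (by
        push_cast
        linear_combination hβ')
      have d1 : α * gy = -(w (8 * k) + w (8 * k + 2)) := by linarith [q1.2]
      have d2 : α * gx + α * gy = w (8 * k + 1) + w (8 * k + 3) := by linarith [q1.1, q1.2]
      have d3 : β * t * gy = -(w (8 * k + 4) + w (8 * k + 6)) := by linarith [q2.2]
      have d4 : β * t * gx + β * t * gy = w (8 * k + 5) + w (8 * k + 7) := by
        linarith [q2.1, q2.2]
      dsimp only
      have e1 : w (8 * k + 4) + w (8 * k + 6) = -(β * t * gy) := by linarith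
      have e2 : w (8 * k) + w (8 * k + 2) = -(α * gy) := by linarith
      rw [← d2, ← d4, e1, e2]
      ring

theorem slot_get {S : List Con} {k : ℕ} {c : Con} (h : S[k]? = some c) {r l : ℕ} (hr : r < 8)
    (hl : (slots c)[r]? = some l) : (labs S)[8 * k + r]? = some l := by
  rw [labs_get S k c r h hr, hl]

/-- A drawing of the graph of a system gives a solution. -/
theorem sat_of_good {S : List Con} {z : ℕ → ℂ}
    (h : Good (netE (stars S) (items S)) (13 * (88 * S.length)) z) : Sat S := by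
  rcases Nat.eq_zero_or_pos S.length with h0 | h0
  · have : S = [] := List.length_eq_zero_iff.1 h0
    subst this
    exact ⟨fun _ => 0, fun c hc => by simp at hc⟩
  obtain ⟨b, P, R, hf, hi⟩ := net_sound (wf_items S) h
  obtain ⟨w, hw, hlab, hg⟩ := net_solution (b := b) (P := P) (R := R) h0 hf
    (fun e he => ⟨(hi e he).1, fun hm => ⟨(hi e he).1, (hi e he).2 hm⟩⟩)
  -- the unit
  have h3 : ∀ k c, S[k]? = some c → (labs S)[8 * k + 3]? = some 0 := by
    intro k c hc
    apply slot_get hc (by norm_num)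
    cases c <;> rfl
  obtain ⟨c0, hc0⟩ : ∃ c0, S[0]? = some c0 := ⟨S[0], List.getElem?_eq_getElem h0⟩
  have hu := h3 0 c0 hc0
  set e := w 3 with he
  have he0 : 0 < e := hw 3 (by omega)
  have hz : ∀ f, (labs S)[f]? = some 0 → w f = e := fun f hf => hlab 0 f 3 hf hu
  classical
  set val : ℕ → ℝ := fun i => if h : ∃ f, (labs S)[f]? = some (i + 1) then w h.choose / e else 1
    with hval
  have hv : ∀ i f, (labs S)[f]? = some (i + 1) → w f = val i * e := by
    intro i f hf
    have hex : ∃ f, (labs S)[f]? = some (i + 1) := ⟨f, hf⟩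
    simp only [hval]
    rw [dif_pos hex, div_mul_cancel₀ _ he0.ne']
    exact hlab (i + 1) f _ hf hex.choose_spec
  refine ⟨val, fun c hc => ?_⟩
  obtain ⟨k, hk⟩ := List.mem_iff_getElem?.1 hc
  have hgk := hg k c hk
  cases c with
  | one i =>
    have w0 := hv i (8 * k) (by simpa using slot_get hk (r := 0) (l := i + 1) (by norm_num) rfl)
    have w1 := hz (8 * k + 1) (slot_get hk (r := 1) (l := 0) (by norm_num) rfl)
    simp only [Con.Holds]
    dsimp only at hgk
    rw [w0, w1] at hgk
    field_simp at hgk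
    linarith
  | add i j l =>
    have w0 := hv i (8 * k) (by simpa using slot_get hk (r := 0) (l := i + 1) (by norm_num) rfl)
    have w1 := hv j (8 * k + 1) (slot_get hk (r := 1) (l := j + 1) (by norm_num) rfl)
    have w2 := hv l (8 * k + 2) (slot_get hk (r := 2) (l := l + 1) (by norm_num) rfl)
    simp only [Con.Holds]
    dsimp only at hgk
    rw [w0, w1, w2] at hgk
    have : (val i + val j) * e = val l * e := by linarith
    exact mul_right_cancel₀ he0.ne' this
  | mul i j l =>
    have w0 := hv i (8 * k) (by simpa using slot_get hk (r := 0) (l := i + 1) (by norm_num) rfl)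
    have w1 := hz (8 * k + 1) (slot_get hk (r := 1) (l := 0) (by norm_num) rfl)
    have w2 := hv i (8 * k + 2) (slot_get hk (r := 2) (l := i + 1) (by norm_num) rfl)
    have w3 := hz (8 * k + 3) (slot_get hk (r := 3) (l := 0) (by norm_num) rfl)
    have w4 := hv l (8 * k + 4) (slot_get hk (r := 4) (l := l + 1) (by norm_num) rfl)
    have w5 := hv j (8 * k + 5) (slot_get hk (r := 5) (l := j + 1) (by norm_num) rfl)
    have w6 := hv l (8 * k + 6) (slot_get hk (r := 6) (l := l + 1) (by norm_num) rfl)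
    have w7 := hv j (8 * k + 7) (slot_get hk (r := 7) (l := j + 1) (by norm_num) rfl)
    simp only [Con.Holds]
    dsimp only at hgk
    rw [w0, w1, w2, w3, w4, w5, w6, w7] at hgk
    have : (val i * val j) * (4 * e ^ 2) = val l * (4 * e ^ 2) := by linear_combination -hgk
    exact mul_right_cancel₀ (by positivity) this

end Pool.Agent.NPC.ER.AR
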