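import Pool.Agent.H606R2.AR.PolyT
import Pool.Agent.H606R2.AR.Sound
import Pool.Agent.H606R2.AR.Complete
import Pool.Agent.H606R2.AR.Member

/-!
# Correctness of the reduction
-/

namespace Pool.Agent.NPC.ER.AR

open Pool.Agent.NPC.ER.Faith (pos pos_sound pos_complete)

theorem netE_ok {N : ℕ} {st : List ℕ} {it : List Item} (hw : WF N st it) :
    ∀ p ∈ netE st it, p.1 < 13 * N ∧ p.2 < 13 * N ∧ p.1 ≠ p.2 := by
  intro p hp
  unfold netE at hp
  rw [List.mem_append, List.mem_flatMap, List.mem_map] at hp
  rcases hp with ⟨i, hi, h1⟩ | ⟨e, he, rfl⟩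
  · rw [List.mem_map] at h1
    obtain ⟨q, hq, rfl⟩ := h1
    have h2 := se_lt q hq
    have h3 := hw.st_lt i hi
    have h4 : ∀ q ∈ SE, q.1 ≠ q.2 := by decide
    have h5 := h4 q hq
    dsimp only
    omega
  · have h1 := hw.st_lt _ (hw.src e he)
    have h2 := hw.dir e he
    have h3 := hw.tgt_lt e he
    have h4 := hw.ne e he
    have h5 : (e.2.1 + 3) % 6 < 6 := Nat.mod_lt _ (by norm_num)
    simp only [edgeOf]
    split_ifs <;> omega

theorem adj_red (S : List Con) (u v : ℕ) :
    AdjE (clean (red S)) u v ↔ AdjE (netE (stars (pos S)) (items (pos S))) u v := by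
  have h : ∀ e, e ∈ clean (red S) ↔ e ∈ netE (stars (pos S)) (items (pos S)) := by
    intro e
    rw [mem_clean]
    exact ⟨fun h => h.1, fun h => ⟨h, netE_ok (wf_items (pos S)) e h⟩⟩
  unfold AdjE
  rw [h, h]

theorem red_correct (S : List Con) : Sat S ↔ AR (Real.pi / 3) (red S) := by
  rw [ar_iff]
  constructor
  · intro h
    obtain ⟨v, hv, hs⟩ := pos_complete h
    obtain ⟨z, hz⟩ := good_of_pos hv hs
    exact ⟨z, hz.inj, fun v u w h1 h2 h3 =>
      hz.ang v u w ((adj_red S v u).1 h1) ((adj_red S v w).1 h2) h3⟩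
  · rintro ⟨z, hz⟩
    exact pos_sound (sat_of_good (z := z) ⟨hz.inj, fun v u w h1 h2 h3 =>
      hz.ang v u w ((adj_red S v u).2 h1) ((adj_red S v w).2 h2) h3⟩)

theorem length_flatMap_const {β γ : Type} (c : ℕ) (g : β → List γ) (hg : ∀ b, (g b).length = c) :
    ∀ l : List β, (l.flatMap g).length = c * l.length
  | [] => by simp
  | b :: l => by
    rw [List.flatMap_cons, List.length_append, length_flatMap_const c g hg l, hg,
      List.length_cons]
    ring

theorem red_length (S : List Con) : (red S).1 ≤ (red S).2.length := by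
  have h1 : (stars (pos S)).length = 84 * (pos S).length := by
    unfold stars
    rw [List.length_append, length_flatMap_const 10, length_flatMap_const 4, List.length_range,
      List.length_range]
    · ring
    · intro b; rfl
    · intro b; simp
  unfold red netE
  dsimp only
  rw [List.length_append, length_flatMap_const 24, h1]
  · omega
  · intro b
    rw [List.length_map]
    rfl

/-- `AR(π/3)` is `∃ℝ`-hard. -/
theorem ar_hard : ERHard (lang (AR (Real.pi / 3))) := ERHard.of_sys poly_red red_correct

end Pool.Agent.NPC.ER.AR
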