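import Pool.Agent.H606R2.AR.Star

/-!
# Drawings of networks of stars
-/

namespace Pool.Agent.NPC.ER.AR

theorem off_succ {k : ℕ} (hk : k < 6) : off (k + 1) = dz k := by
  interval_cases k <;> rfl

theorem dz_opp {k : ℕ} (hk : k < 6) : dz ((k + 3) % 6) = -dz k := by
  interval_cases k <;> rfl

theorem lat_neg (P R : ℂ) (q : ℤ × ℤ) : lat P R (-q) = -lat P R q := by
  unfold lat
  push_cast [Prod.fst_neg, Prod.snd_neg]
  ring

theorem lat_zero (P R : ℂ) : lat P R (0, 0) = 0 := by simp [lat]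

/-- What a drawing of a network says about the positions and the frames of the nodes. -/
theorem net_sound {N : ℕ} {st : List ℕ} {it : List Item} {z : ℕ → ℂ} (hw : WF N st it)
    (h : Good (netE st it) (13 * N) z) : ∃ b P R : ℕ → ℂ, (∀ v ∈ st, Fr (P v) (R v)) ∧
      ∀ e ∈ it, (∃ s : ℝ, 0 < s ∧ b e.2.2.1 - b e.1 = s * lat (P e.1) (R e.1) (dz e.2.1)) ∧
        (e.2.2.2 = true → ∃ s : ℝ, 0 < s ∧ lat (P e.2.2.1) (R e.2.2.1) (dz e.2.1) =
          s * lat (P e.1) (R e.1) (dz e.2.1)) := by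
  have h1 : ∀ v, ∃ P R : ℂ, v ∈ st → Fr P R ∧
      ∀ l < 13, z (13 * v + l) = z (13 * v) + lat P R (off l) := by
    intro v
    by_cases hv : v ∈ st
    · have := hw.st_lt v hv
      obtain ⟨b, P, R, hf, hz⟩ := star_rigid h (netE_star hv) (by omega)
      refine ⟨P, R, fun _ => ⟨hf, fun l hl => ?_⟩⟩
      have h0 := hz 0 (by norm_num)
      rw [add_zero] at h0
      rw [hz l hl, h0, off, lat_zero, add_zero]
    · exact ⟨0, 0, fun h => absurd h hv⟩
  choose P R hPR using h1
  refine ⟨fun v => z (13 * v), P, R, fun v hv => (hPR v hv).1, fun e he => ?_⟩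
  obtain ⟨v, k, v', m⟩ := e
  have hs := hw.src _ he
  have hk := hw.dir _ he
  have ht := hw.tgt_lt _ he
  have hne := hw.ne _ he
  have hsl := hw.st_lt _ hs
  have hed := netE_item (st := st) he
  dsimp only [edgeOf] at hs hk ht hne hsl hed ⊢
  have hP := hPR v hs
  cases m with
  | true =>
    simp only [if_true] at hed
    have hl := hw.link _ he rfl
    dsimp only at hl
    have hP' := hPR v' hl
    have hk3 : (k + 3) % 6 < 6 := Nat.mod_lt _ (by norm_num)
    obtain ⟨t, ht0, e1⟩ := port_dir h (netE_star hs) (by omega) hP.1 hP.2 hk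
      (w := 13 * v' + ((k + 3) % 6 + 1)) (by omega) (fun l hl => by omega) (Or.inl hed)
    obtain ⟨t', ht0', e2⟩ := port_dir h (netE_star hl) (by omega) hP'.1 hP'.2 hk3
      (w := 13 * v + (k + 1)) (by omega) (fun l hl => by omega) (Or.inr hed)
    rw [dz_opp hk, lat_neg] at e2
    have z1 := hP.2 (k + 1) (by omega)
    have z2 := hP'.2 ((k + 3) % 6 + 1) (by omega)
    rw [off_succ hk] at z1
    rw [off_succ hk3, dz_opp hk, lat_neg] at z2
    have e3 : lat (P v') (R v') (dz k) = ((t / t' : ℝ) : ℂ) * lat (P v) (R v) (dz k) := by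
      have h5 : (t' : ℂ) ≠ 0 := by exact_mod_cast ht0'.ne'
      push_cast
      field_simp
      linear_combination e1 + e2
    refine ⟨⟨t + 1 + t / t', by positivity, ?_⟩, fun _ => ⟨t / t', by positivity, e3⟩⟩
    push_cast at e3 ⊢
    linear_combination e1 - z2 + z1 + e3
  | false =>
    simp only [Bool.false_eq_true, if_false, add_zero] at hed
    obtain ⟨t, ht0, e1⟩ := port_dir h (netE_star hs) (by omega) hP.1 hP.2 hk
      (w := 13 * v') (by omega) (fun l hl => by omega) (Or.inl hed)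
    have z1 := hP.2 (k + 1) (by omega)
    rw [off_succ hk] at z1
    refine ⟨⟨t + 1, by positivity, ?_⟩, fun h => by simp at h⟩
    push_cast
    linear_combination e1 + z1

/-! ### Drawing a network -/

/-- twice the inner product of lattice vectors -/
def zip2 (q q' : ℤ × ℤ) : ℤ := 2 * q.1 * q'.1 + 2 * q.2 * q'.2 + q.1 * q'.2 + q.2 * q'.1

theorem ip_lat {P R : ℂ} (h : Fr P R) (q q' : ℤ × ℤ) :
    ip (lat P R q) (lat P R q') = zip2 q q' / 2 * ip P P := by
  have hrr := h.rr
  have hpr := h.pr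
  have : ip (lat P R q) (lat P R q') = q.1 * q'.1 * ip P P + q.2 * q'.2 * ip R R +
      (q.1 * q'.2 + q.2 * q'.1) * ip P R := by
    unfold lat ip
    simp
    ring
  rw [this, hrr, hpr, zip2]
  push_cast
  ring

theorem norm_lat_dz {P R : ℂ} (h : Fr P R) {k : ℕ} (hk : k < 6) :
    ‖lat P R (dz k)‖ = ‖P‖ := by
  have h1 := norm_sq_eq (lat P R (dz k))
  rw [ip_lat h] at h1
  have h2 : zip2 (dz k) (dz k) = 2 := by interval_cases k <;> rfl
  rw [h2] at h1
  norm_num at h1
  rw [← norm_sq_eq P] at h1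
  exact (pow_left_inj₀ (norm_nonneg _) (norm_nonneg _) two_ne_zero).1 h1

theorem ip_smul (s t : ℝ) (z w : ℂ) : ip (s * z) (t * w) = s * t * ip z w := by
  unfold ip
  simp
  ring

theorem cd_smul {s t : ℝ} (hs : 0 < s) (ht : 0 < t) {z w : ℂ} (h : Cd z w) :
    Cd (s * z) (t * w) := by
  unfold Cd at *
  rw [ip_smul, norm_mul, norm_mul, Complex.norm_real, Complex.norm_real, Real.norm_of_nonneg hs.le,
    Real.norm_of_nonneg ht.le]
  have : 0 < s * t := mul_pos hs ht
  nlinarith

theorem cd_dz {P R : ℂ} (h : Fr P R) {k k' : ℕ} (hk : k < 6) (hk' : k' < 6) (hne : k ≠ k') :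
    Cd (lat P R (dz k)) (lat P R (dz k')) := by
  unfold Cd
  rw [ip_lat h, norm_lat_dz h hk, norm_lat_dz h hk', ← sq, norm_sq_eq]
  have h1 : zip2 (dz k) (dz k') ≤ 1 := by
    interval_cases k <;> interval_cases k' <;> first | exact absurd rfl hne | decide
  have h2 : ((zip2 (dz k) (dz k') : ℤ) : ℝ) ≤ 1 := by exact_mod_cast h1
  nlinarith [h.pp]

theorem off_inj : ∀ l < 13, ∀ l' < 13, off l = off l' → l = l' := by decide

theorem se_lt : ∀ p ∈ SE, p.1 < 13 ∧ p.2 < 13 := by decide

theorem se_dir : ∀ p ∈ SE, ∃ k < 6, off p.2 = off p.1 + dz k := by decide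

theorem se_dir' : ∀ p ∈ SE, ∃ k < 6, off p.1 = off p.2 + dz k := by decide

theorem port_free : ∀ k < 6, ∀ l < 13, off l ≠ off (k + 1) + dz k := by decide

/-- a finite family of distinct points is separated -/
theorem exists_sep (N : ℕ) (b : ℕ → ℂ) (hb : ∀ v < N, ∀ v' < N, b v = b v' → v = v') :
    ∃ d : ℝ, 0 < d ∧ ∀ v < N, ∀ v' < N, v ≠ v' → d ≤ ‖b v - b v'‖ := by
  classical
  set s : Finset ℝ := ((Finset.range N ×ˢ Finset.range N).filter fun p => p.1 ≠ p.2).image
    fun p => ‖b p.1 - b p.2‖ with hs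
  by_cases hne : s.Nonempty
  · refine ⟨s.min' hne, ?_, fun v hv v' hv' h => ?_⟩
    · obtain ⟨p, hp, e⟩ := Finset.mem_image.1 (s.min'_mem hne)
      rw [Finset.mem_filter, Finset.mem_product, Finset.mem_range, Finset.mem_range] at hp
      rw [← e]
      exact norm_pos_iff.2 (sub_ne_zero.2 fun h => hp.2 (hb _ hp.1.1 _ hp.1.2 h))
    · apply Finset.min'_le
      rw [hs, Finset.mem_image]
      exact ⟨(v, v'), by simp [hv, hv', h], rfl⟩
  · refine ⟨1, one_pos, fun v hv v' hv' h => ?_⟩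
    exfalso
    apply hne
    exact ⟨_, Finset.mem_image.2 ⟨(v, v'), by simp [hv, hv', h], rfl⟩⟩

/-- Positions and frames of the nodes of a network which give a drawing. -/
structure Pos (N : ℕ) (it : List Item) (b U V : ℕ → ℂ) : Prop where
  inj : ∀ v < N, ∀ v' < N, b v = b v' → v = v'
  unit : ∀ v, ‖U v‖ = 1
  fr : ∀ v, Fr (U v) (V v)
  pos : ∀ e ∈ it, ∃ s : ℝ, 0 < s ∧ b e.2.2.1 - b e.1 = s * lat (U e.1) (V e.1) (dz e.2.1)
  frame : ∀ e ∈ it, e.2.2.2 = true → U e.2.2.1 = U e.1 ∧ V e.2.2.1 = V e.1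
  mere : ∀ e ∈ it, ∀ e' ∈ it, e.2.2.2 = false → e'.2.2.2 = false → e.2.2.1 = e'.2.2.1 →
    edgeOf e ≠ edgeOf e' →
    Cd (lat (U e.1) (V e.1) (dz e.2.1)) (lat (U e'.1) (V e'.1) (dz e'.2.1))

/-- Every port is used at most once. -/
structure Uniq (it : List Item) : Prop where
  ss : ∀ e ∈ it, ∀ e' ∈ it, (edgeOf e).1 = (edgeOf e').1 → (edgeOf e).2 = (edgeOf e').2
  st : ∀ e ∈ it, ∀ e' ∈ it, e'.2.2.2 = true → (edgeOf e).1 ≠ (edgeOf e').2
  tt : ∀ e ∈ it, ∀ e' ∈ it, e.2.2.2 = true → e'.2.2.2 = true →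
    (edgeOf e).2 = (edgeOf e').2 → (edgeOf e).1 = (edgeOf e').1

theorem norm_off {P R : ℂ} (h : Fr P R) (h1 : ‖P‖ = 1) {l : ℕ} (hl : l < 13) :
    ‖lat P R (off l)‖ ≤ 2 := by
  have h2 : ‖lat P R (off l)‖ ^ 2 ≤ 4 := by
    rw [norm_sq_eq, ip_lat h, ← norm_sq_eq, h1]
    have h3 : zip2 (off l) (off l) ≤ 8 := by
      interval_cases l <;> decide
    have h4 : ((zip2 (off l) (off l) : ℤ) : ℝ) ≤ 8 := by exact_mod_cast h3
    linarith
  nlinarith [norm_nonneg (lat P R (off l))]

theorem net_draw {N : ℕ} {st : List ℕ} {it : List Item} {b U V : ℕ → ℂ} (hw : WF N st it)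
    (hu : Uniq it) (hp : Pos N it b U V) : ∃ z, Good (netE st it) (13 * N) z := by
  obtain ⟨d, hd, hsep⟩ := exists_sep N b hp.inj
  set a : ℝ := d / 8 with ha
  have ha0 : 0 < a := by positivity
  set z : ℕ → ℂ := fun x => b (x / 13) + a * lat (U (x / 13)) (V (x / 13)) (off (x % 13)) with hz
  have hzl : ∀ v, ∀ l < 13, z (13 * v + l) = b v + a * lat (U v) (V v) (off l) := by
    intro v l hl
    simp only [hz]
    have e1 : (13 * v + l) / 13 = v := by omega
    have e2 : (13 * v + l) % 13 = l := by omega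
    rw [e1, e2]
  have hz0 : ∀ v, z (13 * v) = b v := by
    intro v
    have := hzl v 0 (by norm_num)
    rw [add_zero, off, lat_zero, mul_zero, add_zero] at this
    exact this
  have ha' : ∀ w : ℂ, ‖(a : ℂ) * w‖ = a * ‖w‖ := by
    intro w
    rw [norm_mul, Complex.norm_real, Real.norm_of_nonneg ha0.le]
  refine ⟨z, ?_, ?_⟩
  · -- injectivity
    intro x hx y hy hxy
    obtain ⟨v, l, hl, rfl⟩ : ∃ v l, l < 13 ∧ x = 13 * v + l :=
      ⟨x / 13, x % 13, Nat.mod_lt _ (by norm_num), by omega⟩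
    obtain ⟨v', l', hl', rfl⟩ : ∃ v l, l < 13 ∧ y = 13 * v + l :=
      ⟨y / 13, y % 13, Nat.mod_lt _ (by norm_num), by omega⟩
    rw [hzl v l hl, hzl v' l' hl'] at hxy
    by_cases hvv : v = v'
    · subst hvv
      have h1 : (a : ℂ) * lat (U v) (V v) (off l) = a * lat (U v) (V v) (off l') := by
        linear_combination hxy
      have h2 : lat (U v) (V v) (off l) = lat (U v) (V v) (off l') :=
        mul_left_cancel₀ (by exact_mod_cast ha0.ne') h1
      unfold lat at h2
      have h3 := (hp.fr v).indep' (x := (off l).1) (y := (off l).2) (x' := (off l').1)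
        (y' := (off l').2) (by push_cast; exact h2)
      have h4 : off l = off l' := Prod.ext (by exact_mod_cast h3.1) (by exact_mod_cast h3.2)
      rw [off_inj l hl l' hl' h4]
    · exfalso
      have h1 := hsep v (by omega) v' (by omega) hvv
      have h2 : b v - b v' = a * lat (U v') (V v') (off l') - a * lat (U v) (V v) (off l) := by
        linear_combination hxy
      have h3 : ‖b v - b v'‖ ≤ a * 2 + a * 2 := by
        rw [h2]
        refine (norm_sub_le _ _).trans ?_
        rw [ha', ha']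
        have n1 := norm_off (hp.fr v') (hp.unit v') hl'
        have n2 := norm_off (hp.fr v) (hp.unit v) hl
        nlinarith
      have : a * 2 + a * 2 = d / 2 := by rw [ha]; ring
      rw [this] at h3
      linarith
  · -- angles
    -- the length of an item
    have hlen : ∀ e ∈ it, ∃ s : ℝ, 2 * a < s ∧
        b e.2.2.1 - b e.1 = s * lat (U e.1) (V e.1) (dz e.2.1) := by
      intro e he
      obtain ⟨s, hs, h1⟩ := hp.pos e he
      refine ⟨s, ?_, h1⟩
      have h2 := hsep e.2.2.1 (hw.tgt_lt e he) e.1 (hw.st_lt _ (hw.src e he)) (hw.ne e he).symm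
      rw [h1, norm_mul, Complex.norm_real, Real.norm_of_nonneg hs.le,
        norm_lat_dz (hp.fr _) (hw.dir e he), hp.unit, mul_one] at h2
      have : 2 * a = d / 4 := by rw [ha]; ring
      linarith
    -- classification of the neighbours
    have key : ∀ v u, AdjE (netE st it) v u →
        (∃ i ∈ st, ∃ l < 13, ∃ l' < 13, ∃ k < 6, v = 13 * i + l ∧ u = 13 * i + l' ∧
          off l' = off l + dz k) ∨
        (∃ i ∈ st, ∃ k < 6, v = 13 * i + (k + 1) ∧
          (∃ s : ℝ, 0 < s ∧ z u - z v = s * lat (U i) (V i) (dz k)) ∧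
          ((∃ e ∈ it, v = (edgeOf e).1 ∧ u = (edgeOf e).2) ∨
           (∃ e ∈ it, e.2.2.2 = true ∧ v = (edgeOf e).2 ∧ u = (edgeOf e).1))) ∨
        (∃ e ∈ it, e.2.2.2 = false ∧ v = 13 * e.2.2.1 ∧ u = (edgeOf e).1 ∧
          ∃ s : ℝ, 0 < s ∧ z u - z v = s * -lat (U e.1) (V e.1) (dz e.2.1)) := by
      have hout : ∀ e ∈ it, ∃ s : ℝ, 0 < s ∧ z (edgeOf e).2 - z (edgeOf e).1 =
          s * lat (U e.1) (V e.1) (dz e.2.1) := by
        intro e he
        obtain ⟨s, hs, h1⟩ := hlen e he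
        have hk := hw.dir e he
        have z1 : z (edgeOf e).1 = b e.1 + a * lat (U e.1) (V e.1) (dz e.2.1) := by
          rw [edgeOf]
          dsimp only
          rw [hzl _ _ (by omega), off_succ hk]
        by_cases hm : e.2.2.2 = true
        · refine ⟨s - 2 * a, by linarith, ?_⟩
          have hf := hp.frame e he hm
          have hk3 : (e.2.1 + 3) % 6 < 6 := Nat.mod_lt _ (by norm_num)
          have z2 : z (edgeOf e).2 = b e.2.2.1 - a * lat (U e.1) (V e.1) (dz e.2.1) := by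
            rw [edgeOf]
            dsimp only
            rw [if_pos hm, hzl _ _ (by omega), off_succ hk3, dz_opp hk, lat_neg, hf.1, hf.2]
            ring
          rw [z1, z2]
          push_cast
          linear_combination h1
        · refine ⟨s - a, by linarith, ?_⟩
          have z2 : z (edgeOf e).2 = b e.2.2.1 := by
            rw [edgeOf]
            dsimp only
            rw [if_neg hm, add_zero, hz0]
          rw [z1, z2]
          push_cast
          linear_combination h1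
      intro v u hvu
      have hcases : ∀ x y, (x, y) ∈ netE st it → (∃ i ∈ st, ∃ p ∈ SE, x = 13 * i + p.1 ∧
          y = 13 * i + p.2) ∨ (∃ e ∈ it, x = (edgeOf e).1 ∧ y = (edgeOf e).2) := by
        intro x y hxy
        unfold netE at hxy
        rw [List.mem_append, List.mem_flatMap, List.mem_map] at hxy
        rcases hxy with ⟨i, hi, h1⟩ | ⟨e, he, h1⟩
        · rw [List.mem_map] at h1
          obtain ⟨p, hp1, h1⟩ := h1
          exact Or.inl ⟨i, hi, p, hp1, (Prod.ext_iff.1 h1).1.symm, (Prod.ext_iff.1 h1).2.symm⟩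
        · exact Or.inr ⟨e, he, by rw [h1], by rw [h1]⟩
      rcases hvu with hvu | hvu
      · rcases hcases _ _ hvu with ⟨i, hi, p, hp1, rfl, rfl⟩ | ⟨e, he, rfl, rfl⟩
        · obtain ⟨k, hk, h1⟩ := se_dir p hp1
          exact Or.inl ⟨i, hi, p.1, (se_lt p hp1).1, p.2, (se_lt p hp1).2, k, hk, rfl, rfl, h1⟩
        · exact Or.inr (Or.inl ⟨e.1, hw.src e he, e.2.1, hw.dir e he, rfl, hout e he,
            Or.inl ⟨e, he, rfl, rfl⟩⟩)
      · rcases hcases _ _ hvu with ⟨i, hi, p, hp1, rfl, rfl⟩ | ⟨e, he, rfl, rfl⟩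
        · obtain ⟨k, hk, h1⟩ := se_dir' p hp1
          exact Or.inl ⟨i, hi, p.2, (se_lt p hp1).2, p.1, (se_lt p hp1).1, k, hk, rfl, rfl, h1⟩
        · obtain ⟨s, hs, h1⟩ := hout e he
          have hk := hw.dir e he
          cases hm : e.2.2.2 with
          | true =>
            refine Or.inr (Or.inl ⟨e.2.2.1, hw.link e he hm, (e.2.1 + 3) % 6,
              Nat.mod_lt _ (by norm_num), ?_, ⟨s, hs, ?_⟩, Or.inr ⟨e, he, hm, rfl, rfl⟩⟩)
            · rw [edgeOf]
              dsimp only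
              rw [if_pos hm]
            · have hf := hp.frame e he hm
              rw [dz_opp hk, lat_neg, hf.1, hf.2]
              linear_combination -h1
          | false =>
            refine Or.inr (Or.inr ⟨e, he, hm, ?_, rfl, s, hs, ?_⟩)
            · rw [edgeOf]
              dsimp only
              rw [hm]
              simp
            · linear_combination -h1
    -- the difference of internal neighbours
    have hint : ∀ i, ∀ l < 13, ∀ l' < 13, ∀ k, off l' = off l + dz k →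
        z (13 * i + l') - z (13 * i + l) = a * lat (U i) (V i) (dz k) := by
      intro i l hl l' hl' k h1
      rw [hzl i l hl, hzl i l' hl', h1, lat_add]
      ring
    intro v u w hvu hvw huw
    rcases key v u hvu with ⟨i, hi, l, hl, l', hl', k, hk, e1, e2, e3⟩ |
      ⟨i, hi, k, hk, e1, ⟨s, hs, e2⟩, e3⟩ | ⟨e, he, hm, e1, e2, s, hs, e3⟩
    · rcases key v w hvw with ⟨i₂, hi₂, l₂, hl₂, l₂', hl₂', k₂, hk₂, f1, f2, f3⟩ |
        ⟨i₂, hi₂, k₂, hk₂, f1, ⟨s₂, hs₂, f2⟩, f3⟩ | ⟨e₂, he₂, hm₂, f1, f2, s₂, hs₂, f3⟩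
      · have hii : i = i₂ := by omega
        have hll : l = l₂ := by omega
        subst hii hll
        have hkk : k ≠ k₂ := by
          rintro rfl
          have : l' = l₂' := off_inj _ hl' _ hl₂' (by rw [e3, f3])
          exact huw (by rw [e2, f2, this])
        rw [e1, e2, f2, hint i l hl l' hl' k e3, hint i l hl l₂' hl₂' k₂ f3]
        exact cd_smul ha0 ha0 (cd_dz (hp.fr i) hk hk₂ hkk)
      · have hii : i = i₂ := by omega
        have hll : l = k₂ + 1 := by omega
        subst hii hll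
        have hkk : k ≠ k₂ := by
          rintro rfl
          exact port_free k hk l' hl' e3
        rw [f2, e1, e2, hint i _ hl l' hl' k e3]
        exact cd_smul ha0 hs₂ (cd_dz (hp.fr i) hk hk₂ hkk)
      · exfalso
        have : i = e₂.2.2.1 := by omega
        rw [this] at hi
        exact hw.ray e₂ he₂ hm₂ hi
    · rcases key v w hvw with ⟨i₂, hi₂, l₂, hl₂, l₂', hl₂', k₂, hk₂, f1, f2, f3⟩ |
        ⟨i₂, hi₂, k₂, hk₂, f1, ⟨s₂, hs₂, f2⟩, f3⟩ | ⟨e₂, he₂, hm₂, f1, f2, s₂, hs₂, f3⟩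
      · have hii : i = i₂ := by omega
        have hll : l₂ = k + 1 := by omega
        subst hii hll
        have hkk : k ≠ k₂ := by
          rintro rfl
          exact port_free k hk l₂' hl₂' f3
        rw [e2, f1, f2, hint i _ hl₂ l₂' hl₂' k₂ f3]
        exact cd_smul hs ha0 (cd_dz (hp.fr i) hk hk₂ hkk)
      · exfalso
        apply huw
        rcases e3 with ⟨x, hx, x1, x2⟩ | ⟨x, hx, xm, x1, x2⟩
        · rcases f3 with ⟨y, hy, y1, y2⟩ | ⟨y, hy, ym, y1, y2⟩
          · rw [x2, y2]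
            exact hu.ss x hx y hy (by rw [← x1, ← y1])
          · exact absurd (by rw [← x1, ← y1]) (hu.st x hx y hy ym)
        · rcases f3 with ⟨y, hy, y1, y2⟩ | ⟨y, hy, ym, y1, y2⟩
          · exact absurd (by rw [← x1, ← y1]) (hu.st y hy x hx xm)
          · rw [x2, y2]
            exact hu.tt x hx y hy xm ym (by rw [← x1, ← y1])
      · exfalso
        omega
    · rcases key v w hvw with ⟨i₂, hi₂, l₂, hl₂, l₂', hl₂', k₂, hk₂, f1, f2, f3⟩ |
        ⟨i₂, hi₂, k₂, hk₂, f1, ⟨s₂, hs₂, f2⟩, f3⟩ | ⟨e₂, he₂, hm₂, f1, f2, s₂, hs₂, f3⟩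
      · exfalso
        have : i₂ = e.2.2.1 := by omega
        rw [this] at hi₂
        exact hw.ray e he hm hi₂
      · exfalso
        omega
      · have h1 := hp.mere e he e₂ he₂ hm hm₂ (by omega) (by
          intro h
          exact huw (by rw [e2, f2, h]))
        rw [e3, f3]
        refine cd_smul hs hs₂ ?_
        unfold Cd at h1 ⊢
        rw [norm_neg, norm_neg]
        have : ip (-lat (U e.1) (V e.1) (dz e.2.1)) (-lat (U e₂.1) (V e₂.1) (dz e₂.2.1)) =
            ip (lat (U e.1) (V e.1) (dz e.2.1)) (lat (U e₂.1) (V e₂.1) (dz e₂.2.1)) := by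
          unfold ip
          simp
        rw [this]
        exact h1

end Pool.Agent.NPC.ER.AR
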