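import Pool.Agent.H606R2.AR.Inst
import Pool.Agent.H606R2.Faith.PolyT

/-!
# The reduction is computable in polynomial time
-/

namespace Pool.Agent.NPC.ER.AR

open Pool.Agent.NPC.ER.Faith (poly_conCases poly_lin poly_pos pos)

variable {α : Type} [TEnc α]

theorem poly_item {a b c : α → ℕ} {d : α → Bool} (ha : Poly a) (hb : Poly b) (hc : Poly c)
    (hd : Poly d) : Poly (fun x => ((a x, b x, c x, d x) : Item)) :=
  ha.pair (hb.pair (hc.pair hd))

theorem poly_shift {n : α → ℕ} {L : α → List Item} (hn : Poly n) (hL : Poly L) :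
    Poly (fun x => (L x).map (sh (n x))) := by
  refine Poly.map (F := fun (x : α) (e : Item) => sh (n x) e) hL ?_
  have n' : Poly (fun p : α × Item => n p.1) := hn.comp (Poly.fst Poly.id)
  have e : Poly (fun p : α × Item => p.2) := Poly.snd Poly.id
  exact poly_item (Poly.add n' (Poly.fst e)) (Poly.fst (Poly.snd e))
    (Poly.add n' (Poly.fst (Poly.snd (Poly.snd e)))) (Poly.snd (Poly.snd (Poly.snd e)))

theorem poly_slots : Poly slots := by
  have h := poly_conCases (α := Con) (c := fun c => c)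
    (f₀ := fun _ i => [i + 1, 0, 0, 0, 0, 0, 0, 0])
    (f₁ := fun _ i j l => [i + 1, j + 1, l + 1, 0, 0, 0, 0, 0])
    (f₂ := fun _ i j l => [i + 1, 0, i + 1, 0, l + 1, j + 1, l + 1, j + 1])
    Poly.id ?_ ?_ ?_
  · refine h.congr fun c => ?_
    cases c <;> rfl
  · have i : Poly (fun p : Con × ℕ => p.2 + 1) := Poly.succ (Poly.snd Poly.id)
    exact Poly.cons i (Poly.const _)
  · have i : Poly (fun p : Con × ℕ × ℕ × ℕ => p.2.1 + 1) :=
      Poly.succ (Poly.fst (Poly.snd Poly.id))
    have j : Poly (fun p : Con × ℕ × ℕ × ℕ => p.2.2.1 + 1) :=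
      Poly.succ (Poly.fst (Poly.snd (Poly.snd Poly.id)))
    have l : Poly (fun p : Con × ℕ × ℕ × ℕ => p.2.2.2 + 1) :=
      Poly.succ (Poly.snd (Poly.snd (Poly.snd Poly.id)))
    exact Poly.cons i (Poly.cons j (Poly.cons l (Poly.const _)))
  · have i : Poly (fun p : Con × ℕ × ℕ × ℕ => p.2.1 + 1) :=
      Poly.succ (Poly.fst (Poly.snd Poly.id))
    have j : Poly (fun p : Con × ℕ × ℕ × ℕ => p.2.2.1 + 1) :=
      Poly.succ (Poly.fst (Poly.snd (Poly.snd Poly.id)))
    have l : Poly (fun p : Con × ℕ × ℕ × ℕ => p.2.2.2 + 1) :=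
      Poly.succ (Poly.snd (Poly.snd (Poly.snd Poly.id)))
    have z : Poly (fun _ : Con × ℕ × ℕ × ℕ => 0) := Poly.const 0
    exact Poly.cons i (Poly.cons z (Poly.cons i (Poly.cons z (Poly.cons l (Poly.cons j
      (Poly.cons l (Poly.cons j (Poly.const _))))))))

theorem poly_labs {S : α → List Con} (hS : Poly S) : Poly (fun a => labs (S a)) :=
  Poly.flatMap (F := fun _ (c : Con) => slots c) hS (poly_slots.comp (Poly.snd Poly.id))

theorem poly_gad : Poly gad := by
  have h := poly_conCases (α := Con) (c := fun c => c)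
    (f₀ := fun _ _ => gad (Con.one 0))
    (f₁ := fun _ _ _ _ => gad (Con.add 0 0 0))
    (f₂ := fun _ _ _ _ => gad (Con.mul 0 0 0))
    Poly.id (Poly.const _) (Poly.const _) (Poly.const _)
  refine h.congr fun c => ?_
  cases c <;> rfl

theorem poly_al {f : α → ℕ} (hf : Poly f) : Poly (fun x => al (f x)) := by
  have l : ∀ n, Poly (fun x => 11 * f x + n) := fun n =>
    Poly.add (Poly.mul (Poly.const 11) hf) (Poly.const n)
  have l' : ∀ n, Poly (fun x => 11 * (f x + 1) + n) := fun n =>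
    Poly.add (Poly.mul (Poly.const 11) (Poly.succ hf)) (Poly.const n)
  exact Poly.cons (poly_item (l 7) (Poly.const _) (l' 6) (Poly.const _))
    (Poly.cons (poly_item (l' 6) (Poly.const _) (l 9) (Poly.const _)) (Poly.const _))

theorem poly_eqI {f g : α → ℕ} (hf : Poly f) (hg : Poly g) :
    Poly (fun x => eqI (f x) (g x)) := by
  have l : ∀ n, Poly (fun x => 11 * f x + n) := fun n =>
    Poly.add (Poly.mul (Poly.const 11) hf) (Poly.const n)
  have l' : ∀ n, Poly (fun x => 11 * g x + n) := fun n =>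
    Poly.add (Poly.mul (Poly.const 11) hg) (Poly.const n)
  have l0 : Poly (fun x => 11 * g x) := Poly.mul (Poly.const 11) hg
  exact Poly.cons (poly_item (l 1) (Poly.const _) l0 (Poly.const _))
    (Poly.cons (poly_item (l 2) (Poly.const _) (l' 2) (Poly.const _)) (Poly.const _))

theorem poly_eqs {L : α → List ℕ} (hL : Poly L) : Poly (fun a => eqs (L a)) := by
  refine Poly.flatMap (F := fun a (p : ℕ × ℕ) => (L a).zipIdx.flatMap fun q =>
    if Nxt (L a) p q then eqI p.2 q.2 else []) (Poly.zipIdx hL) ?_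
  refine Poly.flatMap (F := fun (r : α × ℕ × ℕ) (q : ℕ × ℕ) =>
    if Nxt (L r.1) r.2 q then eqI r.2.2 q.2 else [])
    (Poly.zipIdx (hL.comp (Poly.fst Poly.id))) ?_
  have p1 : Poly (fun s : (α × ℕ × ℕ) × ℕ × ℕ => s.1.2.1) :=
    Poly.fst (Poly.snd (Poly.fst Poly.id))
  have p2 : Poly (fun s : (α × ℕ × ℕ) × ℕ × ℕ => s.1.2.2) :=
    Poly.snd (Poly.snd (Poly.fst Poly.id))
  have q1 : Poly (fun s : (α × ℕ × ℕ) × ℕ × ℕ => s.2.1) := Poly.fst (Poly.snd Poly.id)
  have q2 : Poly (fun s : (α × ℕ × ℕ) × ℕ × ℕ => s.2.2) := Poly.snd (Poly.snd Poly.id)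
  refine Poly.ite (Poly.decide_and (Poly.decide_eq p1 q1) (Poly.decide_and
    (Poly.decide_lt p2 q2) (Poly.decide_eq (Poly.length ?_) (Poly.const _))))
    (poly_eqI p2 q2) (Poly.const _)
  refine Poly.filter (p := fun (s : (α × ℕ × ℕ) × ℕ × ℕ) (r : ℕ × ℕ) =>
    decide (r.1 = s.1.2.1 ∧ s.1.2.2 < r.2 ∧ r.2 < s.2.2))
    (Poly.zipIdx (hL.comp (Poly.fst (Poly.fst Poly.id)))) ?_
  exact Poly.decide_and (Poly.decide_eq (Poly.fst (Poly.snd Poly.id)) (p1.comp (Poly.fst Poly.id)))
    (Poly.decide_and (Poly.decide_lt (p2.comp (Poly.fst Poly.id)) (Poly.snd (Poly.snd Poly.id)))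
    (Poly.decide_lt (Poly.snd (Poly.snd Poly.id)) (q2.comp (Poly.fst Poly.id))))

theorem upoly_8 {S : α → List Con} (hS : Poly S) : UPoly (fun a => 8 * (S a).length) :=
  UPoly.mul (UPoly.const 8) (UPoly.length hS)

theorem poly_items {S : α → List Con} (hS : Poly S) : Poly (fun a => items (S a)) := by
  refine Poly.append ?_ (Poly.append ?_ (Poly.append (poly_eqs (poly_labs hS)) ?_))
  · refine Poly.flatMap (F := fun _ (f : ℕ) => Loc.map (sh (11 * f)))
      (UPoly.range (upoly_8 hS)) ?_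
    exact poly_shift (Poly.mul (Poly.const 11) (Poly.snd Poly.id)) (Poly.const _)
  · refine Poly.flatMap (F := fun _ (f : ℕ) => al f) (UPoly.range (n := fun a =>
      8 * (S a).length - 1) (UPoly.of_le (Poly.sub (upoly_8 hS).toPoly (Poly.const 1))
      (upoly_8 hS) fun a => Nat.sub_le _ _)) ?_
    exact poly_al (Poly.snd Poly.id)
  · refine Poly.flatMap (F := fun _ (p : Con × ℕ) => (gad p.1).map (sh (88 * p.2)))
      (Poly.zipIdx hS) ?_
    exact poly_shift (Poly.mul (Poly.const 88) (Poly.snd (Poly.snd Poly.id)))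
      (poly_gad.comp (Poly.fst (Poly.snd Poly.id)))

theorem poly_stars {S : α → List Con} (hS : Poly S) : Poly (fun a => stars (S a)) := by
  refine Poly.append ?_ ?_
  · refine Poly.flatMap (F := fun _ (f : ℕ) => (List.range 10).map fun c => 11 * f + c)
      (UPoly.range (upoly_8 hS)) ?_
    refine Poly.map (F := fun (p : α × ℕ) (c : ℕ) => 11 * p.2 + c) (Poly.const _) ?_
    exact Poly.add (Poly.mul (Poly.const 11) (Poly.snd (Poly.fst Poly.id))) (Poly.snd Poly.id)
  · refine Poly.flatMap (F := fun _ (k : ℕ) => [88 * k + 54, 88 * k + 65, 88 * k + 76,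
      88 * k + 87]) (UPoly.range (UPoly.length hS)) ?_
    have l : ∀ n, Poly (fun p : α × ℕ => 88 * p.2 + n) := fun n =>
      Poly.add (Poly.mul (Poly.const 88) (Poly.snd Poly.id)) (Poly.const n)
    exact Poly.cons (l 54) (Poly.cons (l 65) (Poly.cons (l 76) (Poly.cons (l 87)
      (Poly.const _))))

theorem poly_edgeOf : Poly edgeOf := by
  have a : Poly (fun e : Item => e.1) := Poly.fst Poly.id
  have k : Poly (fun e : Item => e.2.1) := Poly.fst (Poly.snd Poly.id)
  have b : Poly (fun e : Item => e.2.2.1) := Poly.fst (Poly.snd (Poly.snd Poly.id))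
  have m : Poly (fun e : Item => e.2.2.2) := Poly.snd (Poly.snd (Poly.snd Poly.id))
  refine Poly.pair (Poly.add (Poly.mul (Poly.const 13) a) (Poly.succ k))
    (Poly.add (Poly.mul (Poly.const 13) b) (Poly.ite (Poly.decide_eq m (Poly.const true))
      (Poly.succ (Poly.mod (Poly.add k (Poly.const 3)) (Poly.const 6))) (Poly.const 0)))

theorem poly_netE {st : α → List ℕ} {it : α → List Item} (hst : Poly st) (hit : Poly it) :
    Poly (fun a => netE (st a) (it a)) := by
  refine Poly.append ?_ (Poly.map (F := fun _ e => edgeOf e) hit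
    (poly_edgeOf.comp (Poly.snd Poly.id)))
  refine Poly.flatMap (F := fun _ (v : ℕ) => SE.map fun p => (13 * v + p.1, 13 * v + p.2)) hst ?_
  refine Poly.map (F := fun (q : α × ℕ) (p : ℕ × ℕ) => (13 * q.2 + p.1, 13 * q.2 + p.2))
    (Poly.const _) ?_
  have v : Poly (fun q : (α × ℕ) × ℕ × ℕ => 13 * q.1.2) :=
    Poly.mul (Poly.const 13) (Poly.snd (Poly.fst Poly.id))
  exact Poly.pair (Poly.add v (Poly.fst (Poly.snd Poly.id)))
    (Poly.add v (Poly.snd (Poly.snd Poly.id)))

/-- The reduction. -/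
def red (S : List Con) : ℕ × List (ℕ × ℕ) :=
  (13 * (88 * (pos S).length), netE (stars (pos S)) (items (pos S)))

theorem poly_red : Poly red :=
  Poly.pair (Poly.mul (Poly.const 13) (Poly.mul (Poly.const 88)
    (Poly.length (poly_pos Poly.id))))
    (poly_netE (poly_stars (poly_pos Poly.id)) (poly_items (poly_pos Poly.id)))

end Pool.Agent.NPC.ER.AR
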