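import Pool.Agent.H606R2.AR.Geom

/-!
# Rigid stars with six ports, and networks of stars
-/

namespace Pool.Agent.NPC.ER.AR

/-- The six lattice directions. -/
def dz : ℕ → ℤ × ℤ
  | 0 => (1, 0)
  | 1 => (0, 1)
  | 2 => (-1, 1)
  | 3 => (-1, 0)
  | 4 => (0, -1)
  | _ => (1, -1)

/-- The thirteen lattice points of a star. -/
def off : ℕ → ℤ × ℤ
  | 0 => (0, 0)
  | 1 => (1, 0)
  | 2 => (0, 1)
  | 3 => (-1, 1)
  | 4 => (-1, 0)
  | 5 => (0, -1)
  | 6 => (1, -1)
  | 7 => (1, 1)
  | 8 => (-1, 2)
  | 9 => (-2, 1)
  | 10 => (-1, -1)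
  | 11 => (1, -2)
  | _ => (2, -1)

/-- The edges of a star. -/
def SE : List (ℕ × ℕ) :=
  [(0, 1), (0, 2), (0, 3), (0, 4), (0, 5), (0, 6),
   (1, 2), (2, 3), (3, 4), (4, 5), (5, 6), (1, 6),
   (1, 7), (2, 7), (2, 8), (3, 8), (3, 9), (4, 9), (4, 10), (5, 10), (5, 11), (6, 11),
   (6, 12), (1, 12)]

/-- A lattice vector in a frame. -/
noncomputable def lat (P R : ℂ) (q : ℤ × ℤ) : ℂ := (q.1 : ℂ) * P + (q.2 : ℂ) * R

theorem lat_add (P R : ℂ) (q q' : ℤ × ℤ) : lat P R (q + q') = lat P R q + lat P R q' := by
  unfold lat
  push_cast [Prod.fst_add, Prod.snd_add]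
  ring

/-- adjacency in a list of edges -/
def AdjE (E : List (ℕ × ℕ)) (u v : ℕ) : Prop := (u, v) ∈ E ∨ (v, u) ∈ E

/-- A drawing of the graph on `0, …, n - 1` with edges `E` all of whose angles are at least sixty
degrees. -/
structure Good (E : List (ℕ × ℕ)) (n : ℕ) (z : ℕ → ℂ) : Prop where
  inj : ∀ u < n, ∀ v < n, z u = z v → u = v
  ang : ∀ v u w, AdjE E v u → AdjE E v w → u ≠ w → Cd (z u - z v) (z w - z v)

theorem AdjE.symm {E : List (ℕ × ℕ)} {u v : ℕ} (h : AdjE E u v) : AdjE E v u := Or.symm h

namespace Good

variable {E : List (ℕ × ℕ)} {n : ℕ} {z : ℕ → ℂ}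

theorem fr (h : Good E n z) {a b c : ℕ} (ha : a < n) (hb : b < n) (hc : c < n)
    (hab : AdjE E a b) (hac : AdjE E a c) (hbc : AdjE E b c) (h1 : a ≠ b) (h2 : a ≠ c)
    (h3 : b ≠ c) : Fr (z b - z a) (z c - z a) := by
  refine fr_of_triangle ?_ ?_ ?_ (h.ang _ _ _ hab hac h3) ?_ ?_
  · intro h0
    exact h1 (h.inj _ ha _ hb (sub_eq_zero.1 h0).symm)
  · intro h0
    exact h2 (h.inj _ ha _ hc (sub_eq_zero.1 h0).symm)
  · intro h0
    exact h3 (h.inj _ hb _ hc (by linear_combination h0))
  · have := h.ang b a c hab.symm hbc h2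
    convert this using 1 <;> ring
  · have := h.ang c a b hac.symm hbc.symm h1
    convert this using 1 <;> ring

theorem apex (h : Good E n z) {a b c d : ℕ} (ha : a < n) (hb : b < n) (hc : c < n) (hd : d < n)
    (hab : AdjE E a b) (hac : AdjE E a c) (hbc : AdjE E b c) (had : AdjE E a d)
    (hbd : AdjE E b d) (h1 : a ≠ b) (h2 : a ≠ c) (h3 : b ≠ c) (h4 : a ≠ d) (h5 : b ≠ d)
    (hcd : c ≠ d) : z d = z a + z b - z c := by
  have f1 := h.fr ha hb hc hab hac hbc h1 h2 h3
  have f2 := h.fr ha hb hd hab had hbd h1 h4 h5
  rcases f1.two f2 with h0 | h0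
  · exact absurd (h.inj _ hc _ hd (by linear_combination -h0)) hcd
  · linear_combination h0

end Good

/-- The star of the node `v` is part of the graph. -/
def HasStar (E : List (ℕ × ℕ)) (v : ℕ) : Prop := ∀ p ∈ SE, (13 * v + p.1, 13 * v + p.2) ∈ E

theorem HasStar.adj {E : List (ℕ × ℕ)} {v : ℕ} (h : HasStar E v) {l l' : ℕ}
    (hl : (l, l') ∈ SE ∨ (l', l) ∈ SE) : AdjE E (13 * v + l) (13 * v + l') := by
  rcases hl with hl | hl
  · exact Or.inl (h _ hl)
  · exact Or.inr (h _ hl)

theorem star_rigid {E : List (ℕ × ℕ)} {n : ℕ} {z : ℕ → ℂ} (h : Good E n z) {v : ℕ}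
    (hs : HasStar E v) (hv : 13 * v + 13 ≤ n) : ∃ b P R : ℂ, Fr P R ∧
      ∀ l < 13, z (13 * v + l) = b + lat P R (off l) := by
  have hf : Fr (z (13 * v + 1) - z (13 * v + 0)) (z (13 * v + 2) - z (13 * v + 0)) :=
    h.fr (by omega) (by omega) (by omega) (hs.adj (by decide)) (hs.adj (by decide))
      (hs.adj (by decide)) (by omega) (by omega) (by omega)
  have ap : ∀ a b c d : ℕ, a < 13 → b < 13 → c < 13 → d < 13 →
      ((a, b) ∈ SE ∨ (b, a) ∈ SE) → ((a, c) ∈ SE ∨ (c, a) ∈ SE) →
      ((b, c) ∈ SE ∨ (c, b) ∈ SE) → ((a, d) ∈ SE ∨ (d, a) ∈ SE) →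
      ((b, d) ∈ SE ∨ (d, b) ∈ SE) → a ≠ b → a ≠ c → b ≠ c → a ≠ d → b ≠ d → c ≠ d →
      z (13 * v + d) = z (13 * v + a) + z (13 * v + b) - z (13 * v + c) := by
    intro a b c d ha hb hc hd h1 h2 h3 h4 h5 n1 n2 n3 n4 n5 n6
    exact h.apex (by omega) (by omega) (by omega) (by omega) (hs.adj h1) (hs.adj h2) (hs.adj h3)
      (hs.adj h4) (hs.adj h5) (by omega) (by omega) (by omega) (by omega) (by omega) (by omega)
  have a3 := ap 0 2 1 3 (by decide) (by decide) (by decide) (by decide) (by decide) (by decide)
    (by decide) (by decide) (by decide) (by decide) (by decide) (by decide) (by decide)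
    (by decide) (by decide)
  have a4 := ap 0 3 2 4 (by decide) (by decide) (by decide) (by decide) (by decide) (by decide)
    (by decide) (by decide) (by decide) (by decide) (by decide) (by decide) (by decide)
    (by decide) (by decide)
  have a5 := ap 0 4 3 5 (by decide) (by decide) (by decide) (by decide) (by decide) (by decide)
    (by decide) (by decide) (by decide) (by decide) (by decide) (by decide) (by decide)
    (by decide) (by decide)
  have a6 := ap 0 5 4 6 (by decide) (by decide) (by decide) (by decide) (by decide) (by decide)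
    (by decide) (by decide) (by decide) (by decide) (by decide) (by decide) (by decide)
    (by decide) (by decide)
  have a7 := ap 1 2 0 7 (by decide) (by decide) (by decide) (by decide) (by decide) (by decide)
    (by decide) (by decide) (by decide) (by decide) (by decide) (by decide) (by decide)
    (by decide) (by decide)
  have a8 := ap 2 3 0 8 (by decide) (by decide) (by decide) (by decide) (by decide) (by decide)
    (by decide) (by decide) (by decide) (by decide) (by decide) (by decide) (by decide)
    (by decide) (by decide)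
  have a9 := ap 3 4 0 9 (by decide) (by decide) (by decide) (by decide) (by decide) (by decide)
    (by decide) (by decide) (by decide) (by decide) (by decide) (by decide) (by decide)
    (by decide) (by decide)
  have a10 := ap 4 5 0 10 (by decide) (by decide) (by decide) (by decide) (by decide) (by decide)
    (by decide) (by decide) (by decide) (by decide) (by decide) (by decide) (by decide)
    (by decide) (by decide)
  have a11 := ap 5 6 0 11 (by decide) (by decide) (by decide) (by decide) (by decide) (by decide)
    (by decide) (by decide) (by decide) (by decide) (by decide) (by decide) (by decide)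
    (by decide) (by decide)
  have a12 := ap 6 1 0 12 (by decide) (by decide) (by decide) (by decide) (by decide) (by decide)
    (by decide) (by decide) (by decide) (by decide) (by decide) (by decide) (by decide)
    (by decide) (by decide)
  refine ⟨z (13 * v + 0), _, _, hf, fun l hl => ?_⟩
  interval_cases l <;> simp only [off, lat] <;> push_cast
  · ring
  · ring
  · ring
  · rw [a3]; ring
  · rw [a4, a3]; ring
  · rw [a5, a4, a3]; ring
  · rw [a6, a5, a4, a3]; ring
  · rw [a7]; ring
  · rw [a8, a3]; ring
  · rw [a9, a4, a3]; ring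
  · rw [a10, a5, a4, a3]; ring
  · rw [a11, a6, a5, a4, a3]; ring
  · rw [a12, a6, a5, a4, a3]; ring

/-- An item `(v, k, v', m)` of a network: the port `k` of the star `v` is joined to the opposite
port of the star `v'` (if `m = true`), or to the centre of the node `v'` (if `m = false`). -/
abbrev Item : Type := ℕ × ℕ × ℕ × Bool

/-- The edge of an item. -/
def edgeOf (e : Item) : ℕ × ℕ :=
  (13 * e.1 + (e.2.1 + 1), 13 * e.2.2.1 + if e.2.2.2 = true then (e.2.1 + 3) % 6 + 1 else 0)

/-- The edges of a network. -/
def netE (st : List ℕ) (it : List Item) : List (ℕ × ℕ) :=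
  (st.flatMap fun v => SE.map fun p => (13 * v + p.1, 13 * v + p.2)) ++ it.map edgeOf

/-- Well-formed networks with `N` nodes. -/
structure WF (N : ℕ) (st : List ℕ) (it : List Item) : Prop where
  st_lt : ∀ v ∈ st, v < N
  src : ∀ e ∈ it, e.1 ∈ st
  dir : ∀ e ∈ it, e.2.1 < 6
  tgt_lt : ∀ e ∈ it, e.2.2.1 < N
  link : ∀ e ∈ it, e.2.2.2 = true → e.2.2.1 ∈ st
  ray : ∀ e ∈ it, e.2.2.2 = false → e.2.2.1 ∉ st
  ne : ∀ e ∈ it, e.1 ≠ e.2.2.1

theorem netE_star {st : List ℕ} {it : List Item} {v : ℕ} (hv : v ∈ st) :
    HasStar (netE st it) v := by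
  intro p hp
  unfold netE
  rw [List.mem_append, List.mem_flatMap]
  exact Or.inl ⟨v, hv, List.mem_map.2 ⟨p, hp, rfl⟩⟩

theorem netE_item {st : List ℕ} {it : List Item} {e : Item} (he : e ∈ it) :
    edgeOf e ∈ netE st it := by
  unfold netE
  rw [List.mem_append]
  exact Or.inr (List.mem_map.2 ⟨e, he, rfl⟩)

/-- The direction of an external edge at a port. -/
theorem port_dir {E : List (ℕ × ℕ)} {n : ℕ} {z : ℕ → ℂ} (h : Good E n z) {v : ℕ}
    (hs : HasStar E v) (hv : 13 * v + 13 ≤ n) {b P R : ℂ} (hf : Fr P R)
    (hz : ∀ l < 13, z (13 * v + l) = b + lat P R (off l)) {k : ℕ} (hk : k < 6) {w : ℕ}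
    (hw : w < n) (hvw : ∀ l < 13, w ≠ 13 * v + l) (had : AdjE E (13 * v + (k + 1)) w) :
    ∃ t : ℝ, 0 < t ∧ z w - z (13 * v + (k + 1)) = t * lat P R (dz k) := by
  have hne : z w - z (13 * v + (k + 1)) ≠ 0 := by
    intro h0
    exact hvw (k + 1) (by omega) (h.inj _ hw _ (by omega) (sub_eq_zero.1 h0))
  have key : ∀ l < 13, ((k + 1, l) ∈ SE ∨ (l, k + 1) ∈ SE) →
      Cd (z w - z (13 * v + (k + 1))) (lat P R (off l) - lat P R (off (k + 1))) := by
    intro l hl hl'
    have h1 := h.ang (13 * v + (k + 1)) w (13 * v + l) had (hs.adj hl') (hvw l hl)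
    rw [hz l hl] at h1
    have h2 : b + lat P R (off l) - z (13 * v + (k + 1)) =
        lat P R (off l) - lat P R (off (k + 1)) := by
      rw [hz (k + 1) (by omega)]; ring
    rwa [h2] at h1
  interval_cases k
  · have r := hf
    obtain ⟨t, ht, e⟩ := port_lemma r hne
      (by convert key 7 (by decide) (by decide) using 1; simp only [lat, off, Nat.reduceAdd]; push_cast; ring)
      (by convert key 2 (by decide) (by decide) using 1; simp only [lat, off, Nat.reduceAdd]; push_cast; ring)
      (by convert key 0 (by decide) (by decide) using 1; simp only [lat, off, Nat.reduceAdd]; push_cast; ring)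
      (by convert key 6 (by decide) (by decide) using 1; simp only [lat, off, Nat.reduceAdd]; push_cast; ring)
      (by convert key 12 (by decide) (by decide) using 1; simp only [lat, off, Nat.reduceAdd]; push_cast; ring)
    exact ⟨t, ht, by rw [e]; simp only [lat, dz]; push_cast; ring⟩
  · have r := hf.rot
    obtain ⟨t, ht, e⟩ := port_lemma r hne
      (by convert key 8 (by decide) (by decide) using 1; simp only [lat, off, Nat.reduceAdd]; push_cast; ring)
      (by convert key 3 (by decide) (by decide) using 1; simp only [lat, off, Nat.reduceAdd]; push_cast; ring)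
      (by convert key 0 (by decide) (by decide) using 1; simp only [lat, off, Nat.reduceAdd]; push_cast; ring)
      (by convert key 1 (by decide) (by decide) using 1; simp only [lat, off, Nat.reduceAdd]; push_cast; ring)
      (by convert key 7 (by decide) (by decide) using 1; simp only [lat, off, Nat.reduceAdd]; push_cast; ring)
    exact ⟨t, ht, by rw [e]; simp only [lat, dz]; push_cast; ring⟩
  · have r := hf.rot.rot
    obtain ⟨t, ht, e⟩ := port_lemma r hne
      (by convert key 9 (by decide) (by decide) using 1; simp only [lat, off, Nat.reduceAdd]; push_cast; ring)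
      (by convert key 4 (by decide) (by decide) using 1; simp only [lat, off, Nat.reduceAdd]; push_cast; ring)
      (by convert key 0 (by decide) (by decide) using 1; simp only [lat, off, Nat.reduceAdd]; push_cast; ring)
      (by convert key 2 (by decide) (by decide) using 1; simp only [lat, off, Nat.reduceAdd]; push_cast; ring)
      (by convert key 8 (by decide) (by decide) using 1; simp only [lat, off, Nat.reduceAdd]; push_cast; ring)
    exact ⟨t, ht, by rw [e]; simp only [lat, dz]; push_cast; ring⟩
  · have r := hf.rot.rot.rot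
    obtain ⟨t, ht, e⟩ := port_lemma r hne
      (by convert key 10 (by decide) (by decide) using 1; simp only [lat, off, Nat.reduceAdd]; push_cast; ring)
      (by convert key 5 (by decide) (by decide) using 1; simp only [lat, off, Nat.reduceAdd]; push_cast; ring)
      (by convert key 0 (by decide) (by decide) using 1; simp only [lat, off, Nat.reduceAdd]; push_cast; ring)
      (by convert key 3 (by decide) (by decide) using 1; simp only [lat, off, Nat.reduceAdd]; push_cast; ring)
      (by convert key 9 (by decide) (by decide) using 1; simp only [lat, off, Nat.reduceAdd]; push_cast; ring)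
    exact ⟨t, ht, by rw [e]; simp only [lat, dz]; push_cast; ring⟩
  · have r := hf.rot.rot.rot.rot
    obtain ⟨t, ht, e⟩ := port_lemma r hne
      (by convert key 11 (by decide) (by decide) using 1; simp only [lat, off, Nat.reduceAdd]; push_cast; ring)
      (by convert key 6 (by decide) (by decide) using 1; simp only [lat, off, Nat.reduceAdd]; push_cast; ring)
      (by convert key 0 (by decide) (by decide) using 1; simp only [lat, off, Nat.reduceAdd]; push_cast; ring)
      (by convert key 4 (by decide) (by decide) using 1; simp only [lat, off, Nat.reduceAdd]; push_cast; ring)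
      (by convert key 10 (by decide) (by decide) using 1; simp only [lat, off, Nat.reduceAdd]; push_cast; ring)
    exact ⟨t, ht, by rw [e]; simp only [lat, dz]; push_cast; ring⟩
  · have r := hf.rot.rot.rot.rot.rot
    obtain ⟨t, ht, e⟩ := port_lemma r hne
      (by convert key 12 (by decide) (by decide) using 1; simp only [lat, off, Nat.reduceAdd]; push_cast; ring)
      (by convert key 1 (by decide) (by decide) using 1; simp only [lat, off, Nat.reduceAdd]; push_cast; ring)
      (by convert key 0 (by decide) (by decide) using 1; simp only [lat, off, Nat.reduceAdd]; push_cast; ring)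
      (by convert key 5 (by decide) (by decide) using 1; simp only [lat, off, Nat.reduceAdd]; push_cast; ring)
      (by convert key 11 (by decide) (by decide) using 1; simp only [lat, off, Nat.reduceAdd]; push_cast; ring)
    exact ⟨t, ht, by rw [e]; simp only [lat, dz]; push_cast; ring⟩

end Pool.Agent.NPC.ER.AR
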